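import Pool.Agent.H35.Tri

namespace Pool.Agent.H35

open Module Finset Filter
open scoped Pointwise

lemma exists_le_sum {ι : Type*} (s : Finset ι) (b : ι → ℕ) :
    ∀ a, a ≤ ∑ i ∈ s, b i → ∃ n : ι → ℕ, (∀ i ∈ s, n i ≤ b i) ∧ ∑ i ∈ s, n i = a := by
  classical
  intro a
  induction a with
  | zero => exact fun _ => ⟨0, by simp, by simp⟩
  | succ a ih =>
    intro ha
    obtain ⟨n, h1, h2⟩ := ih (by omega)
    obtain ⟨i, hi, hlt⟩ := Finset.exists_lt_of_sum_lt (s := s) (f := n) (g := b) (by omega)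
    refine ⟨Function.update n i (n i + 1), ?_, ?_⟩
    · intro j hj
      by_cases h : j = i
      · subst h; simp only [Function.update_self]; omega
      · rw [Function.update_of_ne h]; exact h1 j hj
    · have h3 : ∀ j, Function.update n i (n i + 1) j = n j + (if j = i then 1 else 0) := by
        intro j
        by_cases h : j = i
        · subst h; simp
        · simp [h]
      simp only [h3, Finset.sum_add_distrib, h2]
      rw [Finset.sum_ite_eq' s i, if_pos hi]

lemma hasLead_L_diff (r K : ℕ) :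
    HasLead r K (fun t => (L (r + 1) (t + K) : ℤ) - L (r + 1) t) := by
  induction K with
  | zero =>
    refine (hasLead_zero r).congr (Eventually.of_forall fun t => ?_)
    simp
  | succ K ih =>
    have h1 := hasLead_L r (K + 1) 0
    have h2 := ih.add h1
    have h3 : ((K : ℕ) : ℤ) + 1 = ((K + 1 : ℕ) : ℤ) := by push_cast; ring
    rw [h3] at h2
    refine h2.congr (Eventually.of_forall fun t => ?_)
    simp only [Nat.sub_zero]
    rw [← add_assoc, L_succ_succ]
    push_cast
    ring

section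
variable {d : ℕ}

lemma Us_add {P : Finset (Fin d → ℤ)} {t : ℕ} {x v : Fin d → ℤ} (hx : x ∈ Us P t) (hv : v ∈ P) :
    x + v ∈ Us P (t + 1) := by
  intro φ hφ
  have h := hat_add x v t 1
  have h1 : hat (x + v) ((t + 1 : ℕ) : ℤ) = hat x t + hat v 1 := by
    rw [← h]; push_cast; rfl
  rw [h1, map_add]
  have h2 := hx φ hφ
  have h3 := hφ v hv
  unfold pt at h3
  linarith

theorem eventually_bound (r : ℕ) (S : Finset (Fin (r + 1) → ℤ))
    (hS : AddSubgroup.closure (S : Set (Fin (r + 1) → ℤ)) = ⊤) :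
    ∀ᶠ t in atTop, ∀ A : Finset (Fin (r + 1) → ℤ), A.card = (Us (insert 0 S) t).ncard →
      (Us (insert 0 S) (t + 1)).ncard ≤ (Us (insert 0 S) t).ncard + bd S A := by
  obtain ⟨m, c, hm, -, hcount, ⟨γ, hγ⟩, -⟩ := geometry S hS
  obtain ⟨C, hC⟩ := splitting c hS hm
  set g : ℕ → ℤ := fun t => ((Us (insert 0 S) t).ncard : ℤ) with hg
  set K : ℕ := ((C : ℤ) * γ).toNat + 1 with hK
  have hKpos : 0 < (K : ℤ) - C * γ := by
    rw [hK]; push_cast; omega
  have hlead : HasLead r ((K : ℤ) - C * γ)
      (fun t => ((L (r + 1) (t + K) : ℤ) - L (r + 1) t) - C * fd g t) := by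
    exact (hasLead_L_diff r K).sub (HasLead.const_mul (C : ℤ) (f := fd g) hγ)
  have E1 := hlead.eventually_pos hKpos
  have E2 := family_bound (r + 1) g γ K hγ
  filter_upwards [E1, E2] with t h1 h2
  intro A hA
  by_contra hcon
  push Not at hcon
  have hbd : (bd S A : ℤ) < g (t + 1) - g t := by
    simp only [hg]; omega
  obtain ⟨n, hn1, hn2⟩ := exists_le_sum Finset.univ
    (fun j => Nat.card ((Fin (r + 1) → ℤ) ⧸ Lam (c.p j)) * L (r + 1) t)
    (Us (insert 0 S) t).ncard (hcount t)
  obtain ⟨M, hM1, hM2, hM3⟩ := hC A n (by rw [hn2, hA])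
  have hMle : ∀ i ∈ (Finset.univ : Finset (Σ j : Fin m, (Fin (r + 1) → ℤ) ⧸ Lam (c.p j))),
      M i ≤ L (r + 1) (t + K) := by
    intro i _
    have h3 := hM3 i
    have h4 := hn1 i.1 (mem_univ _)
    rw [Nat.card_eq_fintype_card] at h4
    set D := Fintype.card ((Fin (r + 1) → ℤ) ⧸ Lam (c.p i.1)) with hD
    have hDpos : 0 < D := Fintype.card_pos
    have h5 : C * bd S A ≤ L (r + 1) (t + K) - L (r + 1) t := by
      have h6 : (C : ℤ) * bd S A ≤ C * fd g t :=
        mul_le_mul_of_nonneg_left hbd.le (by positivity)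
      have h7 := L_mono (r + 1) (show t ≤ t + K by omega)
      have h8 : ((C * bd S A : ℕ) : ℤ) ≤ (L (r + 1) (t + K) : ℤ) - L (r + 1) t := by
        push_cast; linarith
      omega
    have h7 := L_mono (r + 1) (show t ≤ t + K by omega)
    have h9 : D * M i ≤ D * L (r + 1) (t + K) := by
      calc D * M i ≤ n i.1 + C * bd S A := h3
        _ ≤ D * L (r + 1) t + D * (L (r + 1) (t + K) - L (r + 1) t) := by
            apply Nat.add_le_add h4
            calc C * bd S A ≤ L (r + 1) (t + K) - L (r + 1) t := h5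
              _ = 1 * (L (r + 1) (t + K) - L (r + 1) t) := (one_mul _).symm
              _ ≤ D * (L (r + 1) (t + K) - L (r + 1) t) := Nat.mul_le_mul_right _ hDpos
        _ = D * L (r + 1) (t + K) := by
            rw [← Nat.mul_add]; congr 1; omega
    exact Nat.le_of_mul_le_mul_left h9 hDpos
  have h3 := h2 Finset.univ M hMle (by
    simp only [hg]
    rw [hM1, hA])
  have h4 : ((∑ i, tau (r + 1) (M i) : ℕ) : ℤ) ≤ (bd S A : ℤ) := by exact_mod_cast hM2
  linarith

lemma mem_Us_iff (S : Finset (Fin d → ℤ)) (hrep : ∀ t, ∀ x ∈ Us (insert 0 S) t,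
    ∃ c : (Fin d → ℤ) → ℚ, (∀ v, 0 ≤ c v) ∧ hat x t = ∑ v ∈ insert 0 S, c v • pt v)
    (t : ℕ) (ht : 0 < t) (x : Fin d → ℤ) :
    (fun i => (x i : ℝ)) ∈ (t : ℝ) • convexHull ℝ (insert (0 : Fin d → ℝ)
      ((fun u : Fin d → ℤ => fun i => (u i : ℝ)) '' (S : Set (Fin d → ℤ)))) ↔
    x ∈ Us (insert 0 S) t := by
  constructor
  · intro hx φ hφ
    obtain ⟨y, hy, hxy⟩ := Set.mem_smul_set.1 hx
    have hφhat : ∀ (z : Fin d → ℤ) (s : ℤ), ((φ (hat z s) : ℚ) : ℝ) =
        ∑ i, (z i : ℝ) * ((φ (hat (Pi.single i 1 : Fin d → ℤ) 0) : ℚ) : ℝ) +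
          (s : ℝ) * ((φ (hat 0 1) : ℚ) : ℝ) := by
      intro z s
      have h1 : hat z s = hat z 0 + (s : ℚ) • hat (0 : Fin d → ℤ) 1 := by
        ext <;> simp [hat]
      rw [h1, map_add, map_smul, hat_decomp, map_sum]
      simp only [map_smul, smul_eq_mul]
      push_cast
      rfl
    set f : (Fin d → ℝ) → ℝ := fun y =>
      ∑ i, y i * ((φ (hat (Pi.single i 1 : Fin d → ℤ) 0) : ℚ) : ℝ) with hf
    have hflin : IsLinearMap ℝ f := by
      constructor
      · intro a b
        simp only [hf, Pi.add_apply, add_mul, Finset.sum_add_distrib]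
      · intro c a
        simp only [hf, Pi.smul_apply, smul_eq_mul, Finset.mul_sum, mul_assoc]
    have hH : convexHull ℝ (insert (0 : Fin d → ℝ)
        ((fun u : Fin d → ℤ => fun i => (u i : ℝ)) '' (S : Set (Fin d → ℤ)))) ⊆
        {y | f y ≤ - ((φ (hat 0 1) : ℚ) : ℝ)} := by
      apply convexHull_min _ (convex_halfSpace_le hflin _)
      have hP : ∀ v ∈ (insert 0 S : Finset (Fin d → ℤ)),
          f (fun i => (v i : ℝ)) ≤ - ((φ (hat 0 1) : ℚ) : ℝ) := by
        intro v hv
        have h1 := hφ v hv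
        have h2 : ((φ (hat v 1) : ℚ) : ℝ) ≤ 0 := by exact_mod_cast h1
        rw [hφhat] at h2
        push_cast at h2
        simp only [hf]
        linarith
      intro y hy
      rcases hy with hy | ⟨v, hv, rfl⟩
      · have h1 := hP 0 (mem_insert_self _ _)
        have h0 : y = (fun i => (((0 : Fin d → ℤ) i : ℤ) : ℝ)) := by
          rw [hy]; funext i; simp
        rw [h0]
        exact h1
      · exact hP v (mem_insert_of_mem (mem_coe.1 hv))
    have h1 : f y ≤ - ((φ (hat 0 1) : ℚ) : ℝ) := hH hy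
    have h2 : ((φ (hat x t) : ℚ) : ℝ) ≤ 0 := by
      rw [hφhat]
      have h3 : ∀ i, (x i : ℝ) = t * y i := by
        intro i
        have := congrFun hxy i
        simp only [Pi.smul_apply, smul_eq_mul] at this
        exact this.symm
      have h4 : ∑ i, (x i : ℝ) * ((φ (hat (Pi.single i 1 : Fin d → ℤ) 0) : ℚ) : ℝ) = t * f y := by
        simp only [hf, Finset.mul_sum]
        refine Finset.sum_congr rfl fun i _ => ?_
        rw [h3 i]; ring
      rw [h4]
      have ht' : (0 : ℝ) < t := by exact_mod_cast ht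
      push_cast
      nlinarith
    exact_mod_cast h2
  · intro hx
    obtain ⟨c, hc, hxc⟩ := hrep t x hx
    have hsum := sum_coeff _ c id x t hxc
    have ht' : (0 : ℝ) < t := by exact_mod_cast ht
    rw [Set.mem_smul_set]
    refine ⟨∑ v ∈ (insert 0 S : Finset (Fin d → ℤ)),
      ((c v : ℝ) / t) • (fun i => (v i : ℝ) : Fin d → ℝ), ?_, ?_⟩
    · apply (convex_convexHull ℝ _).sum_mem
      · intro v _
        have : (0 : ℝ) ≤ c v := by exact_mod_cast hc v
        positivity
      · rw [← Finset.sum_div]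
        have : (∑ v ∈ (insert 0 S : Finset (Fin d → ℤ)), (c v : ℝ)) = t := by
          have h1 : (((∑ v ∈ (insert 0 S : Finset (Fin d → ℤ)), c v : ℚ)) : ℝ) = ((t : ℤ) : ℚ) := by
            rw [hsum]
          push_cast at h1
          exact h1
        rw [this, div_self ht'.ne']
      · intro v hv
        apply subset_convexHull
        rcases mem_insert.1 hv with rfl | hv
        · left
          funext i
          simp
        · right
          exact ⟨v, hv, rfl⟩
    · funext i
      simp only [Pi.smul_apply, Finset.sum_apply, smul_eq_mul, Finset.mul_sum]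
      have h1 := congrFun (congrArg Prod.fst hxc) i
      simp only [hat, Prod.fst_sum, Prod.smul_fst, Finset.sum_apply, Pi.smul_apply, pt,
        smul_eq_mul] at h1
      have h2 : (x i : ℝ) = ∑ v ∈ (insert 0 S : Finset (Fin d → ℤ)), (c v : ℝ) * (v i : ℝ) := by
        have h3 : (((x i : ℚ)) : ℝ) =
            ((∑ v ∈ (insert 0 S : Finset (Fin d → ℤ)), c v * (v i : ℚ) : ℚ) : ℝ) := by rw [h1]
        push_cast at h3
        exact h3
      rw [h2]
      refine Finset.sum_congr rfl fun v _ => ?_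
      field_simp

theorem main (d : ℕ) (S : Finset (Fin d → ℤ))
    (hS : AddSubgroup.closure (S : Set (Fin d → ℤ)) = ⊤) :
    Set.Infinite {t : ℕ | ∀ B : Set (Fin d → ℤ),
      B = {x : Fin d → ℤ | (fun i => (x i : ℝ)) ∈
            (t : ℝ) • convexHull ℝ (insert (0 : Fin d → ℝ)
              ((fun u : Fin d → ℤ => fun i => (u i : ℝ)) '' (S : Set (Fin d → ℤ))))} →
      ∀ A : Finset (Fin d → ℤ), A.card = B.ncard →
        ((B + (S : Set (Fin d → ℤ))) \ B).ncard ≤ ((A + S) \ A).card} := by
  rw [← Nat.frequently_atTop_iff_infinite]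
  apply Eventually.frequently
  obtain ⟨_, _, _, hfin, _, _, hrep⟩ := geometry S hS
  have hBU : ∀ t : ℕ, 0 < t → {x : Fin d → ℤ | (fun i => (x i : ℝ)) ∈
            (t : ℝ) • convexHull ℝ (insert (0 : Fin d → ℝ)
              ((fun u : Fin d → ℤ => fun i => (u i : ℝ)) '' (S : Set (Fin d → ℤ))))} =
      Us (insert 0 S) t := by
    intro t ht
    ext x
    exact mem_Us_iff S hrep t ht x
  have hmono : ∀ t, Us (insert 0 S) t ⊆ Us (insert 0 S) (t + 1) := by
    intro t x hx
    have := Us_add hx (mem_insert_self 0 S)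
    rwa [add_zero] at this
  have hbdU : ∀ t, ((Us (insert 0 S) t + (S : Set (Fin d → ℤ))) \ Us (insert 0 S) t).ncard +
      (Us (insert 0 S) t).ncard ≤ (Us (insert 0 S) (t + 1)).ncard := by
    intro t
    have h1 : (Us (insert 0 S) t + (S : Set (Fin d → ℤ))) \ Us (insert 0 S) t ⊆
        Us (insert 0 S) (t + 1) \ Us (insert 0 S) t := by
      apply Set.sdiff_subset_sdiff_left
      rintro _ ⟨x, hx, v, hv, rfl⟩
      exact Us_add hx (mem_insert_of_mem (mem_coe.1 hv))
    have h2 := Set.ncard_le_ncard h1 ((hfin (t + 1)).subset Set.sdiff_subset)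
    have h3 := Set.ncard_sdiff_add_ncard_of_subset (hmono t) (hfin (t + 1))
    omega
  cases d with
  | zero =>
    filter_upwards [eventually_gt_atTop 0] with t ht
    intro B hB A hA
    rw [hBU t ht] at hB
    have h0 : (Us (insert 0 S) t) = Set.univ := by
      have h1 : (0 : Fin 0 → ℤ) ∈ Us (insert 0 S) t := by
        have h2 : ∀ s : ℕ, (0 : Fin 0 → ℤ) ∈ Us (insert 0 S) s := by
          intro s
          induction s with
          | zero =>
            intro φ _
            have : hat (0 : Fin 0 → ℤ) ((0 : ℕ) : ℤ) = 0 := hat_zero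
            rw [this, map_zero]
          | succ s ih => exact hmono s ih
        exact h2 t
      apply Set.eq_univ_of_forall
      intro x
      rw [Subsingleton.elim x 0]
      exact h1
    rw [hB, h0]
    simp
  | succ r =>
    filter_upwards [eventually_gt_atTop 0, eventually_bound r S hS] with t ht hbound
    intro B hB A hA
    rw [hBU t ht] at hB
    subst hB
    have h1 := hbound A hA
    have h2 := hbdU t
    have h3 : ((A + S) \ A).card = bd S A := rfl
    rw [h3]
    omega

end

end Pool.Agent.H35
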