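import Mathlib

namespace Pool.Agent.H35

open Classical in
/-- indicator mod 2 -/
noncomputable def ind {X : Type*} (F : Finset X) (x : X) : ZMod 2 := if x ∈ F then 1 else 0

/-- twisted permutation of `X × ZMod 2` -/
noncomputable def tw {X : Type*} (F : Finset X) (ρ : Equiv.Perm X) : Equiv.Perm (X × ZMod 2) where
  toFun p := (ρ p.1, p.2 + ind F p.1 + ind F (ρ p.1))
  invFun p := (ρ⁻¹ p.1, p.2 + ind F (ρ⁻¹ p.1) + ind F p.1)
  left_inv p := by
    rcases p with ⟨x, e⟩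
    have h : ∀ a b c : ZMod 2, a + b + c + b + c = a := by decide
    have h' : ρ⁻¹ (ρ x) = x := ρ.symm_apply_apply x
    simp only [h', Prod.mk.injEq, true_and]
    exact h _ _ _
  right_inv p := by
    rcases p with ⟨x, e⟩
    have h : ∀ a b c : ZMod 2, a + b + c + b + c = a := by decide
    have h' : ρ (ρ⁻¹ x) = x := ρ.apply_symm_apply x
    simp only [h', Prod.mk.injEq, true_and]
    exact h _ _ _

section
variable {X ι : Type*} (F : ι → Finset X) (ρ : ι → Equiv.Perm X)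

/-- the two lifted actions -/
noncomputable def Phi : FreeGroup ι →* Equiv.Perm X := FreeGroup.lift ρ

/-- the twisted lifted action -/
noncomputable def PhiT : FreeGroup ι →* Equiv.Perm (X × ZMod 2) :=
  FreeGroup.lift (fun ξ => tw (F ξ) (ρ ξ))

lemma PhiT_spec (w : FreeGroup ι) :
    ∀ p : X × ZMod 2, PhiT F ρ w p = (Phi ρ w p.1, p.2 + (PhiT F ρ w (p.1, 0)).2) := by
  induction w using FreeGroup.induction_on with
  | C1 => intro p; simp
  | of ξ =>
    intro p
    simp only [PhiT, Phi, FreeGroup.lift_apply_of, tw, Equiv.coe_fn_mk]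
    ext
    · rfl
    · simp only [zero_add]; ring
  | inv_of ξ _ =>
    intro p
    simp only [PhiT, Phi, map_inv, FreeGroup.lift_apply_of]
    change ((ρ ξ)⁻¹ p.1, p.2 + ind (F ξ) ((ρ ξ)⁻¹ p.1) + ind (F ξ) p.1) =
      ((ρ ξ)⁻¹ p.1, p.2 + (0 + ind (F ξ) ((ρ ξ)⁻¹ p.1) + ind (F ξ) p.1))
    ext
    · rfl
    · simp only [zero_add]; ring
  | mul v w hv hw =>
    intro p
    simp only [map_mul, Equiv.Perm.coe_mul, Function.comp_apply]
    rw [hw p, hv, hw (p.1, 0)]
    rw [hv (Phi ρ w p.1, (0 : ZMod 2) + (PhiT F ρ w (p.1, 0)).2)]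
    ext
    · rfl
    · simp only [zero_add]; ring

/-- The main colouring lemma. -/
theorem exists_coloring
    (h : ∀ w : FreeGroup ι, w ≠ 1 → ∀ x, Phi ρ w x = x → ∀ ξ, ρ ξ x = x) :
    ∃ c : X → ZMod 2, ∀ ξ x, c (ρ ξ x) + ind (F ξ) (ρ ξ x) = c x + ind (F ξ) x := by
  classical
  -- orbit representatives
  let r : Setoid X :=
    { r := fun x y => ∃ w : FreeGroup ι, Phi ρ w x = y
      iseqv := ⟨fun x => ⟨1, by simp⟩, fun {x y} ⟨w, hw⟩ => ⟨w⁻¹, by simp [← hw]⟩,
        fun {x y z} ⟨w, hw⟩ ⟨v, hv⟩ => ⟨v * w, by simp [hw, hv]⟩⟩ }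
  let rep : X → X := fun x => (Quotient.mk r x).out
  have hrep : ∀ x, ∃ w : FreeGroup ι, Phi ρ w (rep x) = x := fun x => Quotient.mk_out (s := r) x
  choose W hW using hrep
  have hrep_eq : ∀ (ξ : ι) (x : X), rep (ρ ξ x) = rep x := by
    intro ξ x
    have : Quotient.mk r (ρ ξ x) = Quotient.mk r x := by
      apply Quotient.sound
      change ∃ w : FreeGroup ι, Phi ρ w (ρ ξ x) = x
      exact ⟨(FreeGroup.of ξ)⁻¹, by simp [Phi]⟩
    simp only [rep, this]
  let β : FreeGroup ι → X → ZMod 2 := fun w x => (PhiT F ρ w (x, 0)).2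
  have hβ : ∀ v w x, β (v * w) x = β w x + β v (Phi ρ w x) := by
    intro v w x
    simp only [β, map_mul, Equiv.Perm.coe_mul, Function.comp_apply]
    rw [PhiT_spec F ρ w (x, 0), PhiT_spec F ρ v]
  refine ⟨fun x => if (∀ ξ, ρ ξ x = x) then 0 else β (W x) (rep x), fun ξ x => ?_⟩
  by_cases hx : ∀ ξ, ρ ξ x = x
  · rw [hx ξ]
  · -- fixed points are invariant
    have key : ∀ (w : FreeGroup ι) (y : X), (∀ ξ, ρ ξ y = y) → Phi ρ w y = y := by
      intro w y hy
      induction w using FreeGroup.induction_on with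
      | C1 => simp
      | of ξ => simp [Phi, hy ξ]
      | inv_of ξ _ =>
        simp only [Phi, map_inv, FreeGroup.lift_apply_of]
        rw [Equiv.Perm.inv_eq_iff_eq, hy ξ]
      | mul v w hv hw => simp [hv, hw]
    have hnot : ∀ (w : FreeGroup ι) (y : X), Phi ρ w y = x → ¬ (∀ ξ, ρ ξ y = y) := by
      intro w y hwy hy
      rw [key w y hy] at hwy
      exact hx (hwy ▸ hy)
    have hy : ¬ (∀ ζ, ρ ζ (ρ ξ x) = ρ ξ x) := by
      apply hnot (FreeGroup.of ξ)⁻¹ (ρ ξ x)
      simp [Phi]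
    simp only [if_neg hx, if_neg hy, hrep_eq]
    have hW1 : Phi ρ (W (ρ ξ x)) (rep x) = ρ ξ x := by
      have := hW (ρ ξ x)
      rwa [hrep_eq] at this
    have hWeq : W (ρ ξ x) = FreeGroup.of ξ * W x := by
      by_contra hne
      have hne' : (W (ρ ξ x))⁻¹ * (FreeGroup.of ξ * W x) ≠ 1 := by
        intro h1
        exact hne (inv_mul_eq_one.1 h1)
      have hfix : Phi ρ ((W (ρ ξ x))⁻¹ * (FreeGroup.of ξ * W x)) (rep x) = rep x := by
        simp only [map_mul, Equiv.Perm.coe_mul, Function.comp_apply, hW x, map_inv]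
        rw [Equiv.Perm.inv_eq_iff_eq, hW1]
        simp [Phi]
      exact hnot (W x) (rep x) (hW x) (h _ hne' _ hfix)
    rw [hWeq, hβ, hW x]
    have h3 : β (FreeGroup.of ξ) x = ind (F ξ) x + ind (F ξ) (ρ ξ x) := by
      simp [β, PhiT, tw]
    rw [h3]
    have h4 : ∀ a b c : ZMod 2, a + (b + c) + c = a + b := by decide
    exact h4 _ _ _

end

end Pool.Agent.H35
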