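import Mathlib

namespace Pool.Agent.H35

open Module

/-- An isometry of `ℝ^n` (`n ≥ 2`) preserving the set `{0} ∪ {√(n+k) e_k}` is the identity. -/
theorem isometry_eq_one {n : ℕ} (hn : 2 ≤ n) (g : EuclideanSpace ℝ (Fin n) ≃ᵢ EuclideanSpace ℝ (Fin n))
    (S : Set (EuclideanSpace ℝ (Fin n)))
    (hS : S = {x | x = 0 ∨ ∃ k : Fin n, x = EuclideanSpace.single k (Real.sqrt (n + k))})
    (hg : ∀ x, x ∈ S → g x ∈ S) : g = 1 := by
  set p : Fin n → EuclideanSpace ℝ (Fin n) :=
    fun k => EuclideanSpace.single k (Real.sqrt (n + k)) with hp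
  have hnpos : (0 : ℝ) < n := by exact_mod_cast (by omega : 0 < n)
  have hnorm : ∀ k, ‖p k‖ ^ 2 = n + k := by
    intro k
    simp only [hp, PiLp.norm_single, Real.norm_eq_abs, sq_abs]
    rw [Real.sq_sqrt (by positivity)]
  have hdist0 : ∀ k, dist (p k) 0 ^ 2 = n + k := by
    intro k
    rw [dist_zero_right, hnorm]
  have hdist : ∀ k l, k ≠ l → dist (p k) (p l) ^ 2 = (n + k) + (n + l) := by
    intro k l hkl
    rw [dist_eq_norm, @norm_sub_sq ℝ, hnorm, hnorm]
    have : inner ℝ (p k) (p l) = 0 := by
      simp [hp, EuclideanSpace.inner_single_left, hkl]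
    rw [this]
    simp
  have hlt : ∀ k : Fin n, ((k : ℕ) : ℝ) < n := fun k => by exact_mod_cast k.2
  have h0S : (0 : EuclideanSpace ℝ (Fin n)) ∈ S := by rw [hS]; left; rfl
  have hpS : ∀ k, p k ∈ S := fun k => by rw [hS]; right; exact ⟨k, rfl⟩
  -- g 0 = 0
  have hg0 : g 0 = 0 := by
    have h := hg 0 h0S
    rw [hS] at h
    rcases h with h | ⟨k, hk⟩
    · exact h
    · exfalso
      -- choose j ≠ k
      obtain ⟨j, hj⟩ : ∃ j : Fin n, j ≠ k := by
        have : Nontrivial (Fin n) := Fin.nontrivial_iff_two_le.2 hn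
        exact exists_ne k
      have hgj := hg (p j) (hpS j)
      have hd : dist (g (p j)) (g 0) ^ 2 = n + j := by rw [g.isometry.dist_eq, hdist0]
      rw [hk] at hd
      change dist (g (p j)) (p k) ^ 2 = n + j at hd
      rw [hS] at hgj
      rcases hgj with h | ⟨l, hl⟩
      · rw [h, dist_comm, hdist0] at hd
        have : ((k : ℕ) : ℝ) = (j : ℕ) := by linarith
        exact hj (Fin.ext (by exact_mod_cast this.symm))
      · rw [hl] at hd
        change dist (p l) (p k) ^ 2 = n + j at hd
        by_cases hlk : l = k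
        · rw [hlk, dist_self] at hd
          have := hnpos
          have hj0 : (0 : ℝ) ≤ (j : ℕ) := by positivity
          nlinarith
        · rw [hdist l k hlk] at hd
          have h1 := hlt j
          have h2 : (0 : ℝ) ≤ (l : ℕ) := by positivity
          have h3 : (0 : ℝ) ≤ (k : ℕ) := by positivity
          linarith
  have hgp : ∀ k, g (p k) = p k := by
    intro k
    have h := hg (p k) (hpS k)
    have hd : dist (g (p k)) (g 0) ^ 2 = n + k := by rw [g.isometry.dist_eq, hdist0]
    rw [hg0] at hd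
    rw [hS] at h
    rcases h with h | ⟨l, hl⟩
    · rw [h, dist_self] at hd
      have hj0 : (0 : ℝ) ≤ (k : ℕ) := by positivity
      nlinarith
    · rw [hl] at hd
      change dist (p l) 0 ^ 2 = n + k at hd
      rw [hdist0] at hd
      have : ((l : ℕ) : ℝ) = (k : ℕ) := by linarith
      have hlk : l = k := Fin.ext (by exact_mod_cast this)
      rw [hl, hlk]
  -- linear
  let L := g.toRealLinearIsometryEquivOfMapZero hg0
  have hL : ∀ x, L x = g x := fun x => rfl
  ext1 x
  rw [← hL, IsometryEquiv.coe_one, id]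
  have hlin : L.toLinearEquiv.toLinearMap = LinearMap.id := by
    apply (EuclideanSpace.basisFun (Fin n) ℝ).toBasis.ext
    intro k
    have hk : p k = Real.sqrt (n + k) • (EuclideanSpace.single k (1 : ℝ)) := by
      simp only [hp]
      ext i
      by_cases h : i = k <;> simp [h]
    have hs : Real.sqrt (n + k) ≠ 0 := by
      rw [Real.sqrt_ne_zero']
      positivity
    have h1 : L (p k) = p k := by rw [hL, hgp]
    rw [hk, map_smul] at h1
    have h2 := smul_right_injective _ hs h1
    simpa using h2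
  exact LinearMap.congr_fun hlin x

end Pool.Agent.H35
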