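import Pool.Agent.H35.Geo

namespace Pool.Agent.H35

open Module Finset Filter

section
variable {d : ℕ}

lemma span_pt (S : Finset (Fin d → ℤ)) (hS : AddSubgroup.closure (S : Set (Fin d → ℤ)) = ⊤) :
    Submodule.span ℚ (pt '' ((insert 0 S : Finset (Fin d → ℤ)) : Set (Fin d → ℤ))) = ⊤ := by
  set U := Submodule.span ℚ (pt '' ((insert 0 S : Finset (Fin d → ℤ)) : Set (Fin d → ℤ))) with hU
  have h0 : pt (0 : Fin d → ℤ) ∈ U := Submodule.subset_span ⟨0, by simp, rfl⟩
  have h1 : ∀ v : Fin d → ℤ, hat v 0 ∈ U := by
    intro v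
    have hv : v ∈ AddSubgroup.closure (S : Set (Fin d → ℤ)) := by rw [hS]; trivial
    induction hv using AddSubgroup.closure_induction with
    | mem b hb =>
      have hb' : pt b ∈ U := Submodule.subset_span ⟨b, by simp [mem_coe.1 hb], rfl⟩
      have := hat_sub b 0 1 1
      rw [sub_zero, sub_self] at this
      rw [this]
      exact U.sub_mem hb' h0
    | zero => rw [hat_zero]; exact U.zero_mem
    | add x y _ _ hx hy =>
      have := hat_add x y 0 0
      rw [add_zero] at this
      rw [this]
      exact U.add_mem hx hy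
    | neg x _ hx =>
      have := hat_sub 0 x 0 0
      rw [zero_sub, sub_zero, hat_zero, zero_sub] at this
      rw [this]
      exact U.neg_mem hx
  rw [eq_top_iff]
  rintro ⟨w, s⟩ -
  have h2 : ((w, s) : (Fin d → ℚ) × ℚ) = ∑ i, w i • hat (Pi.single i 1) 0 +
      s • pt (0 : Fin d → ℤ) := by
    ext i
    · simp only [Prod.fst_add, Prod.fst_sum, Prod.smul_fst, Pi.add_apply, Finset.sum_apply,
        Pi.smul_apply, hat, pt, smul_eq_mul]
      rw [Finset.sum_eq_single i]
      · simp
      · intro j _ hj
        simp [hj.symm]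
      · simp
    · simp [hat, pt, Prod.snd_sum]
  rw [h2]
  exact U.add_mem (U.sum_mem fun i _ => U.smul_mem _ (h1 _)) (U.smul_mem _ h0)

/-- points with positive coordinates on `F`, and coordinates at most one outside `T` -/
def Gs (F T : Finset (Fin d → ℤ)) (t : ℕ) : Set (Fin d → ℤ) :=
  {x | ∃ c : (Fin d → ℤ) → ℚ, (∀ v ∈ F, 0 < c v) ∧ (∀ v ∈ F, v ∉ T → c v ≤ 1) ∧
    hat x t = ∑ v ∈ F, c v • pt v}

lemma Gs_mono (F T T' : Finset (Fin d → ℤ)) (h : T ⊆ T') (t : ℕ) : Gs F T t ⊆ Gs F T' t := by
  rintro x ⟨c, h1, h2, h3⟩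
  exact ⟨c, h1, fun v hv hv' => h2 v hv (fun h' => hv' (h h')), h3⟩

lemma Gs_rec (F T : Finset (Fin d → ℤ)) (hF : LinearIndepOn ℚ pt (F : Set (Fin d → ℤ)))
    (q : Fin d → ℤ) (hq : q ∉ T) (hqF : q ∈ F) (hfin : ∀ t, (Gs F F t).Finite)
    (hT : insert q T ⊆ F) (t : ℕ) :
    (Gs F (insert q T) (t + 1)).ncard = (Gs F (insert q T) t).ncard + (Gs F T (t + 1)).ncard := by
  classical
  have hTF : T ⊆ F := (subset_insert _ _).trans hT
  rw [linearIndepOn_finset_iff] at hF
  have huniq : ∀ (c c' : (Fin d → ℤ) → ℚ), ∑ v ∈ F, c v • pt v = ∑ v ∈ F, c' v • pt v →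
      ∀ v ∈ F, c v = c' v := by
    intro c c' h v hv
    have := hF (fun v => c v - c' v) (by
      simp only [sub_smul, Finset.sum_sub_distrib, h, sub_self]) v hv
    linarith
  have himg : ∀ x, x ∈ (fun x => x + q) '' (Gs F (insert q T) t) ↔
      ∃ c : (Fin d → ℤ) → ℚ, (∀ v ∈ F, 0 < c v) ∧ (∀ v ∈ F, v ∉ insert q T → c v ≤ 1) ∧
        1 < c q ∧ hat x (t + 1 : ℕ) = ∑ v ∈ F, c v • pt v := by
    intro x
    constructor
    · rintro ⟨y, ⟨c, h1, h2, h3⟩, rfl⟩
      refine ⟨fun v => if v = q then c v + 1 else c v, ?_, ?_, ?_, ?_⟩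
      · intro v hv
        have := h1 v hv
        simp only
        split_ifs <;> linarith
      · intro v hv hvT
        have hvq : v ≠ q := fun h => hvT (by simp [h])
        simp only [hvq, if_false]
        exact h2 v hv hvT
      · have := h1 q hqF
        simp only [if_true]
        linarith
      · have h4 := hat_add y q t 1
        push_cast at h4 ⊢
        rw [h4, h3]
        have h5 : ∀ v, (if v = q then c v + 1 else c v) = c v + (if v = q then 1 else 0) := by
          intro v; split_ifs <;> ring
        simp only [h5, add_smul, Finset.sum_add_distrib, ite_smul, one_smul, zero_smul]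
        rw [Finset.sum_ite_eq' F q, if_pos hqF]
        rfl
    · rintro ⟨c, h1, h2, h3, h4⟩
      refine ⟨x - q, ⟨fun v => if v = q then c v - 1 else c v, ?_, ?_, ?_⟩, by simp⟩
      · intro v hv
        have := h1 v hv
        simp only
        split_ifs with h
        · subst h; linarith
        · exact this
      · intro v hv hvT
        have hvq : v ≠ q := fun h => hvT (by simp [h])
        simp only [hvq, if_false]
        exact h2 v hv hvT
      · have h5 := hat_sub x q (t + 1 : ℕ) 1
        push_cast at h4 h5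
        rw [add_sub_cancel_right] at h5
        rw [h5, h4]
        have h6 : ∀ v, (if v = q then c v - 1 else c v) = c v - (if v = q then 1 else 0) := by
          intro v; split_ifs <;> ring
        simp only [h6, sub_smul, Finset.sum_sub_distrib, ite_smul, one_smul, zero_smul]
        rw [Finset.sum_ite_eq' F q, if_pos hqF]
        rfl
  have hunion : Gs F (insert q T) (t + 1) =
      (fun x => x + q) '' (Gs F (insert q T) t) ∪ Gs F T (t + 1) := by
    ext x
    rw [Set.mem_union, himg]
    constructor
    · rintro ⟨c, h1, h2, h3⟩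
      rcases lt_or_ge 1 (c q) with h | h
      · left; exact ⟨c, h1, h2, h, h3⟩
      · right
        refine ⟨c, h1, fun v hv hvT => ?_, h3⟩
        by_cases hvq : v = q
        · subst hvq; exact h
        · exact h2 v hv (by simp [hvq, hvT])
    · rintro (⟨c, h1, h2, h3, h4⟩ | hx)
      · exact ⟨c, h1, h2, h4⟩
      · exact Gs_mono F T (insert q T) (subset_insert _ _) _ hx
  have hdisj : Disjoint ((fun x => x + q) '' (Gs F (insert q T) t)) (Gs F T (t + 1)) := by
    rw [Set.disjoint_left]
    intro x hx hx'
    rw [himg] at hx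
    obtain ⟨c, _, _, h3, h4⟩ := hx
    obtain ⟨c', _, h6, h7⟩ := hx'
    have h8 := huniq c c' (h4.symm.trans h7) q hqF
    have h9 := h6 q hqF hq
    linarith
  have hf1 : (Gs F (insert q T) t).Finite := (hfin t).subset (Gs_mono F _ F hT t)
  have hf2 : (Gs F T (t + 1)).Finite := (hfin (t + 1)).subset (Gs_mono F _ F hTF (t + 1))
  rw [hunion, Set.ncard_union_eq hdisj (hf1.image _) hf2, Set.ncard_image_of_injective]
  exact fun a b h => add_right_cancel h

lemma hasLead_Gs (F : Finset (Fin d → ℤ)) (hF : LinearIndepOn ℚ pt (F : Set (Fin d → ℤ)))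
    (hfin : ∀ t, (Gs F F t).Finite) (T : Finset (Fin d → ℤ)) : T ⊆ F →
    HasLead T.card 0 (fun t => ((Gs F T t).ncard : ℤ)) := by
  classical
  induction T using Finset.induction_on with
  | empty =>
    intro _
    rw [card_empty]
    change ∀ᶠ t in atTop, _
    filter_upwards [eventually_gt_atTop F.card] with t ht
    have : Gs F ∅ t = ∅ := by
      rw [Set.eq_empty_iff_forall_notMem]
      rintro x ⟨c, _, h2, h3⟩
      have h4 := sum_coeff F c id x t h3
      have h5 : ∑ v ∈ F, c v ≤ ∑ v ∈ F, 1 :=
        Finset.sum_le_sum fun v hv => h2 v hv (by simp)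
      rw [h4] at h5
      simp only [sum_const, nsmul_eq_mul, mul_one] at h5
      have : t ≤ F.card := by exact_mod_cast h5
      omega
    rw [this]
    simp
  | insert q T hq ih =>
    intro hT
    rw [card_insert_of_notMem hq]
    change HasLead T.card 0 (fd _)
    have h1 := (ih ((subset_insert _ _).trans hT)).shift
    refine h1.congr (Eventually.of_forall fun t => ?_)
    simp only [fd]
    rw [Gs_rec F T hF q hq (hT (mem_insert_self _ _)) hfin hT t]
    push_cast
    ring

lemma hasLead_zero (r : ℕ) : HasLead r 0 (fun _ => 0) := by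
  induction r with
  | zero => exact Eventually.of_forall fun _ => rfl
  | succ r ih =>
    change HasLead r 0 (fd _)
    refine ih.congr (Eventually.of_forall fun t => ?_)
    simp [fd]

lemma hasLead_sum {ι : Type*} (s : Finset ι) (r : ℕ) (f : ι → ℕ → ℤ)
    (h : ∀ i ∈ s, HasLead r 0 (f i)) : HasLead r 0 (fun t => ∑ i ∈ s, f i t) := by
  classical
  induction s using Finset.induction_on with
  | empty => simpa using hasLead_zero r
  | insert i s hi ih =>
    have h1 := (h i (mem_insert_self _ _)).add (ih fun j hj => h j (mem_insert_of_mem hj))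
    rw [add_zero] at h1
    refine h1.congr (Eventually.of_forall fun t => ?_)
    rw [Finset.sum_insert hi]

/-- the lattice points of the dilated hull, tested by functionals -/
def Us (P : Finset (Fin d → ℤ)) (t : ℕ) : Set (Fin d → ℤ) := {x | InCone P pt (hat x t)}

end

end Pool.Agent.H35
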