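import Pool.Agent.H35.Tau

namespace Pool.Agent.H35

open Filter

/-- forward difference -/
def fd (f : ℕ → ℤ) : ℕ → ℤ := fun t => f (t + 1) - f t

/-- `f` is eventually a polynomial of degree at most `r` whose `r`-th difference is `γ`. -/
def HasLead : ℕ → ℤ → (ℕ → ℤ) → Prop
  | 0, γ, f => ∀ᶠ t in atTop, f t = γ
  | (r + 1), γ, f => HasLead r γ (fd f)

lemma eventually_shift {p : ℕ → Prop} (h : ∀ᶠ t in atTop, p t) : ∀ᶠ t in atTop, p (t + 1) :=
  (tendsto_add_atTop_nat 1).eventually h

lemma HasLead.congr {r : ℕ} : ∀ {γ : ℤ} {f g : ℕ → ℤ}, HasLead r γ f →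
    (∀ᶠ t in atTop, f t = g t) → HasLead r γ g := by
  induction r with
  | zero =>
    intro γ f g hf hfg
    filter_upwards [hf, hfg] with t h1 h2
    rw [← h2, h1]
  | succ r ih =>
    intro γ f g hf hfg
    refine ih (f := fd f) hf ?_
    filter_upwards [hfg, eventually_shift hfg] with t h1 h2
    simp only [fd, h1, h2]

lemma HasLead.add {r : ℕ} : ∀ {γ γ' : ℤ} {f g : ℕ → ℤ}, HasLead r γ f → HasLead r γ' g →
    HasLead r (γ + γ') (fun t => f t + g t) := by
  induction r with
  | zero =>
    intro γ γ' f g hf hg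
    filter_upwards [hf, hg] with t h1 h2
    rw [h1, h2]
  | succ r ih =>
    intro γ γ' f g hf hg
    have := ih (f := fd f) (g := fd g) hf hg
    change HasLead r _ (fd _)
    refine HasLead.congr this (Eventually.of_forall fun t => ?_)
    simp only [fd]; ring

lemma HasLead.neg {r : ℕ} : ∀ {γ : ℤ} {f : ℕ → ℤ}, HasLead r γ f →
    HasLead r (-γ) (fun t => -f t) := by
  induction r with
  | zero =>
    intro γ f hf
    filter_upwards [hf] with t h1
    rw [h1]
  | succ r ih =>
    intro γ f hf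
    have := ih (f := fd f) hf
    change HasLead r _ (fd _)
    refine HasLead.congr this (Eventually.of_forall fun t => ?_)
    simp only [fd]; ring

lemma HasLead.sub {r : ℕ} {γ γ' : ℤ} {f g : ℕ → ℤ} (hf : HasLead r γ f) (hg : HasLead r γ' g) :
    HasLead r (γ - γ') (fun t => f t - g t) := by
  have := hf.add hg.neg
  rw [← sub_eq_add_neg] at this
  refine this.congr (Eventually.of_forall fun t => ?_)
  ring

lemma HasLead.const_mul {r : ℕ} (k : ℤ) : ∀ {γ : ℤ} {f : ℕ → ℤ}, HasLead r γ f →
    HasLead r (k * γ) (fun t => k * f t) := by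
  induction r with
  | zero =>
    intro γ f hf
    filter_upwards [hf] with t h1
    rw [h1]
  | succ r ih =>
    intro γ f hf
    have := ih (f := fd f) hf
    change HasLead r _ (fd _)
    refine HasLead.congr this (Eventually.of_forall fun t => ?_)
    simp only [fd]; ring

lemma HasLead.shift {r : ℕ} : ∀ {γ : ℤ} {f : ℕ → ℤ}, HasLead r γ f →
    HasLead r γ (fun t => f (t + 1)) := by
  induction r with
  | zero =>
    intro γ f hf
    exact eventually_shift hf
  | succ r ih =>
    intro γ f hf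
    exact ih (f := fd f) hf

lemma HasLead.raise {r : ℕ} : ∀ {γ : ℤ} {f : ℕ → ℤ}, HasLead r γ f → HasLead (r + 1) 0 f := by
  induction r with
  | zero =>
    intro γ f hf
    change ∀ᶠ t in atTop, fd f t = 0
    have h : ∀ᶠ t in atTop, f t = γ := hf
    filter_upwards [h, eventually_shift h] with t h1 h2
    simp only [fd, h1, h2, sub_self]
  | succ r ih =>
    intro γ f hf
    exact ih (f := fd f) hf

lemma eventually_const_of_fd {f : ℕ → ℤ} (h : ∀ᶠ t in atTop, fd f t = 0) :
    ∃ γ, ∀ᶠ t in atTop, f t = γ := by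
  obtain ⟨N, hN⟩ := eventually_atTop.1 h
  refine ⟨f N, eventually_atTop.2 ⟨N, fun t ht => ?_⟩⟩
  induction t, ht using Nat.le_induction with
  | base => rfl
  | succ t ht ih =>
    have := hN t ht
    simp only [fd] at this
    linarith

lemma HasLead.lower {r : ℕ} : ∀ {f : ℕ → ℤ}, HasLead (r + 1) 0 f → ∃ γ, HasLead r γ f := by
  induction r with
  | zero =>
    intro f hf
    exact eventually_const_of_fd hf
  | succ r ih =>
    intro f hf
    exact ih (f := fd f) hf

lemma HasLead.raise_le {r s : ℕ} {f : ℕ → ℤ} (h : HasLead r 0 f) (hrs : r ≤ s) :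
    HasLead s 0 f := by
  induction s, hrs using Nat.le_induction with
  | base => exact h
  | succ s _ ih => exact ih.raise

lemma tendsto_of_fd_pos {f : ℕ → ℤ} (h : ∀ᶠ t in atTop, 0 < fd f t) :
    ∀ᶠ t in atTop, 0 < f t := by
  obtain ⟨N, hN⟩ := eventually_atTop.1 h
  have key : ∀ k : ℕ, f N + k ≤ f (N + k) := by
    intro k
    induction k with
    | zero => simp
    | succ k ih =>
      have := hN (N + k) (by omega)
      simp only [fd] at this
      push_cast
      rw [show N + (k + 1) = N + k + 1 by ring]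
      linarith
  refine eventually_atTop.2 ⟨N + (f N).natAbs + 1, fun t ht => ?_⟩
  have := key (t - N)
  rw [show N + (t - N) = t by omega] at this
  omega

lemma HasLead.eventually_pos {r : ℕ} : ∀ {γ : ℤ} {f : ℕ → ℤ}, HasLead r γ f → 0 < γ →
    ∀ᶠ t in atTop, 0 < f t := by
  induction r with
  | zero =>
    intro γ f hf hγ
    have h : ∀ᶠ t in atTop, f t = γ := hf
    filter_upwards [h] with t h1
    rw [h1]; exact hγ
  | succ r ih =>
    intro γ f hf hγ
    exact tendsto_of_fd_pos (ih (f := fd f) hf hγ)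

lemma hasLead_L (r : ℕ) : ∀ (K j : ℕ), HasLead r 1 (fun t => (L r (t + K - j) : ℤ)) := by
  induction r with
  | zero =>
    intro K j
    exact Eventually.of_forall fun t => by simp [L_zero_left]
  | succ r ih =>
    intro K j
    change HasLead r 1 (fd _)
    refine (ih (K + 1) j).congr ?_
    filter_upwards [eventually_ge_atTop j] with t ht
    simp only [fd]
    rw [show t + 1 + K - j = (t + K - j) + 1 by omega, L_succ_succ,
      show t + (K + 1) - j = t + K - j + 1 by omega]
    push_cast; ring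

lemma hasLead_Bs (r : ℕ) (K j : ℕ) : HasLead (r + 1) 1 (fun t => (Bs r (t + K - j) : ℤ)) := by
  change HasLead r 1 (fd _)
  refine (hasLead_L r K j).congr ?_
  filter_upwards [eventually_ge_atTop j] with t ht
  simp only [fd]
  rw [show t + 1 + K - j = (t + K - j) + 1 by omega, Bs_succ]
  push_cast; ring

/-- concave envelope -/
def Wf (r a m : ℕ) : ℕ := (m / L r a) * tau r (L r a) + tau r (m % L r a)

lemma Wf_eq (r a k ρ : ℕ) (hρ : ρ ≤ L r a) :
    Wf r a (k * L r a + ρ) = k * tau r (L r a) + tau r ρ := by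
  have hL := L_pos r a
  unfold Wf
  rcases Nat.lt_or_ge ρ (L r a) with h | h
  · rw [Nat.add_comm (k * L r a) ρ, Nat.add_mul_div_right _ _ hL, Nat.div_eq_of_lt h, Nat.add_mul_mod_self_right,
      Nat.mod_eq_of_lt h, zero_add]
  · have : ρ = L r a := le_antisymm hρ h
    subst this
    rw [show k * L r a + L r a = (k + 1) * L r a by ring, Nat.mul_div_cancel _ hL,
      Nat.mul_mod_left, tau_zero_right]
    ring

lemma Wf_add (r a m p : ℕ) (hp : p ≤ L r a) : Wf r a (m + p) ≤ Wf r a m + tau r p := by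
  obtain ⟨hS, hM⟩ := stS_stM r
  have hL := L_pos r a
  set k := m / L r a with hk
  set ρ := m % L r a with hρ
  have hρlt : ρ < L r a := Nat.mod_lt _ hL
  have hm : m = k * L r a + ρ := by
    rw [hk, hρ, mul_comm]; exact (Nat.div_add_mod m (L r a)).symm
  have hW : Wf r a m = k * tau r (L r a) + tau r ρ := by
    rw [hm]; exact Wf_eq r a k ρ hρlt.le
  rw [hW]
  rcases Nat.lt_or_ge (L r a) (ρ + p) with h | h
  · have h1 : m + p = (k + 1) * L r a + (ρ + p - L r a) := by
      rw [hm]
      have : (k + 1) * L r a = k * L r a + L r a := by ring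
      omega
    rw [h1, Wf_eq r a (k + 1) _ (by omega)]
    have h2 := hM a p (L r a - ρ) (by omega) hp
    rw [show p - (L r a - ρ) = ρ + p - L r a by omega,
      show L r a - (L r a - ρ) = ρ by omega] at h2
    have h3 : (k + 1) * tau r (L r a) = k * tau r (L r a) + tau r (L r a) := by ring
    omega
  · have h1 : m + p = k * L r a + (ρ + p) := by omega
    rw [h1, Wf_eq r a k _ h]
    have := hS ρ p
    omega

lemma Wf_zero (r a : ℕ) : Wf r a 0 = 0 := by simp [Wf, tau_zero_right]

lemma Wf_sum {ι : Type*} (r a : ℕ) (s : Finset ι) (m : ι → ℕ) (hm : ∀ i ∈ s, m i ≤ L r a) :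
    Wf r a (∑ i ∈ s, m i) ≤ ∑ i ∈ s, tau r (m i) := by
  classical
  induction s using Finset.induction_on with
  | empty => simp [Wf_zero]
  | insert i s hi ih =>
    rw [Finset.sum_insert hi, Finset.sum_insert hi, add_comm (m i)]
    have h1 := Wf_add r a (∑ i ∈ s, m i) (m i) (hm i (Finset.mem_insert_self i s))
    have h2 := ih (fun j hj => hm j (Finset.mem_insert_of_mem hj))
    omega

lemma Wf_layer (r a : ℕ) : ∀ c, c ≤ a + 1 → Wf r a (Bs r c) ≤ tau (r + 1) (Bs r c) := by
  intro c
  induction c with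
  | zero => intro _; rw [Bs_zero, Wf_zero]; omega
  | succ c ih =>
    intro hc
    have h1 := ih (by omega)
    have h2 := Wf_add r a (Bs r c) (L r c) (L_mono r (by omega))
    have h3 := tau_base_le r c
    rw [tau_full, L_succ_eq, Bs_succ]
    omega

lemma Wf_le_tau (r a ρ : ℕ) (hρ : ρ ≤ L (r + 1) a) : Wf r a ρ ≤ tau (r + 1) ρ := by
  rcases Nat.eq_zero_or_pos ρ with h0 | h0
  · rw [h0, Wf_zero]; omega
  obtain ⟨c, u, hu1, hu2, hcu⟩ := exists_decomp r ρ h0
  have hca : c ≤ a := by
    by_contra h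
    have := Bs_mono r (by omega : a + 1 ≤ c)
    rw [L_succ_left] at hρ
    omega
  have h1 := Wf_layer r a c (by omega)
  have h2 := L_mono r hca
  have h3 := Wf_add r a (Bs r c) u (by omega)
  have h4 := tau_base_le r c
  rw [hcu, tau_rec r c u hu1 hu2]
  omega

/-- The asymptotic comparison statement. -/
def Fam (r : ℕ) : Prop := ∀ (g : ℕ → ℤ) (γ : ℤ) (K : ℕ), HasLead r γ g →
  ∀ᶠ t in atTop, ∀ k ρ : ℕ, ρ ≤ L r (t + K) → g t = k * L r (t + K) + ρ →
    fd g t ≤ k * tau r (L r (t + K)) + tau r ρ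

lemma fam_zero : Fam 0 := by
  intro g γ K hg
  have h : ∀ᶠ t in atTop, g t = γ := hg
  filter_upwards [h, eventually_shift h] with t h1 h2 k ρ _ _
  simp only [fd, h1, h2, sub_self, tau_zero_left]
  positivity

lemma fam_succ (r : ℕ) (ih : Fam r) : Fam (r + 1) := by
  intro g γ K hg
  -- abbreviations
  have hM : HasLead (r + 1) 1 (fun t => (L (r + 1) (t + K) : ℤ)) := hasLead_L (r + 1) K 0
  have hfdM : ∀ t, fd (fun t => (L (r + 1) (t + K) : ℤ)) t = tau (r + 1) (L (r + 1) (t + K)) := by
    intro t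
    simp only [fd]
    rw [show t + 1 + K = (t + K) + 1 by ring, L_succ_eq]
    push_cast; ring
  -- upper bound for k
  have e1 : ∀ᶠ t in atTop, g t < (γ + 1) * L (r + 1) (t + K) := by
    have h := ((hM.const_mul (γ + 1)).sub hg).eventually_pos (by ring_nf; norm_num)
    filter_upwards [h] with t ht
    linarith
  have e2 : ∀ᶠ t in atTop, (γ - 1) * L (r + 1) (t + K) < g t := by
    have h := (hg.sub (hM.const_mul (γ - 1))).eventually_pos (by ring_nf; norm_num)
    filter_upwards [h] with t ht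
    linarith
  -- case k = γ
  have hg2 : HasLead (r + 1) 0 (fun t => g t - γ * L (r + 1) (t + K)) := by
    have := hg.sub (hM.const_mul γ)
    rwa [mul_one, sub_self] at this
  obtain ⟨γ2, hγ2⟩ := hg2.lower
  have e3 := ih _ γ2 K hγ2
  -- case k = γ - 1
  set h : ℕ → ℤ := fun t => g t - (γ - 1) * L (r + 1) (t + K) with hh
  have hhl : HasLead (r + 1) 1 h := by
    have := hg.sub (hM.const_mul (γ - 1))
    rwa [show γ - (γ - 1) * 1 = 1 by ring] at this
  have hj : ∀ j : ℕ, ∃ κ, HasLead r κ (fun t => h t - Bs r (t + K - j)) := by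
    intro j
    have := hhl.sub (hasLead_Bs r K j)
    rw [sub_self] at this
    exact this.lower
  obtain ⟨κ0, hκ0⟩ := hj 0
  -- lead of h - Bs (t + K - j) is κ0 + j
  have hlead : ∀ j : ℕ, HasLead r (κ0 + j) (fun t => h t - Bs r (t + K - j)) := by
    intro j
    induction j with
    | zero => simpa using hκ0
    | succ j ihj =>
      have := ihj.add (hasLead_L r K (j + 1))
      rw [show κ0 + (j : ℤ) + 1 = κ0 + ((j + 1 : ℕ) : ℤ) by push_cast; ring] at this
      refine this.congr ?_
      filter_upwards [eventually_ge_atTop (j + 1)] with t ht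
      have hb := Bs_succ r (t + K - (j + 1))
      rw [show t + K - (j + 1) + 1 = t + K - j by omega] at hb
      rw [hb]
      push_cast; ring
  set J : ℕ := κ0.natAbs + 1 with hJ
  have e4 : ∀ᶠ t in atTop, 0 < h t - Bs r (t + K - J) :=
    (hlead J).eventually_pos (by omega)
  have e5 : ∀ᶠ t in atTop, ∀ j ∈ Finset.range (J + 1), ∀ k ρ : ℕ, ρ ≤ L r (t + K) →
      h t - Bs r (t + K - j) = k * L r (t + K) + ρ →
      fd (fun t => h t - Bs r (t + K - j)) t ≤ k * tau r (L r (t + K)) + tau r ρ := by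
    rw [Filter.eventually_all_finset]
    intro j _
    exact ih _ _ K (hlead j)
  filter_upwards [e1, e2, e3, e4, e5, eventually_ge_atTop J] with t h1 h2 h3 h4 h5 h6 k ρ hρ hg'
  have hLpos : (1 : ℤ) ≤ L (r + 1) (t + K) := by exact_mod_cast L_pos (r + 1) (t + K)
  have hρ0 : (0 : ℤ) ≤ ρ := by positivity
  have hρ' : (ρ : ℤ) ≤ L (r + 1) (t + K) := by exact_mod_cast hρ
  have hk1 : (k : ℤ) ≤ γ := by
    by_contra hc
    have hc' : γ + 1 ≤ k := by omega
    have : (γ + 1) * L (r + 1) (t + K) ≤ k * L (r + 1) (t + K) :=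
      mul_le_mul_of_nonneg_right hc' (by linarith)
    linarith
  have hk2 : γ - 1 ≤ k := by
    by_contra hc
    have hc' : (k : ℤ) + 1 ≤ γ - 1 := by omega
    have : ((k : ℤ) + 1) * L (r + 1) (t + K) ≤ (γ - 1) * L (r + 1) (t + K) :=
      mul_le_mul_of_nonneg_right hc' (by linarith)
    linarith
  have hfg : ∀ δ : ℤ, fd g t = fd (fun t => g t - δ * L (r + 1) (t + K)) t +
      δ * tau (r + 1) (L (r + 1) (t + K)) := by
    intro δ
    rw [← hfdM]
    simp only [fd]; ring
  rcases (by omega : (k : ℤ) = γ ∨ (k : ℤ) = γ - 1) with hk | hk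
  · -- k = γ
    rw [hfg γ, hk]
    have hρeq : g t - γ * L (r + 1) (t + K) = ρ := by rw [hg', hk]; ring
    have hLr := L_pos r (t + K)
    have h7 := h3 (ρ / L r (t + K)) (ρ % L r (t + K)) (Nat.mod_lt _ hLr).le (by
      rw [hρeq]
      have := Nat.div_add_mod ρ (L r (t + K))
      have h8 : (ρ : ℤ) = ((L r (t + K) * (ρ / L r (t + K)) + ρ % L r (t + K) : ℕ) : ℤ) := by
        rw [this]
      rw [h8]
      push_cast
      ring)
    have h9 := Wf_le_tau r (t + K) ρ hρ
    unfold Wf at h9
    have h10 : ((ρ / L r (t + K) * tau r (L r (t + K)) + tau r (ρ % L r (t + K)) : ℕ) : ℤ) ≤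
        tau (r + 1) ρ := by exact_mod_cast h9
    push_cast at h10 h7
    linarith
  · -- k = γ - 1
    rw [hfg (γ - 1), hk]
    have hρeq : h t = ρ := by simp only [hh]; rw [hg', hk]; ring
    have hρpos : 1 ≤ ρ := by
      have : (0 : ℤ) ≤ Bs r (t + K - J) := by positivity
      omega
    obtain ⟨c, u, hu1, hu2, hcu⟩ := exists_decomp r ρ hρpos
    have hcK : c ≤ t + K := by
      by_contra hc
      have := Bs_mono r (by omega : t + K + 1 ≤ c)
      rw [L_succ_left] at hρ
      omega
    have hcJ : t + K - J ≤ c := by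
      by_contra hc
      have h8 := Bs_mono r (by omega : c + 1 ≤ t + K - J)
      rw [Bs_succ] at h8
      omega
    obtain ⟨j, hj1, hj2⟩ : ∃ j, j ≤ J ∧ c = t + K - j := ⟨t + K - c, by omega, by omega⟩
    have h7 := h5 j (Finset.mem_range.2 (by omega)) 0 u
      (le_trans hu2 (L_mono r hcK)) (by
        rw [hρeq, hcu, ← hj2]; push_cast; ring)
    have h8 : fd h t = fd (fun t => h t - Bs r (t + K - j)) t + L r c := by
      simp only [fd]
      have hb := Bs_succ r (t + K - j)
      rw [show t + 1 + K - j = t + K - j + 1 by omega, hb, hj2]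
      push_cast; ring
    have h9 : tau (r + 1) ρ = L r c + tau r u := by rw [hcu]; exact tau_rec r c u hu1 hu2
    rw [h9]
    change fd h t + _ ≤ _
    rw [h8]
    push_cast at h7 ⊢
    linarith

theorem fam (r : ℕ) : Fam r := by
  induction r with
  | zero => exact fam_zero
  | succ r ih => exact fam_succ r ih

/-- Asymptotic comparison for families. -/
theorem family_bound (r : ℕ) (g : ℕ → ℤ) (γ : ℤ) (K : ℕ) (hg : HasLead r γ g) :
    ∀ᶠ t in atTop, ∀ {ι : Type} (s : Finset ι) (m : ι → ℕ), (∀ i ∈ s, m i ≤ L r (t + K)) →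
      g t = ((∑ i ∈ s, m i : ℕ) : ℤ) → g (t + 1) - g t ≤ ((∑ i ∈ s, tau r (m i) : ℕ) : ℤ) := by
  filter_upwards [fam r g γ K hg] with t ht ι s m hm hgt
  set T := ∑ i ∈ s, m i with hT
  have hLr := L_pos r (t + K)
  have h1 := ht (T / L r (t + K)) (T % L r (t + K)) (Nat.mod_lt _ hLr).le (by
    rw [hgt]
    have := Nat.div_add_mod T (L r (t + K))
    have h8 : ((L r (t + K) * (T / L r (t + K)) + T % L r (t + K) : ℕ) : ℤ) = T := by
      rw [this]
    rw [← h8]
    push_cast
    ring)
  have h2 := Wf_sum r (t + K) s m hm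
  unfold Wf at h2
  rw [← hT] at h2
  have h3 : ((T / L r (t + K) * tau r (L r (t + K)) + tau r (T % L r (t + K)) : ℕ) : ℤ) ≤
      ((∑ i ∈ s, tau r (m i) : ℕ) : ℤ) := by exact_mod_cast h2
  push_cast at h3 h1 ⊢
  simp only [fd] at h1
  linarith

end Pool.Agent.H35
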