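import Pool.Agent.H35.Mac

namespace Pool.Agent.H35

open scoped Pointwise
open Finset

section
variable {V : Type*} [AddCommGroup V] [DecidableEq V] {r : ℕ}

/-- edge vectors of a simplex -/
def edges (p : Fin (r + 1) → V) : Fin r → V := fun i => p i.succ - p 0

/-- the lattice spanned by the edges -/
def Lam (p : Fin (r + 1) → V) : Submodule ℤ V := Submodule.span ℤ (Set.range (edges p))

/-- the vertex set -/
def verts (p : Fin (r + 1) → V) : Finset V := Finset.univ.image p

/-- parametrisation of the lattice -/
def par (p : Fin (r + 1) → V) : (Fin r → ℤ) →+ V where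
  toFun n := ∑ i, n i • edges p i
  map_zero' := by simp
  map_add' a b := by simp [add_smul, Finset.sum_add_distrib]

lemma par_injective (p : Fin (r + 1) → V) (hp : LinearIndependent ℤ (edges p)) :
    Function.Injective (par p) := by
  rw [injective_iff_map_eq_zero]
  intro n hn
  have := Fintype.linearIndependent_iff.1 hp n hn
  funext i
  exact this i

lemma mem_Lam_iff (p : Fin (r + 1) → V) (x : V) : x ∈ Lam p ↔ ∃ n, par p n = x := by
  unfold Lam
  rw [Submodule.mem_span_range_iff_exists_fun]
  rfl

lemma par_single (p : Fin (r + 1) → V) (i : Fin r) :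
    par p (Pi.single i 1) = edges p i := by
  change ∑ j, (Pi.single i (1 : ℤ) : Fin r → ℤ) j • edges p j = edges p i
  rw [Finset.sum_eq_single i]
  · simp
  · intro j _ hj
    simp [Pi.single_apply, hj]
  · simp

lemma verts_eq (p : Fin (r + 1) → V) : verts p = (Es r).image (fun n => p 0 + par p n) := by
  unfold verts Es
  ext x
  simp only [mem_image, mem_univ, true_and, mem_insert]
  constructor
  · rintro ⟨i, rfl⟩
    rcases Fin.eq_zero_or_eq_succ i with h | ⟨j, rfl⟩
    · exact ⟨0, Or.inl rfl, by rw [map_zero, add_zero, h]⟩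
    · exact ⟨Pi.single j 1, Or.inr ⟨j, rfl⟩, by rw [par_single]; simp [edges]⟩
  · rintro ⟨n, rfl | ⟨j, rfl⟩, rfl⟩
    · exact ⟨0, by simp⟩
    · exact ⟨j.succ, by rw [par_single]; simp [edges]⟩

/-- isoperimetry inside one class -/
lemma mac_class (p : Fin (r + 1) → V) (hp : LinearIndependent ℤ (edges p)) (X : Finset V)
    (hX : ∀ x ∈ X, ∀ y ∈ X, x - y ∈ Lam p) :
    X.card + tau r X.card ≤ (X + verts p).card := by
  classical
  rcases X.eq_empty_or_nonempty with h | ⟨x0, hx0⟩
  · subst h; simp [tau_zero_right]
  have hinj := par_injective p hp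
  -- preimage
  set f : (Fin r → ℤ) → V := fun n => x0 + par p n with hf
  have hfinj : Function.Injective f := fun a b hab => hinj (add_left_cancel hab)
  set X' := X.preimage f (hfinj.injOn) with hX'
  have hXim : X = X'.image f := by
    ext x
    simp only [hX', mem_image, mem_preimage]
    constructor
    · intro hx
      obtain ⟨n, hn⟩ := (mem_Lam_iff p _).1 (hX x hx x0 hx0)
      have hfn : f n = x := by simp [hf, hn]
      exact ⟨n, by rwa [hfn], hfn⟩
    · rintro ⟨n, hn, rfl⟩
      exact hn
  have hcard : X'.card = X.card := by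
    rw [hXim, card_image_of_injective _ hfinj]
  have h1 := mac_std r X'
  rw [hcard] at h1
  refine h1.trans ?_
  have hg : Function.Injective (fun n => x0 + p 0 + par p n) :=
    fun a b hab => hinj (add_left_cancel hab)
  rw [← card_image_of_injective (X' + Es r) hg]
  apply card_le_card
  intro y hy
  obtain ⟨n, hn, rfl⟩ := mem_image.1 hy
  obtain ⟨a, ha, b, hb, rfl⟩ := Finset.mem_add.1 hn
  refine Finset.mem_add.2 ⟨f a, ?_, p 0 + par p b, ?_, ?_⟩
  · rw [hXim]; exact mem_image_of_mem f ha
  · rw [verts_eq]; exact mem_image_of_mem _ hb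
  · simp only [hf, map_add]; abel

/-- isoperimetry over classes -/
theorem mac_classes (p : Fin (r + 1) → V) (hp : LinearIndependent ℤ (edges p))
    [DecidableEq (V ⧸ Lam p)] (X : Finset V) (T : Finset (V ⧸ Lam p)) :
    ∑ c ∈ T, ((X.filter (fun x => (Lam p).mkQ x = c)).card +
      tau r (X.filter (fun x => (Lam p).mkQ x = c)).card) ≤ (X + verts p).card := by
  classical
  have hle : ∀ c ∈ T, (X.filter (fun x => (Lam p).mkQ x = c)).card +
      tau r (X.filter (fun x => (Lam p).mkQ x = c)).card ≤
      (X.filter (fun x => (Lam p).mkQ x = c) + verts p).card := by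
    intro c _
    apply mac_class p hp
    intro x hx y hy
    have hx' := (mem_filter.1 hx).2
    have hy' := (mem_filter.1 hy).2
    rw [← Submodule.Quotient.mk_eq_zero, Submodule.Quotient.mk_sub]
    change (Lam p).mkQ x - (Lam p).mkQ y = 0
    rw [hx', hy', sub_self]
  refine (Finset.sum_le_sum hle).trans ?_
  have hv : ∀ v ∈ verts p, (Lam p).mkQ v = (Lam p).mkQ (p 0) := by
    intro v hv
    rw [verts_eq] at hv
    obtain ⟨n, _, rfl⟩ := mem_image.1 hv
    rw [map_add]
    have : (Lam p).mkQ (par p n) = 0 := by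
      rw [Submodule.mkQ_apply, Submodule.Quotient.mk_eq_zero]
      exact (mem_Lam_iff p _).2 ⟨n, rfl⟩
    rw [this, add_zero]
  rw [← card_biUnion]
  · apply card_le_card
    intro y hy
    obtain ⟨c, _, hyc⟩ := mem_biUnion.1 hy
    exact add_subset_add_right (filter_subset _ _) hyc
  · intro c _ c' _ hcc'
    rw [Function.onFun, Finset.disjoint_left]
    intro z hz hz'
    obtain ⟨a, ha, b, hb, rfl⟩ := Finset.mem_add.1 hz
    obtain ⟨a', ha', b', hb', hab⟩ := Finset.mem_add.1 hz'
    apply hcc'
    have h1 := congrArg (Lam p).mkQ hab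
    rw [map_add, map_add, hv b hb, hv b' hb', (mem_filter.1 ha).2, (mem_filter.1 ha').2] at h1
    exact (add_right_cancel h1).symm

end

end Pool.Agent.H35
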