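import Pool.Agent.H35.Part
import Pool.Agent.H35.MacClass

namespace Pool.Agent.H35

open scoped Pointwise
open Finset

/-- A regular system of lattice simplices with vertices in `B ∪ {0}`. -/
structure Cells (V : Type) [AddCommGroup V] [DecidableEq V] (B : Finset V) (r m : ℕ) where
  s : Fin m → (V →+ ℤ)
  p : Fin m → Fin (r + 1) → V
  hs : ∀ i j, i ≠ j → s i ≠ s j
  hp : ∀ j k, p j k ∈ insert 0 B
  hli : ∀ j, LinearIndependent ℤ (edges (p j))
  hord : ∀ i j k l, 0 ≤ (s i - s j) (p i k - p j l)
  hfin : ∀ j, Finite (V ⧸ Lam (p j))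

section
variable {V : Type} [AddCommGroup V] [DecidableEq V] {B : Finset V} {r m : ℕ}

/-- cell of the power diagram, ties broken by the index -/
def cell (s : Fin m → (V →+ ℤ)) (ω : Fin m → ℤ) (A : Finset V) (j : Fin m) : Finset V :=
  A.filter (fun x => (∀ i, s i x + ω i ≤ s j x + ω j) ∧ (∀ i, i < j → s i x + ω i < s j x + ω j))

lemma mem_cell {s : Fin m → (V →+ ℤ)} {ω : Fin m → ℤ} {A : Finset V} {j : Fin m} {x : V} :
    x ∈ cell s ω A j ↔ x ∈ A ∧ (∀ i, s i x + ω i ≤ s j x + ω j) ∧
      (∀ i, i < j → s i x + ω i < s j x + ω j) := by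
  simp [cell]

lemma cell_subset (s : Fin m → (V →+ ℤ)) (ω : Fin m → ℤ) (A : Finset V) (j : Fin m) :
    cell s ω A j ⊆ A := filter_subset _ _

lemma exists_cell (s : Fin m → (V →+ ℤ)) (ω : Fin m → ℤ) (A : Finset V) (hm : 0 < m) (x : V)
    (hx : x ∈ A) : ∃ j, x ∈ cell s ω A j := by
  classical
  have : Nonempty (Fin m) := ⟨⟨0, hm⟩⟩
  obtain ⟨j0, -, hj0⟩ := Finset.exists_max_image Finset.univ (fun j => s j x + ω j) univ_nonempty
  set T := Finset.univ.filter (fun j => s j x + ω j = s j0 x + ω j0) with hT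
  have hTne : T.Nonempty := ⟨j0, by simp [hT]⟩
  refine ⟨T.min' hTne, ?_⟩
  have hmem := T.min'_mem hTne
  have heq : s (T.min' hTne) x + ω (T.min' hTne) = s j0 x + ω j0 := by
    simpa [hT] using (mem_filter.1 hmem).2
  rw [mem_cell]
  refine ⟨hx, fun i => ?_, fun i hi => ?_⟩
  · rw [heq]; exact hj0 i (mem_univ i)
  · rw [heq]
    refine lt_of_le_of_ne (hj0 i (mem_univ i)) fun h => ?_
    have : T.min' hTne ≤ i := T.min'_le i (by simp [hT, h])
    omega

lemma cell_unique (s : Fin m → (V →+ ℤ)) (ω : Fin m → ℤ) (A A' : Finset V) (i j : Fin m) (x : V)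
    (hi : x ∈ cell s ω A i) (hj : x ∈ cell s ω A' j) : i = j := by
  rw [mem_cell] at hi hj
  rcases lt_trichotomy i j with h | h | h
  · have h1 := hj.2.2 i h
    have h2 := hi.2.1 j
    omega
  · exact h
  · have h1 := hi.2.2 j h
    have h2 := hj.2.1 i
    omega

lemma sum_card_cell (s : Fin m → (V →+ ℤ)) (ω : Fin m → ℤ) (A : Finset V) (hm : 0 < m) :
    ∑ j, (cell s ω A j).card = A.card := by
  classical
  rw [← card_biUnion]
  · congr 1
    ext x
    simp only [mem_biUnion, mem_univ, true_and]
    constructor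
    · rintro ⟨j, hj⟩; exact cell_subset s ω A j hj
    · intro hx; exact exists_cell s ω A hm x hx
  · intro i _ j _ hij
    rw [Function.onFun, Finset.disjoint_left]
    intro x hx hx'
    exact hij (cell_unique s ω A A i j x hx hx')

lemma cell_add_disjoint (c : Cells V B r m) (ω : Fin m → ℤ) (A : Finset V) (i j : Fin m)
    (hij : i ≠ j) : Disjoint (cell c.s ω A i + verts (c.p i)) (cell c.s ω A j + verts (c.p j)) := by
  have key : ∀ i j : Fin m, i < j →
      Disjoint (cell c.s ω A i + verts (c.p i)) (cell c.s ω A j + verts (c.p j)) := by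
    intro i j hij
    rw [Finset.disjoint_left]
    intro z hz hz'
    obtain ⟨x, hx, a, ha, hxa⟩ := Finset.mem_add.1 hz
    obtain ⟨y, hy, b, hb, hyb⟩ := Finset.mem_add.1 hz'
    obtain ⟨k, -, rfl⟩ := mem_image.1 ha
    obtain ⟨l, -, rfl⟩ := mem_image.1 hb
    rw [mem_cell] at hx hy
    have h1 := hy.2.2 i hij
    have h2 := hx.2.1 j
    have h3 := c.hord i j k l
    have h4 := congrArg (c.s i - c.s j) (hxa.trans hyb.symm)
    simp only [map_add, AddMonoidHom.sub_apply, map_sub] at h3 h4
    linarith
  rcases lt_or_gt_of_ne hij with h | h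
  · exact key i j h
  · exact (key j i h).symm

lemma verts_subset (c : Cells V B r m) (j : Fin m) : verts (c.p j) ⊆ insert 0 B := by
  intro x hx
  obtain ⟨k, -, rfl⟩ := mem_image.1 hx
  exact c.hp j k

lemma card_add_insert (A : Finset V) : (A + insert 0 B).card = A.card + bd B A := by
  have h1 : A + insert 0 B = A ∪ ((A + B) \ A) := by
    ext x
    simp only [mem_union, mem_sdiff]
    constructor
    · intro hx
      obtain ⟨a, ha, b, hb, rfl⟩ := Finset.mem_add.1 hx
      by_cases h : a + b ∈ A
      · left; exact h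
      · right
        refine ⟨?_, h⟩
        rw [mem_insert] at hb
        rcases hb with rfl | hb
        · rw [add_zero] at h; exact absurd ha h
        · exact Finset.mem_add.2 ⟨a, ha, b, hb, rfl⟩
    · rintro (hx | hx)
      · exact Finset.mem_add.2 ⟨x, hx, 0, mem_insert_self _ _, add_zero x⟩
      · exact add_subset_add_left (subset_insert _ _) hx.1
  rw [h1, card_union_of_disjoint disjoint_sdiff]
  rfl

open Classical in
/-- one part -/
noncomputable def part (c : Cells V B r m) (ω : Fin m → ℤ) (A : Finset V) (j : Fin m)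
    (q : V ⧸ Lam (c.p j)) : Finset V :=
  (cell c.s ω A j).filter (fun x => (Lam (c.p j)).mkQ x = q)

lemma mem_part {c : Cells V B r m} {ω : Fin m → ℤ} {A : Finset V} {j : Fin m}
    {q : V ⧸ Lam (c.p j)} {x : V} :
    x ∈ part c ω A j q ↔ x ∈ cell c.s ω A j ∧ (Lam (c.p j)).mkQ x = q := by
  classical
  unfold part
  rw [mem_filter]

noncomputable instance (c : Cells V B r m) (j : Fin m) : Fintype (V ⧸ Lam (c.p j)) :=
  @Fintype.ofFinite _ (c.hfin j)

lemma sum_card_part (c : Cells V B r m) (ω : Fin m → ℤ) (A : Finset V) (j : Fin m) :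
    ∑ q, (part c ω A j q).card = (cell c.s ω A j).card := by
  classical
  have h := Finset.card_eq_sum_card_fiberwise (s := cell c.s ω A j) (t := Finset.univ)
    (f := fun x => (Lam (c.p j)).mkQ x) (fun x _ => mem_univ _)
  rw [h]
  refine Finset.sum_congr rfl fun q _ => ?_
  unfold part
  congr

/-- The main inequality. -/
theorem main_ineq (c : Cells V B r m) (ω : Fin m → ℤ) (A : Finset V) (hm : 0 < m) :
    ∑ j, ∑ q, tau r (part c ω A j q).card ≤ bd B A := by
  classical
  have h1 : ∀ j, (cell c.s ω A j).card + ∑ q, tau r (part c ω A j q).card ≤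
      (cell c.s ω A j + verts (c.p j)).card := by
    intro j
    have := mac_classes (c.p j) (c.hli j) (cell c.s ω A j) Finset.univ
    rw [Finset.sum_add_distrib] at this
    rw [← sum_card_part c ω A j]
    convert this using 3
    · unfold part; congr
    · unfold part; congr
  have h2 : ∑ j, (cell c.s ω A j + verts (c.p j)).card ≤ (A + insert 0 B).card := by
    rw [← card_biUnion]
    · apply card_le_card
      intro x hx
      obtain ⟨j, -, hj⟩ := mem_biUnion.1 hx
      exact add_subset_add (cell_subset _ _ _ _) (verts_subset c j) hj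
    · intro i _ j _ hij
      exact cell_add_disjoint c ω A i j hij
  have h3 := Finset.sum_le_sum (fun j (_ : j ∈ Finset.univ) => h1 j)
  rw [Finset.sum_add_distrib, sum_card_cell c.s ω A hm] at h3
  rw [card_add_insert] at h2
  omega

/-- parts are almost equidistributed -/
theorem part_compare (c : Cells V B r m) (hB : AddSubgroup.closure (B : Set V) = ⊤) (g : V) :
    ∃ C : ℕ, ∀ (A : Finset V) (ω : Fin m → ℤ) (j : Fin m) (q : V ⧸ Lam (c.p j)),
      (part c ω A j q).card ≤ (part c ω A j (q + (Lam (c.p j)).mkQ g)).card + C * bd B A := by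
  classical
  obtain ⟨C1, hC1⟩ := trans_bound B hB g
  -- number of hyperplanes
  let N : ℕ := ∑ i, ∑ j, (((c.s i - c.s j) g).natAbs + 1)
  refine ⟨C1 + N, fun A ω j q => ?_⟩
  have hsub : part c ω A j q ⊆
      ((part c ω A j (q + (Lam (c.p j)).mkQ g)).image (fun x => x - g)) ∪
      (A.filter (fun x => x + g ∉ A) ∪
        (Finset.univ.filter (fun i => i ≠ j)).biUnion (fun i =>
          (Finset.range (((c.s i - c.s j) g).natAbs + 1)).biUnion (fun k =>
            A.filter (fun x => (c.s j - c.s i) x = ω i - ω j + k)))) := by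
    intro x hx
    rw [mem_part] at hx
    obtain ⟨hxc, hxq⟩ := hx
    have hxA := cell_subset _ _ _ _ hxc
    by_cases hgA : x + g ∈ A
    swap
    · rw [mem_union, mem_union]
      right; left
      exact mem_filter.2 ⟨hxA, hgA⟩
    by_cases hgc : x + g ∈ cell c.s ω A j
    · rw [mem_union]
      left
      refine mem_image.2 ⟨x + g, ?_, by simp⟩
      rw [mem_part]
      exact ⟨hgc, by rw [map_add, hxq]⟩
    · rw [mem_union, mem_union]
      right; right
      have hm : 0 < m := lt_of_le_of_lt (Nat.zero_le _) j.2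
      obtain ⟨i, hi⟩ := exists_cell c.s ω A hm (x + g) hgA
      have hij : i ≠ j := by
        rintro rfl; exact hgc hi
      rw [mem_cell] at hxc hi
      have h1 := hxc.2.1 i
      have h2 := hi.2.1 j
      simp only [map_add] at h2
      refine mem_biUnion.2 ⟨i, by simp [hij], ?_⟩
      refine mem_biUnion.2 ⟨((c.s j - c.s i) x - (ω i - ω j)).toNat, ?_, ?_⟩
      · simp only [mem_range, AddMonoidHom.sub_apply]
        omega
      · refine mem_filter.2 ⟨hxA, ?_⟩
        simp only [AddMonoidHom.sub_apply]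
        omega
  refine (card_le_card hsub).trans ((card_union_le _ _).trans ?_)
  refine Nat.add_le_add card_image_le ((card_union_le _ _).trans ?_)
  rw [add_mul]
  refine Nat.add_le_add (hC1 A) ?_
  calc _ ≤ ∑ i ∈ Finset.univ.filter (fun i => i ≠ j),
        (((c.s i - c.s j) g).natAbs + 1) * bd B A := by
        refine card_biUnion_le.trans (Finset.sum_le_sum fun i hi => ?_)
        refine card_biUnion_le.trans ?_
        refine (Finset.sum_le_card_nsmul _ _ (bd B A) fun k _ => ?_).trans (by simp)
        have hne : c.s j - c.s i ≠ 0 := by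
          rw [sub_ne_zero]
          exact (c.hs i j (mem_filter.1 hi).2).symm
        exact hyper_bound B hB (c.s j - c.s i) hne A _
    _ ≤ ∑ i, (((c.s i - c.s j) g).natAbs + 1) * bd B A :=
        Finset.sum_le_sum_of_subset (filter_subset _ _)
    _ = (∑ i, (((c.s i - c.s j) g).natAbs + 1)) * bd B A := by rw [Finset.sum_mul]
    _ ≤ N * bd B A := by
        apply Nat.mul_le_mul_right
        change _ ≤ ∑ i, ∑ j, (((c.s i - c.s j) g).natAbs + 1)
        refine Finset.sum_le_sum fun i _ => ?_
        exact Finset.single_le_sum (f := fun j => ((c.s i - c.s j) g).natAbs + 1)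
          (fun _ _ => Nat.zero_le _) (mem_univ j)

/-- all parts of a cell are almost equal -/
theorem part_bound (c : Cells V B r m) (hB : AddSubgroup.closure (B : Set V) = ⊤) :
    ∃ C : ℕ, ∀ (A : Finset V) (ω : Fin m → ℤ) (j : Fin m) (q : V ⧸ Lam (c.p j)),
      Fintype.card (V ⧸ Lam (c.p j)) * (part c ω A j q).card ≤
        (cell c.s ω A j).card + C * bd B A := by
  classical
  choose Cg hCg using part_compare c hB
  refine ⟨∑ j, ∑ q : V ⧸ Lam (c.p j), Cg (Quotient.out q), fun A ω j q => ?_⟩
  have h1 : ∀ q', (part c ω A j q).card ≤ (part c ω A j (q + q')).card +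
      Cg (Quotient.out q') * bd B A := by
    intro q'
    have := hCg (Quotient.out q') A ω j q
    have h2 : (Lam (c.p j)).mkQ (Quotient.out q') = q' := Quotient.out_eq' q'
    rwa [h2] at this
  have h2 := Finset.sum_le_sum (fun q' (_ : q' ∈ Finset.univ) => h1 q')
  rw [Finset.sum_const, Finset.sum_add_distrib, Finset.card_univ, smul_eq_mul] at h2
  have h3 : ∑ q', (part c ω A j (q + q')).card = (cell c.s ω A j).card := by
    rw [← sum_card_part c ω A j]
    exact Fintype.sum_equiv (Equiv.addLeft q) _ _ (fun _ => rfl)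
  rw [h3, ← Finset.sum_mul] at h2
  refine h2.trans (Nat.add_le_add_left (Nat.mul_le_mul_right _ ?_) _)
  exact Finset.single_le_sum (f := fun j => ∑ q : V ⧸ Lam (c.p j), Cg (Quotient.out q))
    (fun _ _ => Nat.zero_le _) (mem_univ j)

lemma cell_le_strict (c : Cells V B r m) (hB : AddSubgroup.closure (B : Set V) = ⊤)
    (A : Finset V) (ω : Fin m → ℤ) (j : Fin m) :
    (cell c.s ω A j).card ≤ (strictSet A (fun i x => c.s i x) ω j).card + m * bd B A := by
  classical
  have hsub : cell c.s ω A j ⊆ strictSet A (fun i x => c.s i x) ω j ∪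
      (Finset.univ.filter (fun i => i ≠ j)).biUnion (fun i =>
        A.filter (fun x => (c.s j - c.s i) x = ω i - ω j)) := by
    intro x hx
    rw [mem_cell] at hx
    by_cases h : ∀ i, i ≠ j → c.s i x + ω i < c.s j x + ω j
    · rw [mem_union]; left
      exact mem_filter.2 ⟨hx.1, h⟩
    · rw [mem_union]; right
      push Not at h
      obtain ⟨i, hij, hi⟩ := h
      refine mem_biUnion.2 ⟨i, by simp [hij], mem_filter.2 ⟨hx.1, ?_⟩⟩
      have := hx.2.1 i
      simp only [AddMonoidHom.sub_apply]
      omega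
  refine (card_le_card hsub).trans ((card_union_le _ _).trans (Nat.add_le_add_left ?_ _))
  refine card_biUnion_le.trans ?_
  refine (Finset.sum_le_card_nsmul _ _ (bd B A) fun i hi => ?_).trans ?_
  · have hne : c.s j - c.s i ≠ 0 := by
      rw [sub_ne_zero]
      exact (c.hs i j (mem_filter.1 hi).2).symm
    exact hyper_bound B hB (c.s j - c.s i) hne A _
  · rw [smul_eq_mul]
    apply Nat.mul_le_mul_right
    calc _ ≤ (Finset.univ : Finset (Fin m)).card := card_le_card (filter_subset _ _)
      _ = m := by simp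

/-- The splitting theorem. -/
theorem splitting (c : Cells V B r m) (hB : AddSubgroup.closure (B : Set V) = ⊤) (hm : 0 < m) :
    ∃ C : ℕ, ∀ (A : Finset V) (n : Fin m → ℕ), ∑ j, n j = A.card →
      ∃ M : (Σ j : Fin m, V ⧸ Lam (c.p j)) → ℕ,
        ∑ i, M i = A.card ∧ ∑ i, tau r (M i) ≤ bd B A ∧
        ∀ i, Fintype.card (V ⧸ Lam (c.p i.1)) * M i ≤ n i.1 + C * bd B A := by
  obtain ⟨C, hC⟩ := part_bound c hB
  refine ⟨m + C, fun A n hn => ?_⟩
  obtain ⟨ω, hω⟩ := balanced A (fun i x => c.s i x) n hm hn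
  refine ⟨fun i => (part c ω A i.1 i.2).card, ?_, ?_, ?_⟩
  · rw [Fintype.sum_sigma, ← sum_card_cell c.s ω A hm]
    refine Finset.sum_congr rfl fun j _ => ?_
    exact sum_card_part c ω A j
  · rw [Fintype.sum_sigma]
    exact main_ineq c ω A hm
  · intro i
    have h1 := hC A ω i.1 i.2
    have h2 := cell_le_strict c hB A ω i.1
    have h3 := hω i.1
    rw [add_mul]
    simp only
    omega

end

end Pool.Agent.H35
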