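import Pool.Agent.H35.LP
import Pool.Agent.H35.Split
import Pool.Agent.H35.Lead

namespace Pool.Agent.H35

open Module Finset

section
variable {d : ℕ}

/-- homogenisation -/
def hat (x : Fin d → ℤ) (t : ℤ) : (Fin d → ℚ) × ℚ := (fun i => (x i : ℚ), (t : ℚ))

lemma hat_add (x y : Fin d → ℤ) (s t : ℤ) : hat (x + y) (s + t) = hat x s + hat y t := by
  ext <;> simp [hat]

lemma hat_sub (x y : Fin d → ℤ) (s t : ℤ) : hat (x - y) (s - t) = hat x s - hat y t := by
  ext <;> simp [hat]

lemma hat_zero : hat (0 : Fin d → ℤ) 0 = 0 := by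
  ext <;> simp [hat]

lemma hat_inj {x y : Fin d → ℤ} {s t : ℤ} (h : hat x s = hat y t) : x = y ∧ s = t := by
  constructor
  · funext i
    have := congrFun (congrArg Prod.fst h) i
    simpa [hat] using this
  · have := congrArg Prod.snd h
    simpa [hat] using this

/-- homogenised point -/
def pt (x : Fin d → ℤ) : (Fin d → ℚ) × ℚ := hat x 1

lemma hat_par (p : Fin (d + 1) → (Fin d → ℤ)) (n : Fin d → ℤ) :
    hat (par p n) 0 = ∑ i, (n i : ℚ) • (pt (p i.succ) - pt (p 0)) := by
  have h : ∀ s : Finset (Fin d), hat (∑ i ∈ s, n i • edges p i) 0 =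
      ∑ i ∈ s, (n i : ℚ) • (pt (p i.succ) - pt (p 0)) := by
    intro s
    induction s using Finset.induction_on with
    | empty => simp [hat_zero]
    | insert a s ha ih =>
      rw [Finset.sum_insert ha, Finset.sum_insert ha, ← ih]
      have := hat_add (n a • edges p a) (∑ i ∈ s, n i • edges p i) 0 0
      rw [add_zero] at this
      rw [this]
      congr 1
      ext <;> simp [hat, pt, edges]
  exact h Finset.univ

lemma linInd_edges (p : Fin (d + 1) → (Fin d → ℤ)) (hp : LinearIndependent ℚ (fun k => pt (p k))) :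
    LinearIndependent ℤ (edges p) := by
  rw [Fintype.linearIndependent_iff]
  intro n hn i
  have h1 : hat (par p n) 0 = 0 := by
    have : par p n = 0 := hn
    rw [this, hat_zero]
  rw [hat_par] at h1
  rw [Fintype.linearIndependent_iff] at hp
  have h2 := hp (Fin.cons (- ∑ i, (n i : ℚ)) (fun i => (n i : ℚ))) (by
    rw [Fin.sum_univ_succ]
    simp only [Fin.cons_zero, Fin.cons_succ]
    rw [← h1]
    simp only [smul_sub, Finset.sum_sub_distrib, neg_smul, Finset.sum_smul]
    abel)
  have h3 := h2 i.succ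
  simp only [Fin.cons_succ] at h3
  exact_mod_cast h3

lemma finite_quot (p : Fin (d + 1) → (Fin d → ℤ)) (hp : LinearIndependent ℤ (edges p)) :
    Finite ((Fin d → ℤ) ⧸ Lam p) := by
  apply Submodule.finiteQuotientOfFreeOfRankEq
  unfold Lam
  rw [finrank_span_eq_card hp]
  simp

lemma card_simplex (d t : ℕ) :
    ((Finset.univ : Finset (Fin (d + 1))).finsuppAntidiag t).card = L d t := by
  rw [Finset.card_finsuppAntidiag_nat_eq_choose]
  unfold L
  simp only [card_univ, Fintype.card_fin]
  rw [show d + 1 + t - 1 = t + d by omega]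
  exact Nat.choose_symm_add

/-- the part of level `t` in the cone over a simplex -/
def Qs (p : Fin (d + 1) → (Fin d → ℤ)) (t : ℕ) : Set (Fin d → ℤ) :=
  {x | ∃ c : Fin (d + 1) → ℚ, (∀ k, 0 ≤ c k) ∧ hat x t = ∑ k, c k • pt (p k)}

lemma sum_coeff {ι : Type*} (s : Finset ι) (c : ι → ℚ) (f : ι → (Fin d → ℤ)) (x : Fin d → ℤ)
    (t : ℤ) (h : hat x t = ∑ k ∈ s, c k • pt (f k)) : ∑ k ∈ s, c k = t := by
  have := congrArg Prod.snd h
  simp only [hat, Prod.snd_sum, Prod.smul_snd, pt, smul_eq_mul] at this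
  rw [this]
  simp

theorem count_simplex (p : Fin (d + 1) → (Fin d → ℤ))
    (hp : LinearIndependent ℚ (fun k => pt (p k))) (t : ℕ) :
    (Qs p t).Finite ∧ (Qs p t).ncard ≤ Nat.card ((Fin d → ℤ) ⧸ Lam p) * L d t := by
  classical
  have hfin := finite_quot p (linInd_edges p hp)
  have : Fintype ((Fin d → ℤ) ⧸ Lam p) := Fintype.ofFinite _
  have hch : ∀ x : Fin d → ℤ, ∃ c : Fin (d + 1) → ℚ, x ∈ Qs p t → (∀ k, 0 ≤ c k) ∧
      hat x t = ∑ k, c k • pt (p k) := by
    intro x
    by_cases hx : x ∈ Qs p t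
    · obtain ⟨c, hc⟩ := hx
      exact ⟨c, fun _ => hc⟩
    · exact ⟨0, fun h => absurd h hx⟩
  choose c hc using hch
  let nf : (Fin d → ℤ) → (Fin (d + 1) → ℕ) := fun x =>
    Fin.cons (t - ∑ i : Fin d, ⌊c x i.succ⌋₊) (fun i => ⌊c x i.succ⌋₊)
  let F : (Fin d → ℤ) → ((Fin d → ℤ) ⧸ Lam p) × (Fin (d + 1) →₀ ℕ) := fun x =>
    ((Lam p).mkQ x, Finsupp.equivFunOnFinite.symm (nf x))
  let T : Finset (((Fin d → ℤ) ⧸ Lam p) × (Fin (d + 1) →₀ ℕ)) :=
    Finset.univ ×ˢ (Finset.univ : Finset (Fin (d + 1))).finsuppAntidiag t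
  have hmaps : Set.MapsTo F (Qs p t) (T : Set _) := by
    intro x hx
    obtain ⟨h1, h2⟩ := hc x hx
    rw [mem_coe]
    simp only [T, F, mem_product, mem_univ, true_and, mem_finsuppAntidiag, subset_univ, and_true]
    change ∑ k, nf x k = t
    rw [Fin.sum_univ_succ]
    simp only [nf, Fin.cons_zero, Fin.cons_succ]
    have h3 := sum_coeff Finset.univ (c x) p x t h2
    rw [Fin.sum_univ_succ] at h3
    have h4 : ((∑ i : Fin d, ⌊c x i.succ⌋₊ : ℕ) : ℚ) ≤ ∑ i : Fin d, c x i.succ := by
      push_cast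
      exact Finset.sum_le_sum fun i _ => Nat.floor_le (h1 _)
    have h5 : ((∑ i : Fin d, ⌊c x i.succ⌋₊ : ℕ) : ℚ) ≤ (t : ℚ) := by
      have := h1 0
      push_cast at h3
      linarith
    have h6 : ∑ i : Fin d, ⌊c x i.succ⌋₊ ≤ t := by exact_mod_cast h5
    omega
  have hinj : Set.InjOn F (Qs p t) := by
    intro x hx y hy hxy
    obtain ⟨h1, h2⟩ := hc x hx
    obtain ⟨h3, h4⟩ := hc y hy
    have h5 : (Lam p).mkQ x = (Lam p).mkQ y := congrArg Prod.fst hxy
    have h6 : nf x = nf y := by
      have := congrArg Prod.snd hxy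
      exact Finsupp.equivFunOnFinite.symm.injective this
    have h7 : x - y ∈ Lam p := by
      rw [← Submodule.Quotient.mk_eq_zero, Submodule.Quotient.mk_sub]
      change (Lam p).mkQ x - (Lam p).mkQ y = 0
      rw [h5, sub_self]
    obtain ⟨n, hn⟩ := (mem_Lam_iff p _).1 h7
    have h8 : hat (x - y) 0 = ∑ k, (c x k - c y k) • pt (p k) := by
      have := hat_sub x y t t
      rw [sub_self] at this
      rw [this, h2, h4, ← Finset.sum_sub_distrib]
      simp only [sub_smul]
    rw [← hn, hat_par] at h8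
    rw [Fintype.linearIndependent_iff] at hp
    have h9 := hp (Fin.cons (c x 0 - c y 0 + ∑ i, (n i : ℚ))
      (fun i => c x i.succ - c y i.succ - (n i : ℚ))) (by
        rw [Fin.sum_univ_succ]
        simp only [Fin.cons_zero, Fin.cons_succ]
        rw [Fin.sum_univ_succ] at h8
        simp only [smul_sub, Finset.sum_sub_distrib, sub_smul, Finset.sum_smul, add_smul] at h8 ⊢
        rw [sub_eq_iff_eq_add] at h8
        rw [h8]
        abel)
    have h10 : par p n = 0 := by
      have hn0 : n = 0 := by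
        funext i
        have h11 := h9 i.succ
        simp only [Fin.cons_succ] at h11
        have h12 := congrFun h6 i.succ
        simp only [nf, Fin.cons_succ] at h12
        have h13 := Nat.floor_le (h1 i.succ)
        have h14 := Nat.floor_le (h3 i.succ)
        have h15 := Nat.lt_floor_add_one (c x i.succ)
        have h16 := Nat.lt_floor_add_one (c y i.succ)
        rw [h12] at h13 h15
        have h17 : (n i : ℚ) < 1 := by linarith
        have h18 : (-1 : ℚ) < n i := by linarith
        have h19 : n i < 1 := by exact_mod_cast h17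
        have h20 : -1 < n i := by exact_mod_cast h18
        simp only [Pi.zero_apply]
        omega
      rw [hn0, map_zero]
    rw [h10] at hn
    exact (sub_eq_zero.1 hn.symm)
  have hfinQ : (Qs p t).Finite := Set.Finite.of_injOn hmaps hinj T.finite_toSet
  refine ⟨hfinQ, ?_⟩
  have h1 := Set.ncard_le_ncard_of_injOn F (fun x hx => hmaps hx) hinj T.finite_toSet
  rw [Set.ncard_coe_finset] at h1
  refine h1.trans ?_
  simp only [T, card_product, card_univ]
  rw [card_simplex, Nat.card_eq_fintype_card]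

end

end Pool.Agent.H35
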