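import Mathlib

namespace Pool.Agent.H35

open Module Finset

section LP
variable {W : Type*} [AddCommGroup W] [Module ℚ W]
  {ι : Type*} [DecidableEq ι] (P : Finset ι) (f : ι → W) (η : ι → ℚ)

/-- dual feasible functionals -/
def Feas (L : Dual ℚ W) : Prop := ∀ i ∈ P, L (f i) ≤ η i

/-- tight constraints -/
def tight (L : Dual ℚ W) : Finset ι := P.filter (fun i => L (f i) = η i)

/-- feasible functionals with spanning tight set -/
def IsVert (L : Dual ℚ W) : Prop :=
  Feas P f η L ∧ Submodule.span ℚ (f '' (tight P f η L : Set ι)) = ⊤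

/-- membership in the cone, tested by functionals -/
def InCone (x : W) : Prop := ∀ φ : Dual ℚ W, (∀ i ∈ P, φ (f i) ≤ 0) → φ x ≤ 0

variable {P f η}

lemma mem_tight {L : Dual ℚ W} {i : ι} : i ∈ tight P f η L ↔ i ∈ P ∧ L (f i) = η i := by
  simp [tight]

lemma exists_eps (s : Finset ι) (a b : ι → ℚ) (ha : ∀ i ∈ s, 0 < a i) :
    ∃ ε : ℚ, 0 < ε ∧ ∀ i ∈ s, ε * b i ≤ a i := by
  induction s using Finset.induction_on with
  | empty => exact ⟨1, one_pos, by simp⟩
  | insert i s hi ih =>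
    obtain ⟨ε, hε, h⟩ := ih (fun j hj => ha j (mem_insert_of_mem hj))
    have hai := ha i (mem_insert_self i s)
    refine ⟨min ε (a i / (1 + |b i|)), lt_min hε (by positivity), ?_⟩
    intro j hj
    have hmin1 : min ε (a i / (1 + |b i|)) ≤ ε := min_le_left _ _
    have hmin2 : min ε (a i / (1 + |b i|)) ≤ a i / (1 + |b i|) := min_le_right _ _
    have hminpos : 0 < min ε (a i / (1 + |b i|)) := lt_min hε (by positivity)
    rcases mem_insert.1 hj with rfl | hj
    · have h1 : min ε (a j / (1 + |b j|)) * b j ≤ min ε (a j / (1 + |b j|)) * (1 + |b j|) := by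
        apply mul_le_mul_of_nonneg_left _ hminpos.le
        linarith [le_abs_self (b j)]
      have h2 : min ε (a j / (1 + |b j|)) * (1 + |b j|) ≤ a j := by
        calc _ ≤ a j / (1 + |b j|) * (1 + |b j|) :=
              mul_le_mul_of_nonneg_right hmin2 (by positivity)
          _ = a j := by field_simp
      exact h1.trans h2
    · rcases le_or_gt (b j) 0 with hb | hb
      · have h1 := ha j (mem_insert_of_mem hj)
        nlinarith
      · exact (mul_le_mul_of_nonneg_right hmin1 hb.le).trans (h j hj)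

lemma exists_dir (hspan : Submodule.span ℚ (f '' (P : Set ι)) = ⊤) (x : W)
    (hx : InCone P f x) (U : Submodule ℚ W) (hU : U ≠ ⊤) :
    ∃ ψ : Dual ℚ W, (∀ u ∈ U, ψ u = 0) ∧ 0 ≤ ψ x ∧ ∃ i ∈ P, 0 < ψ (f i) := by
  obtain ⟨φ, hφ, hker⟩ := Submodule.exists_le_ker_of_lt_top U (lt_top_iff_ne_top.2 hU)
  have hk : ∀ u ∈ U, φ u = 0 := fun u hu => hker hu
  have hne : ∃ i ∈ P, φ (f i) ≠ 0 := by
    by_contra h
    push Not at h
    apply hφ
    ext w
    have hw : w ∈ Submodule.span ℚ (f '' (P : Set ι)) := by rw [hspan]; trivial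
    have : Submodule.span ℚ (f '' (P : Set ι)) ≤ LinearMap.ker φ := by
      rw [Submodule.span_le]
      rintro _ ⟨i, hi, rfl⟩
      exact h i hi
    exact this hw
  have key : ∀ φ : Dual ℚ W, (∀ u ∈ U, φ u = 0) → (∃ i ∈ P, φ (f i) ≠ 0) → 0 ≤ φ x →
      ∃ ψ : Dual ℚ W, (∀ u ∈ U, ψ u = 0) ∧ 0 ≤ ψ x ∧ ∃ i ∈ P, 0 < ψ (f i) := by
    intro φ hk hne hφx
    by_cases hpos : ∃ i ∈ P, 0 < φ (f i)
    · exact ⟨φ, hk, hφx, hpos⟩
    · push Not at hpos
      have h0 := hx φ hpos
      obtain ⟨i, hi, hi0⟩ := hne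
      refine ⟨-φ, fun u hu => by simp [hk u hu], by simp [h0], i, hi, ?_⟩
      have := hpos i hi
      simp only [LinearMap.neg_apply]
      have : φ (f i) < 0 := lt_of_le_of_ne this hi0
      linarith
  rcases le_total 0 (φ x) with h | h
  · exact key φ hk hne h
  · refine key (-φ) (fun u hu => by simp [hk u hu]) ?_ (by simp [h])
    obtain ⟨i, hi, hi0⟩ := hne
    exact ⟨i, hi, by simpa using hi0⟩

lemma lift_step [FiniteDimensional ℚ W] (hspan : Submodule.span ℚ (f '' (P : Set ι)) = ⊤) (x : W)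
    (hx : InCone P f x) (L : Dual ℚ W) (hL : Feas P f η L)
    (hn : Submodule.span ℚ (f '' (tight P f η L : Set ι)) ≠ ⊤) :
    ∃ L' : Dual ℚ W, Feas P f η L' ∧ L x ≤ L' x ∧
      finrank ℚ (Submodule.span ℚ (f '' (tight P f η L : Set ι))) <
      finrank ℚ (Submodule.span ℚ (f '' (tight P f η L' : Set ι))) := by
  obtain ⟨ψ, hψ, hψx, i0, hi0, hi0'⟩ := exists_dir hspan x hx _ hn
  obtain ⟨i1, hi1, hmin⟩ := Finset.exists_min_image (P.filter (fun i => 0 < ψ (f i)))
    (fun i => (η i - L (f i)) / ψ (f i)) ⟨i0, by simp [hi0, hi0']⟩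
  rw [mem_filter] at hi1
  set σ := (η i1 - L (f i1)) / ψ (f i1) with hσ
  have hσ0 : 0 ≤ σ := div_nonneg (by linarith [hL i1 hi1.1]) hi1.2.le
  have hfe : Feas P f η (L + σ • ψ) := by
    intro i hi
    simp only [LinearMap.add_apply, LinearMap.smul_apply, smul_eq_mul]
    rcases le_or_gt (ψ (f i)) 0 with h | h
    · have := hL i hi
      nlinarith
    · have h1 := hmin i (by simp [hi, h])
      have h2 : σ * ψ (f i) ≤ (η i - L (f i)) / ψ (f i) * ψ (f i) :=
        mul_le_mul_of_nonneg_right h1 h.le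
      rw [div_mul_cancel₀ _ h.ne'] at h2
      linarith
  refine ⟨L + σ • ψ, hfe, ?_, ?_⟩
  · simp only [LinearMap.add_apply, LinearMap.smul_apply, smul_eq_mul]
    nlinarith
  · apply Submodule.finrank_lt_finrank_of_lt
    rw [SetLike.lt_iff_le_and_exists]
    refine ⟨?_, f i1, ?_, ?_⟩
    · apply Submodule.span_mono
      apply Set.image_mono
      intro i hi
      rw [mem_coe, mem_tight] at hi ⊢
      refine ⟨hi.1, ?_⟩
      have : ψ (f i) = 0 := hψ _ (Submodule.subset_span ⟨i, mem_coe.2 (mem_tight.2 hi), rfl⟩)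
      simp [this, hi.2]
    · apply Submodule.subset_span
      refine ⟨i1, ?_, rfl⟩
      rw [mem_coe, mem_tight]
      refine ⟨hi1.1, ?_⟩
      simp only [LinearMap.add_apply, LinearMap.smul_apply, smul_eq_mul, hσ]
      rw [div_mul_cancel₀ _ hi1.2.ne']
      ring
    · intro h
      have := hψ _ h
      linarith [hi1.2]

lemma lift_all [FiniteDimensional ℚ W] (hspan : Submodule.span ℚ (f '' (P : Set ι)) = ⊤) (x : W)
    (hx : InCone P f x) : ∀ (n : ℕ) (L : Dual ℚ W), Feas P f η L →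
    finrank ℚ W ≤ finrank ℚ (Submodule.span ℚ (f '' (tight P f η L : Set ι))) + n →
    ∃ L', IsVert P f η L' ∧ L x ≤ L' x := by
  intro n
  induction n with
  | zero =>
    intro L hL hn
    refine ⟨L, ⟨hL, ?_⟩, le_refl _⟩
    apply Submodule.eq_top_of_finrank_eq
    apply le_antisymm (Submodule.finrank_le _)
    simpa using hn
  | succ n ih =>
    intro L hL hn
    by_cases h : Submodule.span ℚ (f '' (tight P f η L : Set ι)) = ⊤
    · exact ⟨L, ⟨hL, h⟩, le_refl _⟩
    · obtain ⟨L1, h1, h2, h3⟩ := lift_step hspan x hx L hL h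
      obtain ⟨L2, h4, h5⟩ := ih L1 h1 (by omega)
      exact ⟨L2, h4, h2.trans h5⟩

lemma lifting [FiniteDimensional ℚ W] (hspan : Submodule.span ℚ (f '' (P : Set ι)) = ⊤) (x : W)
    (hx : InCone P f x) (L : Dual ℚ W) (hL : Feas P f η L) :
    ∃ L', IsVert P f η L' ∧ L x ≤ L' x :=
  lift_all hspan x hx (finrank ℚ W) L hL (by omega)

lemma finite_vert : Set.Finite {L : Dual ℚ W | IsVert P f η L} := by
  apply Set.Finite.of_finite_image (f := fun L => tight P f η L)
  · apply (P.powerset.finite_toSet).subset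
    rintro _ ⟨L, _, rfl⟩
    exact mem_coe.2 (mem_powerset.2 (filter_subset _ _))
  · intro L hL L' hL' h
    simp only at h
    apply LinearMap.ext_on (s := f '' (tight P f η L : Set ι)) hL.2
    rintro _ ⟨i, hi, rfl⟩
    rw [mem_coe] at hi
    have h1 := (mem_tight.1 hi).2
    rw [h] at hi
    rw [h1, (mem_tight.1 hi).2]

/-- generic heights: every tight set is linearly independent -/
def Generic (P : Finset ι) (f : ι → W) (η : ι → ℚ) : Prop :=
  ∀ L : Dual ℚ W, LinearIndepOn ℚ f (tight P f η L : Set ι)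

lemma exists_generic (P : Finset ι) (f : ι → W) : ∃ η : ι → ℚ, Generic P f η := by
  classical
  have h1 : ∀ T : Finset ι, ¬ LinearIndepOn ℚ f (T : Set ι) → ∃ c : ι → ℚ,
      ∑ i ∈ T, c i • f i = 0 ∧ ∃ i ∈ T, c i ≠ 0 := by
    intro T hT
    rw [linearIndepOn_finset_iff] at hT
    push Not at hT
    obtain ⟨c, h1, i, h2, h3⟩ := hT
    exact ⟨c, h1, i, h2, h3⟩
  choose! c hc using h1
  let H : Finset ι → Submodule ℚ (ι → ℚ) := fun T =>
    LinearMap.ker (∑ i ∈ T, c T i • (LinearMap.proj i : (ι → ℚ) →ₗ[ℚ] ℚ))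
  have hH : ∀ T η, η ∈ H T ↔ ∑ i ∈ T, c T i * η i = 0 := by
    intro T η
    simp [H, LinearMap.mem_ker]
  have h2 : ∀ T : Finset ι, ¬ LinearIndepOn ℚ f (T : Set ι) → H T ≠ ⊤ := by
    intro T hT htop
    obtain ⟨_, i, hi, hci⟩ := hc T hT
    have : Pi.single i 1 ∈ H T := by rw [htop]; trivial
    rw [hH, Finset.sum_eq_single i] at this
    · simp [hci] at this
    · intro j _ hj
      simp [hj]
    · intro h; exact absurd hi h
  have h3 := Subspace.biUnion_ne_univ_of_top_notMem (k := ℚ) (E := ι → ℚ)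
    (s := (P.powerset.filter (fun T : Finset ι => ¬ LinearIndepOn ℚ f (T : Set ι))).image H) (by
      intro h
      obtain ⟨T, hT, hT2⟩ := mem_image.1 h
      exact h2 T (mem_filter.1 hT).2 hT2)
  rw [Ne, Set.eq_univ_iff_forall] at h3
  push Not at h3
  obtain ⟨η, hη⟩ := h3
  refine ⟨η, fun L => ?_⟩
  by_contra hL
  apply hη
  simp only [Set.mem_iUnion]
  refine ⟨H (tight P f η L), mem_image_of_mem _ (mem_filter.2 ⟨?_, hL⟩), ?_⟩
  · exact mem_powerset.2 (filter_subset _ _)
  · change η ∈ H _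
    rw [hH]
    have h4 := (hc _ hL).1
    have h5 := congrArg L h4
    rw [map_zero, map_sum] at h5
    rw [← h5]
    refine Finset.sum_congr rfl fun i hi => ?_
    rw [map_smul, smul_eq_mul, (mem_tight.1 hi).2]

/-- strong duality -/
theorem exists_vert_rep [FiniteDimensional ℚ W]
    (hspan : Submodule.span ℚ (f '' (P : Set ι)) = ⊤) (hgen : Generic P f η)
    (L0 : Dual ℚ W) (hL0 : Feas P f η L0) (x : W) (hx : InCone P f x) :
    ∃ L, IsVert P f η L ∧ ∃ c : ι → ℚ, (∀ i ∈ tight P f η L, 0 ≤ c i) ∧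
      x = ∑ i ∈ tight P f η L, c i • f i := by
  obtain ⟨L1, hL1, -⟩ := lifting hspan x hx L0 hL0
  obtain ⟨L, hL, hmax⟩ := Set.exists_max_image _ (fun L : Dual ℚ W => L x)
    (finite_vert (P := P) (f := f) (η := η)) ⟨L1, hL1⟩
  have hmax' : ∀ L', Feas P f η L' → L' x ≤ L x := by
    intro L' hL'
    obtain ⟨L2, h1, h2⟩ := lifting hspan x hx L' hL'
    exact h2.trans (hmax L2 h1)
  refine ⟨L, hL, ?_⟩
  set T := tight P f η L with hT
  let b : Basis (T : Set ι) ℚ W := Basis.mk (hgen L) (by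
    rw [← hL.2]
    apply Submodule.span_mono
    rintro _ ⟨i, hi, rfl⟩
    exact ⟨⟨i, hi⟩, rfl⟩)
  have hb : ∀ i : (T : Set ι), b i = f i := fun i => by simp [b]
  have hnn : ∀ i : (T : Set ι), 0 ≤ b.repr x i := by
    intro q
    by_contra hneg
    push Not at hneg
    obtain ⟨ε, hε, hε2⟩ := exists_eps (P.filter (fun i => L (f i) ≠ η i))
      (fun i => η i - L (f i)) (fun i => - b.coord q (f i)) (by
        intro i hi
        rw [mem_filter] at hi
        have := hL.1 i hi.1
        have := lt_of_le_of_ne this hi.2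
        linarith)
    have hfe : Feas P f η (L - ε • b.coord q) := by
      intro i hi
      simp only [LinearMap.sub_apply, LinearMap.smul_apply, smul_eq_mul]
      by_cases h : L (f i) = η i
      · have hiT : i ∈ (T : Set ι) := mem_coe.2 (mem_tight.2 ⟨hi, h⟩)
        have : b.coord q (f i) = if (⟨i, hiT⟩ : (T : Set ι)) = q then 1 else 0 := by
          rw [← hb ⟨i, hiT⟩, Basis.coord_apply, Basis.repr_self, Finsupp.single_apply]
        rw [this]
        split_ifs
        · linarith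
        · linarith
      · have := hε2 i (mem_filter.2 ⟨hi, h⟩)
        linarith
    have h1 := hmax' _ hfe
    simp only [LinearMap.sub_apply, LinearMap.smul_apply, smul_eq_mul, Basis.coord_apply] at h1
    nlinarith
  refine ⟨fun i => if h : i ∈ (T : Set ι) then b.repr x ⟨i, h⟩ else 0, ?_, ?_⟩
  · intro i hi
    beta_reduce
    rw [dif_pos (mem_coe.2 hi)]
    exact hnn _
  · have h1 := b.sum_repr x
    conv_lhs => rw [← h1]
    rw [← Finset.sum_coe_sort T]
    refine Finset.sum_congr rfl fun i _ => ?_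
    beta_reduce
    rw [dif_pos (mem_coe.2 i.2), hb]

/-- uniqueness of the carrier face -/
theorem carrier_unique (hgen : Generic P f η) {L L' : Dual ℚ W} (hL : Feas P f η L)
    (hL' : Feas P f η L') {F F' : Finset ι} (hF : F ⊆ tight P f η L) (hF' : F' ⊆ tight P f η L')
    {c c' : ι → ℚ} (hc : ∀ i ∈ F, 0 < c i) (hc' : ∀ i ∈ F', 0 < c' i)
    (heq : ∑ i ∈ F, c i • f i = ∑ i ∈ F', c' i • f i) : F = F' := by
  have key : ∀ {L L' : Dual ℚ W}, Feas P f η L → Feas P f η L' →
      ∀ {F F' : Finset ι}, F ⊆ tight P f η L → F' ⊆ tight P f η L' → ∀ {c c' : ι → ℚ},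
      (∀ i ∈ F, 0 < c i) → (∀ i ∈ F', 0 < c' i) →
      (∑ i ∈ F, c i • f i = ∑ i ∈ F', c' i • f i) → L' (∑ i ∈ F, c i • f i) ≤
        L (∑ i ∈ F, c i • f i) := by
    intro L L' hL hL' F F' hF hF' c c' hc hc' heq
    rw [map_sum, map_sum]
    refine Finset.sum_le_sum fun i hi => ?_
    rw [map_smul, map_smul, smul_eq_mul, smul_eq_mul]
    apply mul_le_mul_of_nonneg_left _ (hc i hi).le
    have := mem_tight.1 (hF hi)
    rw [this.2]
    exact hL' i this.1
  have h1 := key hL hL' hF hF' hc hc' heq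
  have h2 := key hL' hL hF' hF hc' hc heq.symm
  rw [← heq] at h2
  have h3 : L' (∑ i ∈ F, c i • f i) = L (∑ i ∈ F, c i • f i) := le_antisymm h1 h2
  have hFT : F ⊆ tight P f η L' := by
    rw [map_sum, map_sum] at h3
    have h4 : ∀ i ∈ F, L' (c i • f i) ≤ L (c i • f i) := by
      intro i hi
      rw [map_smul, map_smul, smul_eq_mul, smul_eq_mul]
      apply mul_le_mul_of_nonneg_left _ (hc i hi).le
      have := mem_tight.1 (hF hi)
      rw [this.2]
      exact hL' i this.1
    have h5 := (Finset.sum_eq_sum_iff_of_le h4).1 h3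
    intro i hi
    have h6 := h5 i hi
    rw [map_smul, map_smul, smul_eq_mul, smul_eq_mul] at h6
    have h7 := mul_left_cancel₀ (hc i hi).ne' h6
    have := mem_tight.1 (hF hi)
    rw [mem_tight]
    exact ⟨this.1, by rw [h7, this.2]⟩
  -- compare coefficients
  have hli := hgen L'
  rw [linearIndepOn_finset_iff] at hli
  have h8 : ∑ i ∈ tight P f η L', ((if i ∈ F then c i else 0) - (if i ∈ F' then c' i else 0)) •
      f i = 0 := by
    simp only [sub_smul, Finset.sum_sub_distrib, ite_smul, zero_smul]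
    rw [← Finset.sum_filter, ← Finset.sum_filter]
    rw [Finset.filter_mem_eq_inter, Finset.filter_mem_eq_inter,
      Finset.inter_eq_right.2 hFT, Finset.inter_eq_right.2 hF', heq, sub_self]
  have h9 := hli _ h8
  ext i
  constructor
  · intro hi
    by_contra hi'
    have := h9 i (hFT hi)
    rw [if_pos hi, if_neg hi'] at this
    have := hc i hi
    linarith
  · intro hi
    by_contra hi'
    have := h9 i (hF' hi)
    rw [if_neg hi', if_pos hi] at this
    have := hc' i hi
    linarith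

end LP

end Pool.Agent.H35
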