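import Pool.Agent.H35.Tau

namespace Pool.Agent.H35

open scoped Pointwise
open Finset

/-- Macaulay-type isoperimetric property in dimension `r`. -/
def Mac {G : Type*} [AddCommGroup G] [DecidableEq G] (r : ℕ) (E : Finset G) : Prop :=
  ∀ X : Finset G, X.card + tau r X.card ≤ (X + E).card

lemma mac_zero {G : Type*} [AddCommGroup G] [DecidableEq G] : Mac 0 ({0} : Finset G) := by
  intro X
  simp [tau_zero_left]

/-- induction step -/
lemma mac_step {G H : Type*} [AddCommGroup G] [DecidableEq G] [AddCommGroup H] [DecidableEq H]
    (r : ℕ) (π : G →+ H) (κ : G →+ ℤ) (hinj : ∀ x y, π x = π y → κ x = κ y → x = y)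
    (E0 : Finset G) (e : G) (h0 : (0 : G) ∈ E0) (hE0 : ∀ x ∈ E0, κ x = 0)
    (hπe : π e = 0) (hκe : κ e = 1) (hM : Mac r (E0.image π)) :
    Mac (r + 1) (insert e E0) := by
  classical
  intro X
  induction hn : X.card using Nat.strong_induction_on generalizing X with
  | _ n ih =>
    subst hn
    rcases X.eq_empty_or_nonempty with hX | hX
    · subst hX; simp [tau_zero_right]
    have hXpos : 1 ≤ X.card := hX.card_pos
    obtain ⟨x0, hx0, hmin⟩ := X.exists_min_image κ hX
    set X0 := X.filter (fun x => κ x = κ x0) with hX0
    have hX0X : X0 ⊆ X := filter_subset _ _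
    have hx0X0 : x0 ∈ X0 := by simp [hX0, hx0]
    have hX0pos : 1 ≤ X0.card := Finset.card_pos.2 ⟨x0, hx0X0⟩
    have hX0card : X0.card ≤ X.card := card_le_card hX0X
    -- projection is injective on X0
    have hinj0 : (X0.image π).card = X0.card := by
      apply card_image_of_injOn
      intro a ha b hb hab
      have ha' : κ a = κ x0 := by simpa [hX0] using (mem_filter.1 ha).2
      have hb' : κ b = κ x0 := by simpa [hX0] using (mem_filter.1 hb).2
      exact hinj a b hab (by rw [ha', hb'])
    -- peeling
    have hA : (X0.card + tau r X0.card) + ((X \ X0).card + tau (r + 1) (X \ X0).card) ≤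
        (X + insert e E0).card := by
      have h1 : X0.card + tau r X0.card ≤ (X0 + E0).card := by
        have := hM (X0.image π)
        rw [hinj0, ← Finset.image_add] at this
        exact this.trans card_image_le
      have h2 : (X \ X0).card + tau (r + 1) (X \ X0).card ≤ ((X \ X0) + insert e E0).card := by
        apply ih (X \ X0).card _ (X \ X0) rfl
        rw [card_sdiff_of_subset hX0X]
        omega
      have hdisj : Disjoint (X0 + E0) ((X \ X0) + insert e E0) := by
        rw [Finset.disjoint_left]
        intro z hz1 hz2
        obtain ⟨a, ha, b, hb, hab⟩ := Finset.mem_add.1 hz1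
        obtain ⟨c, hc, d, hd, hcd⟩ := Finset.mem_add.1 hz2
        have k1 : κ z = κ x0 := by
          rw [← hab, map_add, hE0 b hb, add_zero]
          simpa [hX0] using (mem_filter.1 ha).2
        have k2 : κ x0 < κ c := by
          rw [mem_sdiff] at hc
          have h3 := hmin c hc.1
          have h4 : κ c ≠ κ x0 := fun h => hc.2 (by simp [hX0, hc.1, h])
          omega
        have k3 : 0 ≤ κ d := by
          rw [mem_insert] at hd
          rcases hd with rfl | hd
          · rw [hκe]; norm_num
          · rw [hE0 d hd]
        rw [← hcd, map_add] at k1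
        omega
      have hsub : (X0 + E0) ∪ ((X \ X0) + insert e E0) ⊆ X + insert e E0 := by
        apply union_subset
        · exact add_subset_add hX0X (subset_insert _ _)
        · exact add_subset_add_right sdiff_subset
      have := card_le_card hsub
      rw [card_union_of_disjoint hdisj] at this
      omega
    -- projecting
    have hB : X.card + ((X.image π).card + tau r (X.image π).card) ≤ (X + insert e E0).card := by
      have hXsub : X ⊆ X + insert e E0 := by
        intro x hx
        exact Finset.mem_add.2 ⟨x, hx, 0, mem_insert_of_mem h0, add_zero x⟩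
      have h1 : (X + insert e E0).image π ⊆ ((X + insert e E0) \ X).image π := by
        intro h hh
        obtain ⟨y, hy, hyh⟩ := mem_image.1 hh
        -- take the element of the fibre maximising κ
        set Fb := (X + insert e E0).filter (fun z => π z = h) with hFb
        have hyF : y ∈ Fb := by simp [hFb, hy, hyh]
        obtain ⟨z, hz, hzmax⟩ := Fb.exists_max_image κ ⟨y, hyF⟩
        have hz' : z ∈ X + insert e E0 ∧ π z = h := by simpa [hFb] using hz
        refine mem_image.2 ⟨z, mem_sdiff.2 ⟨hz'.1, fun hzX => ?_⟩, hz'.2⟩
        have hze : z + e ∈ Fb := by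
          simp only [hFb, mem_filter, map_add, hπe, add_zero, hz'.2, and_true]
          exact Finset.mem_add.2 ⟨z, hzX, e, mem_insert_self _ _, rfl⟩
        have := hzmax _ hze
        rw [map_add, hκe] at this
        omega
      have h2 : (X + insert e E0).image π = X.image π + E0.image π := by
        rw [Finset.image_add, image_insert, hπe, insert_eq_of_mem]
        exact mem_image.2 ⟨0, h0, map_zero π⟩
      have h3 := hM (X.image π)
      have h4 : ((X + insert e E0).image π).card ≤ ((X + insert e E0) \ X).card :=
        (card_le_card h1).trans card_image_le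
      rw [h2] at h4
      rw [card_sdiff_of_subset hXsub] at h4
      have h5 := card_le_card hXsub
      omega
    have hp : X0.card ≤ (X.image π).card := by
      rw [← hinj0]
      exact card_le_card (image_subset_image hX0X)
    have hmono := tau_mono r hp
    have hsd : (X \ X0).card = X.card - X0.card := card_sdiff_of_subset hX0X
    rcases tau_AB r X.card X0.card hXpos with h | h
    · rw [hsd] at hA
      omega
    · omega

/-- the standard simplex in `ℤ^r` -/
def Es (r : ℕ) : Finset (Fin r → ℤ) :=
  insert 0 (Finset.univ.image (fun i : Fin r => (Pi.single i (1 : ℤ) : Fin r → ℤ)))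

/-- tail as a homomorphism -/
def tailHom (r : ℕ) : (Fin (r + 1) → ℤ) →+ (Fin r → ℤ) where
  toFun x := fun i => x i.succ
  map_zero' := rfl
  map_add' _ _ := rfl

lemma Es_succ (r : ℕ) : Es (r + 1) = insert (Pi.single 0 (1 : ℤ))
    (insert 0 (Finset.univ.image (fun i : Fin r => (Pi.single i.succ (1 : ℤ) : Fin (r + 1) → ℤ)))) := by
  rw [Finset.insert_comm]
  unfold Es
  congr 1
  ext x
  simp only [mem_image, mem_univ, true_and, mem_insert]
  constructor
  · rintro ⟨i, rfl⟩
    rcases Fin.eq_zero_or_eq_succ i with h | ⟨j, rfl⟩
    · left; rw [h]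
    · right; exact ⟨j, rfl⟩
  · rintro (rfl | ⟨j, rfl⟩)
    · exact ⟨0, rfl⟩
    · exact ⟨j.succ, rfl⟩

theorem mac_std (r : ℕ) : Mac r (Es r) := by
  induction r with
  | zero =>
    have : Es 0 = {0} := by
      unfold Es
      simp
    rw [this]
    exact mac_zero
  | succ r ih =>
    rw [Es_succ]
    refine mac_step r (tailHom r) (Pi.evalAddMonoidHom (fun _ => ℤ) 0) ?_ _ _
      (mem_insert_self _ _) ?_ ?_ ?_ ?_
    · intro x y h1 h2
      ext i
      rcases Fin.eq_zero_or_eq_succ i with h | ⟨j, rfl⟩
      · rw [h]; exact h2
      · exact congrFun h1 j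
    · intro x hx
      simp only [mem_insert, mem_image, mem_univ, true_and] at hx
      rcases hx with rfl | ⟨i, rfl⟩
      · rfl
      · simp [Pi.evalAddMonoidHom]
    · ext i
      simp [tailHom]
    · simp [Pi.evalAddMonoidHom]
    · have : (insert 0 (Finset.univ.image
          (fun i : Fin r => (Pi.single i.succ (1 : ℤ) : Fin (r + 1) → ℤ)))).image (tailHom r) = Es r := by
        rw [image_insert, map_zero, image_image]
        unfold Es
        congr 2
        funext i
        ext j
        simp [tailHom, Pi.single_apply]
      rw [this]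
      exact ih

end Pool.Agent.H35
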