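import Mathlib

namespace Pool.Agent.H35

open scoped Pointwise
open Finset

section
variable {V : Type*} [AddCommGroup V] [DecidableEq V] (B : Finset V)

/-- size of the boundary -/
def bd (A : Finset V) : ℕ := ((A + B) \ A).card

lemma trans_bound_base (b : V) (hb : b ∈ B) (A : Finset V) :
    (A.filter (fun x => x + b ∉ A)).card ≤ bd B A := by
  unfold bd
  refine card_le_card_of_injOn (fun x => x + b) ?_ (fun x _ y _ h => add_right_cancel h)
  intro x hx
  have hx' := mem_filter.1 (mem_coe.1 hx)
  simp only [coe_sdiff, Set.mem_sdiff, mem_coe]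
  exact ⟨Finset.mem_add.2 ⟨x, hx'.1, b, hb, rfl⟩, hx'.2⟩

lemma card_neg_eq (A : Finset V) (g : V) :
    (A.filter (fun x => x + -g ∉ A)).card = (A.filter (fun x => x + g ∉ A)).card := by
  have h1 : (A.filter (fun x => x + -g ∈ A)).card = (A.filter (fun x => x + g ∈ A)).card := by
    refine card_bij (fun x _ => x + -g) ?_ ?_ ?_
    · intro x hx
      have hx' := mem_filter.1 hx
      simp only [mem_filter]
      refine ⟨hx'.2, ?_⟩
      simpa using hx'.1
    · intro x _ y _ h
      exact add_right_cancel h
    · intro y hy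
      have hy' := mem_filter.1 hy
      refine ⟨y + g, ?_, by simp⟩
      simp only [mem_filter]
      refine ⟨hy'.2, ?_⟩
      simpa using hy'.1
  have h2 := card_filter_add_card_filter_not (s := A) (fun x => x + -g ∈ A)
  have h3 := card_filter_add_card_filter_not (s := A) (fun x => x + g ∈ A)
  omega

lemma trans_bound (hB : AddSubgroup.closure (B : Set V) = ⊤) (g : V) :
    ∃ C : ℕ, ∀ A : Finset V, (A.filter (fun x => x + g ∉ A)).card ≤ C * bd B A := by
  have hg : g ∈ AddSubgroup.closure (B : Set V) := by rw [hB]; exact AddSubgroup.mem_top g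
  induction hg using AddSubgroup.closure_induction with
  | mem b hb =>
    exact ⟨1, fun A => by rw [one_mul]; exact trans_bound_base B b (mem_coe.1 hb) A⟩
  | zero =>
    refine ⟨0, fun A => ?_⟩
    simp only [add_zero, zero_mul, Nat.le_zero, card_eq_zero]
    rw [filter_eq_empty_iff]
    intro x hx; simpa using hx
  | add x y _ _ ihx ihy =>
    obtain ⟨C, hC⟩ := ihx
    obtain ⟨D, hD⟩ := ihy
    refine ⟨C + D, fun A => ?_⟩
    have hsub : (A.filter (fun z => z + (x + y) ∉ A)).card ≤
        (A.filter (fun z => z + x ∉ A)).card + (A.filter (fun z => z + y ∉ A)).card := by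
      have : A.filter (fun z => z + (x + y) ∉ A) ⊆
          (A.filter (fun z => z + x ∉ A)) ∪
            ((A.filter (fun z => z + y ∉ A)).image (fun z => z - x)) := by
        intro z hz
        have hz' := mem_filter.1 hz
        rw [mem_union]
        by_cases h : z + x ∈ A
        · right
          refine mem_image.2 ⟨z + x, mem_filter.2 ⟨h, ?_⟩, by simp⟩
          rw [add_assoc]; exact hz'.2
        · left; exact mem_filter.2 ⟨hz'.1, h⟩
      refine (card_le_card this).trans ((card_union_le _ _).trans ?_)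
      exact Nat.add_le_add_left card_image_le _
    have := hC A
    have := hD A
    rw [add_mul]
    omega
  | neg x _ ih =>
    obtain ⟨C, hC⟩ := ih
    exact ⟨C, fun A => by rw [card_neg_eq]; exact hC A⟩

lemma exists_ne_zero (hB : AddSubgroup.closure (B : Set V) = ⊤) (l : V →+ ℤ) (hl : l ≠ 0) :
    ∃ b ∈ B, l b ≠ 0 := by
  by_contra h
  push Not at h
  apply hl
  have h1 : AddSubgroup.closure (B : Set V) ≤ l.ker := by
    rw [AddSubgroup.closure_le]
    intro b hb
    exact h b hb
  rw [hB] at h1
  ext x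
  exact h1 (AddSubgroup.mem_top x)

lemma hyper_bound (hB : AddSubgroup.closure (B : Set V) = ⊤) (l : V →+ ℤ) (hl : l ≠ 0)
    (A : Finset V) (v : ℤ) : (A.filter (fun x => l x = v)).card ≤ bd B A := by
  classical
  obtain ⟨b, hbB, hb⟩ := exists_ne_zero B hB l hl
  -- exit time
  have hex : ∀ x : V, ∃ k : ℕ, x + (k + 1) • b ∉ A := by
    intro x
    by_contra h
    push Not at h
    have hinj : Function.Injective (fun k : ℕ => x + (k + 1) • b) := by
      intro j k hjk
      have h1 := congrArg l hjk
      simp only [map_add, map_nsmul, nsmul_eq_mul, add_right_inj, mul_eq_mul_right_iff] at h1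
      rcases h1 with h1 | h1
      · push_cast at h1; omega
      · exact absurd h1 hb
    exact (Set.infinite_range_of_injective hinj) (A.finite_toSet.subset (by
      rintro _ ⟨k, rfl⟩
      exact mem_coe.2 (h k)))
  let k : V → ℕ := fun x => Nat.find (hex x)
  have hk1 : ∀ x, x + (k x + 1) • b ∉ A := fun x => Nat.find_spec (hex x)
  have hk2 : ∀ x ∈ A, x + (k x) • b ∈ A := by
    intro x hx
    rcases Nat.eq_zero_or_pos (k x) with h | h
    · rw [h]; simpa using hx
    · have := Nat.find_min (hex x) (m := k x - 1) (by simp only [k] at h ⊢; omega)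
      push Not at this
      rwa [show k x - 1 + 1 = k x by omega] at this
  unfold bd
  refine card_le_card_of_injOn (fun x => x + (k x + 1) • b) ?_ ?_
  · intro x hx
    have hx' := mem_filter.1 (mem_coe.1 hx)
    simp only [coe_sdiff, Set.mem_sdiff, mem_coe]
    refine ⟨Finset.mem_add.2 ⟨x + k x • b, hk2 x hx'.1, b, hbB, ?_⟩, hk1 x⟩
    rw [add_assoc, succ_nsmul]
  · intro x hx y hy hxy
    have hx' := mem_filter.1 (mem_coe.1 hx)
    have hy' := mem_filter.1 (mem_coe.1 hy)
    have h1 := congrArg l hxy
    simp only [map_add, map_nsmul, nsmul_eq_mul, hx'.2, hy'.2, add_right_inj,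
      mul_eq_mul_right_iff] at h1
    have h2 : k x = k y := by
      rcases h1 with h1 | h1
      · push_cast at h1; omega
      · exact absurd h1 hb
    simp only [h2] at hxy
    exact add_right_cancel hxy

end

section balanced
variable {V : Type*} {m : ℕ}

/-- strict dominance region -/
def strictSet (A : Finset V) (s : Fin m → V → ℤ) (ω : Fin m → ℤ) (j : Fin m) : Finset V :=
  A.filter (fun x => ∀ i, i ≠ j → s i x + ω i < s j x + ω j)

/-- An integral balanced power diagram. -/
theorem balanced (A : Finset V) (s : Fin m → V → ℤ) (n : Fin m → ℕ) (hm : 0 < m)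
    (hn : ∑ j, n j = A.card) :
    ∃ ω : Fin m → ℤ, ∀ j, (strictSet A s ω j).card ≤ n j := by
  classical
  have : Nonempty (Fin m) := ⟨⟨0, hm⟩⟩
  let mx : (Fin m → ℤ) → V → ℤ := fun ω x =>
    Finset.univ.sup' Finset.univ_nonempty (fun j => s j x + ω j)
  let Φ : (Fin m → ℤ) → ℤ := fun ω => ∑ x ∈ A, mx ω x - ∑ j, (n j : ℤ) * ω j
  -- an assignment
  obtain ⟨π, hπ⟩ : ∃ π : V → Fin m, ∀ j, (A.filter (fun x => π x = j)).card = n j := by
    have hcard : Fintype.card (Σ j : Fin m, Fin (n j)) = Fintype.card A := by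
      simp [hn]
    let e : A ≃ (Σ j : Fin m, Fin (n j)) := (Fintype.equivOfCardEq hcard).symm
    refine ⟨fun x => if h : x ∈ A then (e ⟨x, h⟩).1 else ⟨0, hm⟩, fun j => ?_⟩
    have : (A.filter (fun x => (if h : x ∈ A then (e ⟨x, h⟩).1 else ⟨0, hm⟩) = j)).card =
        (Finset.univ : Finset (Fin (n j))).card := by
      symm
      refine card_bij (fun k _ => ((e.symm ⟨j, k⟩ : A) : V)) ?_ ?_ ?_
      · intro k _
        simp only [mem_filter]
        refine ⟨(e.symm ⟨j, k⟩).2, ?_⟩
        rw [dif_pos (e.symm ⟨j, k⟩).2]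
        simp
      · intro k _ k' _ h
        have h1 := Subtype.ext h
        have h2 := e.symm.injective h1
        simpa using h2
      · intro x hx
        obtain ⟨hxA, hx2⟩ := mem_filter.1 hx
        rw [dif_pos hxA] at hx2
        subst hx2
        refine ⟨(e ⟨x, hxA⟩).2, mem_univ _, ?_⟩
        have : (⟨(e ⟨x, hxA⟩).1, (e ⟨x, hxA⟩).2⟩ : Σ j : Fin m, Fin (n j)) = e ⟨x, hxA⟩ := rfl
        rw [this, e.symm_apply_apply]
    rw [this, card_univ, Fintype.card_fin]
  have hlow : ∀ ω, ∑ x ∈ A, s (π x) x ≤ Φ ω := by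
    intro ω
    have h1 : ∑ x ∈ A, (s (π x) x + ω (π x)) ≤ ∑ x ∈ A, mx ω x :=
      Finset.sum_le_sum fun x _ =>
        Finset.le_sup' (fun j => s j x + ω j) (Finset.mem_univ (π x))
    have h2 : ∑ x ∈ A, ω (π x) = ∑ j, (n j : ℤ) * ω j := by
      rw [← Finset.sum_fiberwise_of_maps_to (s := A) (t := Finset.univ) (g := π)
        (fun x _ => Finset.mem_univ _)]
      refine Finset.sum_congr rfl fun j _ => ?_
      rw [← hπ j]
      rw [Finset.sum_congr rfl (g := fun _ => ω j) (fun x hx => by rw [(mem_filter.1 hx).2])]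
      simp
    rw [Finset.sum_add_distrib, h2] at h1
    simp only [Φ]
    linarith
  -- minimiser
  obtain ⟨ω, hω⟩ : ∃ ω, ∀ ω', Φ ω ≤ Φ ω' := by
    set c := ∑ x ∈ A, s (π x) x
    let F : (Fin m → ℤ) → ℕ := fun ω => (Φ ω - c).toNat
    obtain ⟨ω, -, hω⟩ := WellFounded.has_min (measure F).wf Set.univ ⟨0, trivial⟩
    refine ⟨ω, fun ω' => ?_⟩
    have h1 := hω ω' trivial
    change ¬ (F ω' < F ω) at h1
    have h2 := hlow ω
    have h3 := hlow ω'
    simp only [F] at h1
    omega
  refine ⟨ω, fun j => ?_⟩
  have h1 := hω (Function.update ω j (ω j - 1))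
  simp only [Φ] at h1
  have h2 : ∑ i, (n i : ℤ) * (Function.update ω j (ω j - 1)) i =
      ∑ i, (n i : ℤ) * ω i - n j := by
    have : ∀ i, (n i : ℤ) * (Function.update ω j (ω j - 1)) i =
        (n i : ℤ) * ω i - (if i = j then (n j : ℤ) else 0) := by
      intro i
      by_cases h : i = j
      · subst h; simp; ring
      · simp [h]
    simp_rw [this]
    rw [Finset.sum_sub_distrib]
    simp
  have h3 : ∑ x ∈ A, mx (Function.update ω j (ω j - 1)) x ≤
      ∑ x ∈ A, mx ω x - (strictSet A s ω j).card := by
    have h4 : ∀ x ∈ A, mx (Function.update ω j (ω j - 1)) x ≤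
        mx ω x - (if (∀ i, i ≠ j → s i x + ω i < s j x + ω j) then 1 else 0) := by
      intro x _
      apply Finset.sup'_le
      intro i _
      have h5 : s i x + ω i ≤ mx ω x := Finset.le_sup' (fun j => s j x + ω j) (Finset.mem_univ i)
      have h6 : s j x + ω j ≤ mx ω x := Finset.le_sup' (fun j => s j x + ω j) (Finset.mem_univ j)
      by_cases hij : i = j
      · subst hij
        simp only [Function.update_self]
        split_ifs <;> linarith
      · rw [Function.update_of_ne hij]
        split_ifs with h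
        · have := h i hij
          linarith
        · linarith
    have h5 := Finset.sum_le_sum h4
    rw [Finset.sum_sub_distrib] at h5
    refine h5.trans (le_of_eq ?_)
    congr 1
    unfold strictSet
    rw [Finset.card_filter]
    push_cast
    rfl
  rw [h2] at h1
  have : ((strictSet A s ω j).card : ℤ) ≤ n j := by linarith
  exact_mod_cast this

end balanced

end Pool.Agent.H35
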