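import Mathlib

open Quaternion MvPolynomial

namespace Pool.Agent.H35

section ring
variable {R : Type*} [CommRing R]

/-- constructor for quaternions -/
def mkQ (a b c d : R) : ℍ[R] := ⟨a, b, c, d⟩

@[simp] lemma mkQ_re (a b c d : R) : (mkQ a b c d).re = a := rfl
@[simp] lemma mkQ_imI (a b c d : R) : (mkQ a b c d).imI = b := rfl
@[simp] lemma mkQ_imJ (a b c d : R) : (mkQ a b c d).imJ = c := rfl
@[simp] lemma mkQ_imK (a b c d : R) : (mkQ a b c d).imK = d := rfl

/-- Functoriality of quaternions over commutative rings. -/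
def qmap {S : Type*} [CommRing S] (f : R →+* S) : ℍ[R] →+* ℍ[S] where
  toFun a := mkQ (f a.re) (f a.imI) (f a.imJ) (f a.imK)
  map_one' := by ext <;> simp
  map_mul' a b := by ext <;> simp
  map_zero' := by ext <;> simp
  map_add' a b := by ext <;> simp

@[simp] lemma qmap_re {S : Type*} [CommRing S] (f : R →+* S) (a : ℍ[R]) :
    (qmap f a).re = f a.re := rfl
@[simp] lemma qmap_imI {S : Type*} [CommRing S] (f : R →+* S) (a : ℍ[R]) :
    (qmap f a).imI = f a.imI := rfl
@[simp] lemma qmap_imJ {S : Type*} [CommRing S] (f : R →+* S) (a : ℍ[R]) :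
    (qmap f a).imJ = f a.imJ := rfl
@[simp] lemma qmap_imK {S : Type*} [CommRing S] (f : R →+* S) (a : ℍ[R]) :
    (qmap f a).imK = f a.imK := rfl

/-- `1 + t j` -/
def rr (t : R) : ℍ[R] := mkQ 1 0 t 0

/-- `1 + 2 i` or `1 - 2 i` -/
def uu (b : Bool) : ℍ[R] := mkQ 1 (cond b 2 (-2)) 0 0

/-- conjugate of `1 ± 2 i` -/
def qq (t : R) (b : Bool) : ℍ[R] := rr t * uu b * star (rr t)

lemma star_uu (b : Bool) : star (uu b : ℍ[R]) = uu (!b) := by
  cases b <;> ext <;> simp [uu]

lemma star_qq (t : R) (b : Bool) : star (qq t b) = qq t (!b) := by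
  simp [qq, star_mul, star_uu, mul_assoc]

lemma qmap_rr {S : Type*} [CommRing S] (f : R →+* S) (t : R) : qmap f (rr t) = rr (f t) := by
  ext <;> simp [rr]

lemma qmap_uu {S : Type*} [CommRing S] (f : R →+* S) (b : Bool) : qmap f (uu b) = uu b := by
  have h2 : f 2 = 2 := map_ofNat f 2
  cases b <;> ext <;> simp [uu, h2]

lemma qmap_star {S : Type*} [CommRing S] (f : R →+* S) (a : ℍ[R]) :
    qmap f (star a) = star (qmap f a) := by
  ext <;> simp

lemma qmap_qq {S : Type*} [CommRing S] (f : R →+* S) (t : R) (b : Bool) :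
    qmap f (qq t b) = qq (f t) b := by
  simp [qq, qmap_rr, qmap_uu, qmap_star, map_mul]

/-- word evaluated in quaternions -/
def Qw {ι : Type*} (f : ι → R) (L : List (ι × Bool)) : ℍ[R] :=
  (L.map (fun a => qq (f a.1) a.2)).prod

@[simp] lemma Qw_nil {ι : Type*} (f : ι → R) : Qw f [] = 1 := by simp [Qw]
@[simp] lemma Qw_cons {ι : Type*} (f : ι → R) (a : ι × Bool) (L : List (ι × Bool)) :
    Qw f (a :: L) = qq (f a.1) a.2 * Qw f L := by simp [Qw]

lemma qmap_Qw {S ι : Type*} [CommRing S] (g : R →+* S) (f : ι → R) (L : List (ι × Bool)) :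
    qmap g (Qw f L) = Qw (fun i => g (f i)) L := by
  induction L with
  | nil => simp
  | cons a L ih => simp [qmap_qq, ih]

/-- the element `j` or `1` -/
def vv (b : Bool) : ℍ[R] := cond b (mkQ 0 0 1 0) 1

/-- key collision computation in characteristic 5 -/
lemma collision (h5 : (5 : R) = 0) (s t : R) (b c : Bool) :
    uu b * (star (rr s) * rr t) * uu c =
      (if b = c then 2 * (1 + s * t) else 2 * (t - s)) • (uu b * vv (xor b c) : ℍ[R]) := by
  cases b <;> cases c <;> ext <;> simp [uu, rr, vv] <;> ring_nf <;>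
    first
    | linear_combination (1 + s * t) * h5
    | linear_combination (-(1 + s * t)) * h5
    | linear_combination (t - s) * h5
    | linear_combination (s - t) * h5

lemma vv_mul_vv (b c : Bool) : ∃ e : R, e * e = 1 ∧ (vv b * vv c : ℍ[R]) = e • vv (xor b c) := by
  cases b <;> cases c
  · exact ⟨1, by simp, by simp [vv]⟩
  · exact ⟨1, by simp, by simp [vv]⟩
  · exact ⟨1, by simp, by simp [vv]⟩
  · exact ⟨-1, by simp, by ext <;> simp [vv]⟩

/-- Normal form of a reduced word in characteristic 5. -/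
lemma Qw_normal {ι : Type*} (h5 : (5 : R) = 0) (h2 : (2 : R) ≠ 0) [IsDomain R] (f : ι → R)
    (hf : ∀ s t, 1 + f s * f t ≠ 0) (hf' : ∀ s t, s ≠ t → f s ≠ f t)
    (a : ι × Bool) (L : List (ι × Bool)) (hL : FreeGroup.IsReduced (a :: L)) :
    ∃ (c : R) (e : Bool) (l : ι), c ≠ 0 ∧
      Qw f (a :: L) = c • (rr (f a.1) * (uu a.2 * vv e) * star (rr (f l))) := by
  induction L generalizing a with
  | nil =>
    refine ⟨1, false, a.1, one_ne_zero, ?_⟩
    simp [vv, qq]
  | cons b L ih =>
    rw [FreeGroup.isReduced_cons_cons] at hL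
    obtain ⟨c, e, l, hc, hQ⟩ := ih b hL.2
    rw [Qw_cons, hQ]
    have hcol := collision h5 (f a.1) (f b.1) a.2 b.2
    set k : R := (if a.2 = b.2 then 2 * (1 + f a.1 * f b.1) else 2 * (f b.1 - f a.1)) with hk
    have hk0 : k ≠ 0 := by
      rw [hk]
      split_ifs with h
      · exact mul_ne_zero h2 (hf _ _)
      · refine mul_ne_zero h2 (sub_ne_zero.2 (hf' _ _ ?_))
        intro h'
        exact h (hL.1 h'.symm)
    obtain ⟨u, hu, huv⟩ := vv_mul_vv (R := R) (xor a.2 b.2) e
    refine ⟨c * k * u, xor (xor a.2 b.2) e, l, ?_, ?_⟩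
    · refine mul_ne_zero (mul_ne_zero hc hk0) ?_
      rintro rfl
      simp at hu
    · have : qq (f a.1) a.2 * (c • (rr (f b.1) * (uu b.2 * vv e) * star (rr (f l)))) =
        c • (rr (f a.1) * (uu a.2 * (star (rr (f a.1)) * rr (f b.1)) * uu b.2) *
          vv e * star (rr (f l))) := by
        simp only [qq, mul_smul_comm, mul_assoc]
      rw [this, hcol]
      have h3 : rr (f a.1) * k • (uu a.2 * vv (xor a.2 b.2)) * vv e * star (rr (f l)) =
        k • (rr (f a.1) * (uu a.2 * (vv (xor a.2 b.2) * vv e)) * star (rr (f l))) := by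
        simp only [mul_smul_comm, smul_mul_assoc, mul_assoc]
      rw [h3, huv]
      simp only [mul_smul_comm, smul_mul_assoc, smul_smul]
      congr 1
      ring

lemma star_rr_mul_rr (t : R) : star (rr t) * rr t = ((1 + t * t : R) : ℍ[R]) := by
  ext <;> simp [rr]

lemma smul_eq_zero_aux [IsDomain R] (k : R) (hk : k ≠ 0) (x : ℍ[R]) (hx : k • x = 0) : x = 0 := by
  have e1 : k * x.re = 0 := by
    have := congrArg QuaternionAlgebra.re hx
    simpa using this
  have e2 : k * x.imI = 0 := by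
    have := congrArg QuaternionAlgebra.imI hx
    simpa using this
  have e3 : k * x.imJ = 0 := by
    have := congrArg QuaternionAlgebra.imJ hx
    simpa using this
  have e4 : k * x.imK = 0 := by
    have := congrArg QuaternionAlgebra.imK hx
    simpa using this
  ext
  · simpa using (mul_eq_zero.1 e1).resolve_left hk
  · simpa using (mul_eq_zero.1 e2).resolve_left hk
  · simpa using (mul_eq_zero.1 e3).resolve_left hk
  · simpa using (mul_eq_zero.1 e4).resolve_left hk

lemma Qw_ne_zero {ι : Type*} (h5 : (5 : R) = 0) (h2 : (2 : R) ≠ 0) [IsDomain R] (f : ι → R)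
    (hf : ∀ s t, 1 + f s * f t ≠ 0) (hf' : ∀ s t, s ≠ t → f s ≠ f t)
    (L : List (ι × Bool)) (hL : FreeGroup.IsReduced L) (hL0 : L ≠ []) :
    Qw f L ≠ 0 := by
  cases L with
  | nil => exact absurd rfl hL0
  | cons a L =>
    obtain ⟨c, e, l, hc, hQ⟩ := Qw_normal h5 h2 f hf hf' a L hL
    intro h0
    rw [hQ] at h0
    have h1 : star (rr (f a.1)) * (c • (rr (f a.1) * (uu a.2 * vv e) * star (rr (f l)))) * rr (f l)
        = (c * (1 + f a.1 * f a.1) * (1 + f l * f l)) • (uu a.2 * vv e) := by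
      calc _ = c • ((star (rr (f a.1)) * rr (f a.1)) * (uu a.2 * vv e) *
              (star (rr (f l)) * rr (f l))) := by
            simp only [mul_smul_comm, smul_mul_assoc, mul_assoc]
        _ = _ := by
            rw [star_rr_mul_rr, star_rr_mul_rr, Quaternion.coe_mul_eq_smul,
              Quaternion.mul_coe_eq_smul, smul_smul, smul_smul]
            congr 1
            ring
    rw [h0] at h1
    simp only [mul_zero, zero_mul] at h1
    have hne : c * (1 + f a.1 * f a.1) * (1 + f l * f l) ≠ 0 :=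
      mul_ne_zero (mul_ne_zero hc (hf _ _)) (hf _ _)
    have h6 : (uu a.2 * vv e : ℍ[R]) ≠ 0 := by
      intro h
      have ha := congrArg QuaternionAlgebra.re h
      have hb := congrArg QuaternionAlgebra.imJ h
      cases e <;> cases hh : a.2 <;> simp [uu, vv, hh] at ha hb
    exact h6 (smul_eq_zero_aux _ hne _ h1.symm)

/-- In characteristic 5 words are never non-zero scalars. -/
lemma normSq_qq (h5 : (5 : R) = 0) (t : R) (b : Bool) : normSq (qq t b) = 0 := by
  have : normSq (uu b : ℍ[R]) = 0 := by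
    rw [normSq_def']
    cases b <;> simp [uu] <;> linear_combination h5
  simp [qq, this]

lemma normSq_Qw {ι : Type*} (h5 : (5 : R) = 0) (f : ι → R) (L : List (ι × Bool)) (hL0 : L ≠ []) :
    normSq (Qw f L) = 0 := by
  cases L with
  | nil => exact absurd rfl hL0
  | cons a L => simp [normSq_qq h5]

/-- reduced words are not scalars in characteristic 5 -/
lemma Qw_not_scalar {ι : Type*} (h5 : (5 : R) = 0) (h2 : (2 : R) ≠ 0) [IsDomain R] (f : ι → R)
    (hf : ∀ s t, 1 + f s * f t ≠ 0) (hf' : ∀ s t, s ≠ t → f s ≠ f t)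
    (L : List (ι × Bool)) (hL : FreeGroup.IsReduced L) (hL0 : L ≠ []) :
    ¬ ((Qw f L).imI = 0 ∧ (Qw f L).imJ = 0 ∧ (Qw f L).imK = 0) := by
  rintro ⟨h1, h3, h4⟩
  apply Qw_ne_zero h5 h2 f hf hf' L hL hL0
  have h := normSq_Qw h5 f L hL0
  rw [normSq_def', h1, h3, h4] at h
  have hre : (Qw f L).re = 0 := by
    have : (Qw f L).re ^ 2 = 0 := by linear_combination h
    exact pow_eq_zero_iff (two_ne_zero) |>.1 this
  ext
  · simpa using hre
  · simpa using h1
  · simpa using h3
  · simpa using h4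

end ring

lemma zmod5_two_ne : (2 : ZMod 5) ≠ 0 := by decide

lemma mvp_five {ι : Type*} : (5 : MvPolynomial ι (ZMod 5)) = 0 := by
  have h : (MvPolynomial.C (5 : ZMod 5) : MvPolynomial ι (ZMod 5)) = 5 :=
    map_ofNat MvPolynomial.C 5
  rw [← h, show (5 : ZMod 5) = 0 from rfl, map_zero]

lemma mvp_two {ι : Type*} : (2 : MvPolynomial ι (ZMod 5)) ≠ 0 := by
  have h : (MvPolynomial.C (2 : ZMod 5) : MvPolynomial ι (ZMod 5)) = 2 :=
    map_ofNat MvPolynomial.C 2
  rw [← h]
  intro h0
  rw [MvPolynomial.C_eq_zero] at h0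
  exact zmod5_two_ne h0

instance : Fact (Nat.Prime 5) := ⟨by norm_num⟩

/-- The generic word is not a scalar. -/
lemma generic_word {ι : Type*} (L : List (ι × Bool)) (hL : FreeGroup.IsReduced L) (hL0 : L ≠ [])
    (h : (Qw (fun i => (MvPolynomial.X i : MvPolynomial ι ℤ)) L).imI = 0 ∧
      (Qw (fun i => (MvPolynomial.X i : MvPolynomial ι ℤ)) L).imJ = 0 ∧
      (Qw (fun i => (MvPolynomial.X i : MvPolynomial ι ℤ)) L).imK = 0) : False := by
  let red : MvPolynomial ι ℤ →+* MvPolynomial ι (ZMod 5) :=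
    MvPolynomial.map (Int.castRingHom (ZMod 5))
  have hXr : (fun i => red (MvPolynomial.X i)) =
      fun i => (MvPolynomial.X i : MvPolynomial ι (ZMod 5)) := by
    funext i
    exact MvPolynomial.map_X _ _
  have hQr : qmap red (Qw (fun i => (MvPolynomial.X i : MvPolynomial ι ℤ)) L) =
      Qw (fun i => (MvPolynomial.X i : MvPolynomial ι (ZMod 5))) L := by
    rw [qmap_Qw, hXr]
  refine Qw_not_scalar mvp_five mvp_two (fun i => (MvPolynomial.X i : MvPolynomial ι (ZMod 5)))
    ?_ ?_ L hL hL0 ?_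
  · intro s t h0
    have := congrArg (MvPolynomial.constantCoeff) h0
    simp at this
  · intro s t hst h0
    exact hst (MvPolynomial.X_injective h0)
  · rw [← hQr]
    simp only [qmap_imI, qmap_imJ, qmap_imK, h.1, h.2.1, h.2.2, map_zero, and_self]

/-- For algebraically independent reals, reduced words are not real quaternions. -/
theorem real_word_not_scalar {ι : Type*} (τ : ι → ℝ) (hτ : AlgebraicIndependent ℤ τ)
    (L : List (ι × Bool)) (hL : FreeGroup.IsReduced L) (hL0 : L ≠ []) :
    ¬ ((Qw τ L).imI = 0 ∧ (Qw τ L).imJ = 0 ∧ (Qw τ L).imK = 0) := by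
  intro h
  let ev : MvPolynomial ι ℤ →+* ℝ :=
    ((MvPolynomial.aeval τ : MvPolynomial ι ℤ →ₐ[ℤ] ℝ) : MvPolynomial ι ℤ →+* ℝ)
  have hev : Function.Injective ev := hτ
  have hX : (fun i => ev (MvPolynomial.X i)) = τ := by
    funext i
    exact MvPolynomial.aeval_X _ _
  have hQ : qmap ev (Qw (fun i => (MvPolynomial.X i : MvPolynomial ι ℤ)) L) = Qw τ L := by
    rw [qmap_Qw, hX]
  rw [← hQ] at h
  simp only [qmap_imI, qmap_imJ, qmap_imK, map_eq_zero_iff ev hev] at h
  exact generic_word L hL hL0 h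

/-- The reals contain an algebraically independent family indexed by any type of cardinality at
most the continuum. -/
theorem exists_algInd {ι : Type} (hι : Cardinal.mk ι ≤ Cardinal.continuum) :
    ∃ τ : ι → ℝ, AlgebraicIndependent ℤ τ := by
  obtain ⟨κ, x, hx⟩ := exists_isTranscendenceBasis' ℤ ℝ
  have hne : Nonempty κ := by
    by_contra hne
    rw [not_nonempty_iff] at hne
    have halg : Algebra.IsAlgebraic ℤ ℝ := by
      rw [← hx.isEmpty_iff_isAlgebraic]
      exact hne
    have := Algebra.IsAlgebraic.cardinalMk_le_max ℤ ℝ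
    simp only [Cardinal.mk_real, Cardinal.mk_denumerable, max_self] at this
    exact absurd this (not_le.2 Cardinal.aleph0_lt_continuum)
  have hcard := hx.lift_cardinalMk_eq_max_lift
  simp only [Cardinal.mk_real, Cardinal.mk_denumerable, Cardinal.lift_id, Cardinal.lift_aleph0,
    Cardinal.lift_continuum] at hcard
  have hκ : Cardinal.mk ι ≤ Cardinal.mk κ := by
    by_contra hlt
    rw [not_le] at hlt
    have h1 : Cardinal.mk κ < Cardinal.continuum := lt_of_lt_of_le hlt hι
    have : max (max Cardinal.aleph0 (Cardinal.mk κ)) Cardinal.aleph0 < Cardinal.continuum := by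
      simp [h1, Cardinal.aleph0_lt_continuum]
    rw [← hcard] at this
    exact lt_irrefl _ this
  obtain ⟨e⟩ := Cardinal.le_def _ _ |>.1 hκ
  exact ⟨x ∘ e, hx.1.comp e e.injective⟩

end Pool.Agent.H35
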