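import Pool.Agent.H35.QuatFree

open Quaternion

namespace Pool.Agent.H35

/-- left multiplication by the normalisation of a nonzero quaternion -/
noncomputable def lmul (q : ℍ[ℝ]) (hq : q ≠ 0) : ℍ[ℝ] ≃ₗᵢ[ℝ] ℍ[ℝ] where
  toFun x := ‖q‖⁻¹ • (q * x)
  invFun x := ‖q‖⁻¹ • (star q * x)
  map_add' x y := by simp [mul_add, smul_add]
  map_smul' c x := by
    rw [mul_smul_comm, smul_comm]
    rfl
  left_inv x := by
    have h : ‖q‖ ≠ 0 := norm_ne_zero_iff.2 hq
    have h2 : star q * q = ((‖q‖ * ‖q‖ : ℝ) : ℍ[ℝ]) := by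
      rw [Quaternion.star_mul_self, Quaternion.normSq_eq_norm_mul_self]
    simp only [mul_smul_comm, smul_smul, ← mul_assoc, h2]
    rw [Quaternion.coe_mul_eq_smul, smul_smul]
    field_simp
    simp
  right_inv x := by
    have h : ‖q‖ ≠ 0 := norm_ne_zero_iff.2 hq
    have h2 : q * star q = ((‖q‖ * ‖q‖ : ℝ) : ℍ[ℝ]) := by
      rw [Quaternion.self_mul_star, Quaternion.normSq_eq_norm_mul_self]
    simp only [mul_smul_comm, smul_smul, ← mul_assoc, h2]
    rw [Quaternion.coe_mul_eq_smul, smul_smul]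
    field_simp
    simp
  norm_map' x := by
    have h : ‖q‖ ≠ 0 := norm_ne_zero_iff.2 hq
    simp only [LinearEquiv.coe_mk, LinearMap.coe_mk, AddHom.coe_mk]
    rw [norm_smul, norm_mul, norm_inv, norm_norm]
    field_simp

@[simp] lemma lmul_apply (q : ℍ[ℝ]) (hq : q ≠ 0) (x : ℍ[ℝ]) :
    lmul q hq x = ‖q‖⁻¹ • (q * x) := rfl

@[simp] lemma lmul_inv_apply (q : ℍ[ℝ]) (hq : q ≠ 0) (x : ℍ[ℝ]) :
    (lmul q hq)⁻¹ x = ‖q‖⁻¹ • (star q * x) := rfl

lemma qq_ne_zero (t : ℝ) (b : Bool) : qq t b ≠ 0 := by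
  have h : Quaternion.normSq (qq t b) ≠ 0 := by
    have h1 : Quaternion.normSq (uu b : ℍ[ℝ]) = 5 := by
      rw [Quaternion.normSq_def']
      cases b <;> simp [uu] <;> norm_num
    have h2 : Quaternion.normSq (rr t : ℍ[ℝ]) = 1 + t ^ 2 := by
      rw [Quaternion.normSq_def']
      simp [rr]
    simp only [qq, map_mul, Quaternion.normSq_star, h1, h2]
    positivity
  exact Quaternion.normSq_ne_zero.1 h

/-- the isometry attached to a generator -/
noncomputable def gen {ι : Type*} (τ : ι → ℝ) (ξ : ι) : ℍ[ℝ] ≃ₗᵢ[ℝ] ℍ[ℝ] :=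
  lmul (qq (τ ξ) true) (qq_ne_zero _ _)

lemma lift_mk_apply {ι : Type*} (τ : ι → ℝ) (L : List (ι × Bool)) :
    ∃ c : ℝ, c ≠ 0 ∧ ∀ x, (FreeGroup.lift (gen τ) (FreeGroup.mk L)) x = c • (Qw τ L * x) := by
  induction L with
  | nil =>
    refine ⟨1, one_ne_zero, fun x => ?_⟩
    rw [FreeGroup.lift_mk]
    simp
  | cons a L ih =>
    obtain ⟨c, hc, h⟩ := ih
    refine ⟨‖qq (τ a.1) true‖⁻¹ * c,
      mul_ne_zero (inv_ne_zero (norm_ne_zero_iff.2 (qq_ne_zero _ _))) hc, fun x => ?_⟩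
    rw [FreeGroup.lift_mk] at h ⊢
    simp only [List.map_cons, List.prod_cons, LinearIsometryEquiv.coe_mul, Function.comp_apply, h,
      Qw_cons]
    rcases a with ⟨ξ, b⟩
    cases b
    · simp only [cond_false, gen, lmul_inv_apply, star_qq, Bool.not_true]
      simp only [mul_smul_comm, smul_smul, mul_assoc]
    · simp only [cond_true, gen, lmul_apply]
      simp only [mul_smul_comm, smul_smul, mul_assoc]

/-- The free group acts freely off the origin. -/
theorem free_off_zero {ι : Type*} (τ : ι → ℝ) (hτ : AlgebraicIndependent ℤ τ)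
    (w : FreeGroup ι) (hw : w ≠ 1) (x : ℍ[ℝ]) (hx : FreeGroup.lift (gen τ) w x = x) : x = 0 := by
  classical
  by_contra hx0
  obtain ⟨c, hc, h⟩ := lift_mk_apply τ w.toWord
  rw [FreeGroup.mk_toWord] at h
  have h1 := h x
  rw [hx] at h1
  have h2 : (c • Qw τ w.toWord - 1) * x = 0 := by
    rw [sub_mul, one_mul, smul_mul_assoc, ← h1, sub_self]
  have h3 : c • Qw τ w.toWord = 1 := by
    rcases mul_eq_zero.1 h2 with h | h
    · exact sub_eq_zero.1 h
    · exact absurd h hx0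
  refine real_word_not_scalar τ hτ w.toWord FreeGroup.isReduced_toWord ?_ ?_
  · rwa [Ne, FreeGroup.toWord_eq_nil_iff]
  · have e1 := congrArg QuaternionAlgebra.imI h3
    have e2 := congrArg QuaternionAlgebra.imJ h3
    have e3 := congrArg QuaternionAlgebra.imK h3
    have k1 : c * (Qw τ w.toWord).imI = 0 := by simpa using e1
    have k2 : c * (Qw τ w.toWord).imJ = 0 := by simpa using e2
    have k3 : c * (Qw τ w.toWord).imK = 0 := by simpa using e3
    exact ⟨(mul_eq_zero.1 k1).resolve_left hc, (mul_eq_zero.1 k2).resolve_left hc,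
      (mul_eq_zero.1 k3).resolve_left hc⟩

end Pool.Agent.H35
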