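import Mathlib

namespace Pool.Agent.H35

/-- number of lattice points of the `r`-dimensional simplex of side `c` -/
def L (r c : ℕ) : ℕ := (c + r).choose r

/-- number of lattice points of the `(r+1)`-dimensional simplex of side `c - 1` -/
def Bs (r c : ℕ) : ℕ := (c + r).choose (r + 1)

lemma Bs_zero (r : ℕ) : Bs r 0 = 0 := by simp [Bs]

lemma L_zero_right (r : ℕ) : L r 0 = 1 := by simp [L]

lemma L_zero_left (c : ℕ) : L 0 c = 1 := by simp [L]

lemma Bs_succ (r c : ℕ) : Bs r (c + 1) = Bs r c + L r c := by
  unfold Bs L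
  rw [show c + 1 + r = (c + r) + 1 by ring, Nat.choose_succ_succ]
  ring

lemma L_succ_left (r c : ℕ) : L (r + 1) c = Bs r (c + 1) := by
  unfold Bs L
  rw [show c + 1 + r = c + (r + 1) by ring]

lemma L_pos (r c : ℕ) : 1 ≤ L r c := Nat.choose_pos (by omega)

lemma L_mono (r : ℕ) {a b : ℕ} (h : a ≤ b) : L r a ≤ L r b :=
  Nat.choose_le_choose r (by omega)

lemma Bs_mono (r : ℕ) {a b : ℕ} (h : a ≤ b) : Bs r a ≤ Bs r b :=
  Nat.choose_le_choose (r + 1) (by omega)

lemma Bs_pos (r : ℕ) {c : ℕ} (h : 1 ≤ c) : 1 ≤ Bs r c := Nat.choose_pos (by omega)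

lemma L_succ_succ (r c : ℕ) : L (r + 1) (c + 1) = L (r + 1) c + L r (c + 1) := by
  rw [L_succ_left, L_succ_left, Bs_succ]

lemma Bs_ge (r c : ℕ) : c ≤ Bs r c := by
  induction c with
  | zero => simp
  | succ c ih =>
    rw [Bs_succ]
    have := L_pos r c
    omega

lemma exists_layer (r m : ℕ) : ∃ c, m ≤ Bs r (c + 1) :=
  ⟨m, le_trans (Bs_ge r m) (Bs_mono r (by omega))⟩

/-- index of the layer containing `m` -/
def layer (r m : ℕ) : ℕ := Nat.find (exists_layer r m)

lemma layer_eq (r c u : ℕ) (h1 : 1 ≤ u) (h2 : u ≤ L r c) : layer r (Bs r c + u) = c := by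
  unfold layer
  rw [Nat.find_eq_iff]
  refine ⟨by rw [Bs_succ]; omega, fun n hn => ?_⟩
  have := Bs_mono r (by omega : n + 1 ≤ c)
  omega

lemma exists_decomp (r m : ℕ) (hm : 1 ≤ m) : ∃ c u, 1 ≤ u ∧ u ≤ L r c ∧ m = Bs r c + u := by
  have hspec := Nat.find_spec (exists_layer r m)
  set c := Nat.find (exists_layer r m) with hc
  refine ⟨c, m - Bs r c, ?_, ?_, ?_⟩
  · rcases Nat.eq_zero_or_pos c with h | h
    · rw [h, Bs_zero]; omega
    · have := Nat.find_min (exists_layer r m) (m := c - 1) (by omega)
      rw [show c - 1 + 1 = c by omega] at this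
      omega
  · rw [Bs_succ] at hspec; omega
  · rcases Nat.eq_zero_or_pos c with h | h
    · rw [h, Bs_zero]; omega
    · have := Nat.find_min (exists_layer r m) (m := c - 1) (by omega)
      rw [show c - 1 + 1 = c by omega] at this
      omega

/-- The cascade function: `tau r m` is the smallest possible size of
`(X + {0, e_1, ..., e_r}) \ X` for `X ⊆ ℤ^r` with `m` elements. -/
def tau : ℕ → ℕ → ℕ
  | 0, _ => 0
  | (r + 1), m => if m = 0 then 0 else L r (layer r m) + tau r (m - Bs r (layer r m))

lemma tau_zero_left (m : ℕ) : tau 0 m = 0 := rfl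

lemma tau_zero_right (r : ℕ) : tau r 0 = 0 := by
  cases r <;> simp [tau]

lemma tau_rec (r c u : ℕ) (h1 : 1 ≤ u) (h2 : u ≤ L r c) :
    tau (r + 1) (Bs r c + u) = L r c + tau r u := by
  rw [tau, if_neg (by omega), layer_eq r c u h1 h2]
  congr 2
  omega

lemma tau_full : ∀ (r c : ℕ), tau (r + 1) (Bs r (c + 1)) = L r (c + 1)
  | 0, c => by
    rw [Bs_succ, tau_rec 0 c (L 0 c) (L_pos _ _) le_rfl, tau_zero_left, L_zero_left, L_zero_left]
  | (r + 1), c => by
    rw [Bs_succ, tau_rec (r + 1) c (L (r + 1) c) (L_pos _ _) le_rfl, L_succ_left r c, tau_full r c,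
      ← L_succ_left, L_succ_succ]

lemma tau_base (r c : ℕ) (hc : 1 ≤ c) : tau (r + 1) (Bs r c) = L r c := by
  obtain ⟨c, rfl⟩ : ∃ k, c = k + 1 := ⟨c - 1, by omega⟩
  exact tau_full r c

lemma tau_base_le (r c : ℕ) : tau (r + 1) (Bs r c) ≤ L r c := by
  rcases Nat.eq_zero_or_pos c with h | h
  · rw [h, Bs_zero, tau_zero_right]; omega
  · rw [tau_base r c h]

lemma tau_rec' (r c u : ℕ) (hc : 1 ≤ c) (h2 : u ≤ L r c) :
    tau (r + 1) (Bs r c + u) = L r c + tau r u := by
  rcases Nat.eq_zero_or_pos u with h | h
  · rw [h, tau_zero_right, add_zero, add_zero, tau_base r c hc]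
  · exact tau_rec r c u h h2

lemma tau_rec_le (r c u : ℕ) (h2 : u ≤ L r c) :
    tau (r + 1) (Bs r c + u) ≤ L r c + tau r u := by
  rcases Nat.eq_zero_or_pos u with h | h
  · rw [h, tau_zero_right, add_zero, add_zero]; exact tau_base_le r c
  · exact (tau_rec r c u h h2).le

/-- `L r (c+1) = L r c + tau r (L r c)` -/
lemma L_succ_eq (r c : ℕ) : L r (c + 1) = L r c + tau r (L r c) := by
  cases r with
  | zero => simp [L_zero_left, tau_zero_left]
  | succ r => rw [L_succ_succ, L_succ_left r c, tau_full]

lemma tau_mono (r : ℕ) : ∀ {a b : ℕ}, a ≤ b → tau r a ≤ tau r b := by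
  induction r with
  | zero => intro a b _; simp [tau_zero_left]
  | succ r ih =>
    intro a b hab
    rcases Nat.eq_zero_or_pos a with ha | ha
    · rw [ha, tau_zero_right]; omega
    obtain ⟨c, u, hu1, hu2, rfl⟩ := exists_decomp r a ha
    obtain ⟨d, v, hv1, hv2, rfl⟩ := exists_decomp r b (by omega)
    rw [tau_rec r c u hu1 hu2, tau_rec r d v hv1 hv2]
    rcases lt_trichotomy c d with h | h | h
    · have h1 : tau r u ≤ tau r (L r c) := ih hu2
      have h2 := L_succ_eq r c
      have h3 := L_mono r (by omega : c + 1 ≤ d)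
      omega
    · subst h
      have := ih (by omega : u ≤ v)
      omega
    · exfalso
      have := Bs_mono r (by omega : d + 1 ≤ c)
      rw [Bs_succ] at this
      omega

/-- statement S: subadditivity -/
def StS (r : ℕ) : Prop := ∀ a b, tau r (a + b) ≤ tau r a + tau r b

/-- statement M: final windows of a full simplex are minimal -/
def StM (r : ℕ) : Prop := ∀ a q y, y ≤ q → q ≤ L r a →
  tau r (L r a) + tau r (q - y) ≤ tau r q + tau r (L r a - y)

/-- statement T -/
def StT (r : ℕ) : Prop := ∀ m, tau r m ≤ tau (r + 1) m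

lemma stT_of_stS (r : ℕ) (hS : StS r) : StT r := by
  intro m
  induction m using Nat.strong_induction_on with
  | _ m ih =>
    rcases Nat.eq_zero_or_pos m with hm | hm
    · rw [hm, tau_zero_right]; omega
    obtain ⟨c, u, hu1, hu2, rfl⟩ := exists_decomp r m hm
    rw [tau_rec r c u hu1 hu2]
    have h1 := hS (Bs r c) u
    have h2 := ih (Bs r c) (by omega)
    have h3 := tau_base_le r c
    omega

lemma stM_succ (r : ℕ) (hS : StS r) (hM : StM r) : StM (r + 1) := by
  have main : ∀ y, ∀ a q, y ≤ q → q ≤ Bs r (a + 1) →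
      tau (r + 1) (Bs r (a + 1)) + tau (r + 1) (q - y) ≤
        tau (r + 1) q + tau (r + 1) (Bs r (a + 1) - y) := by
    intro y
    induction y using Nat.strong_induction_on with
    | _ y ih =>
      intro a q hyq hq
      rcases Nat.eq_zero_or_pos y with hy | hy
      · subst hy; simp [add_comm]
      rcases Nat.lt_or_ge q (Bs r (a + 1)) with hqlt | hqge
      swap
      · have : q = Bs r (a + 1) := by omega
        rw [this]
      have ha : 1 ≤ a := by
        by_contra ha
        have : a = 0 := by omega
        subst this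
        rw [Bs_succ, Bs_zero, L_zero_right] at hqlt
        omega
      obtain ⟨b, q', hq1, hq2, rfl⟩ := exists_decomp r q (by omega)
      have hba : b ≤ a := by
        by_contra hlt
        have := Bs_mono r (by omega : a + 1 ≤ b)
        omega
      have hLba := L_mono r hba
      rcases Nat.lt_or_ge q' y with hqy | hqy
      · -- y > q'
        have hb : 1 ≤ b := by
          by_contra hb
          have : b = 0 := by omega
          subst this
          rw [Bs_zero] at hyq
          omega
        obtain ⟨z, rfl⟩ : ∃ z, y = q' + z := ⟨y - q', by omega⟩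
        rcases Nat.lt_or_ge (L r a) (q' + z) with hLy | hLy
        · -- y > L a
          obtain ⟨w, hw⟩ : ∃ w, q' + z = L r a + w := ⟨q' + z - L r a, by omega⟩
          have hLa := L_pos r a
          have i1 := ih (L r a) (by omega) a (Bs r b + q') (by omega) (by omega)
          obtain ⟨a', rfl⟩ : ∃ k, a = k + 1 := ⟨a - 1, by omega⟩
          have hBs := Bs_succ r (a' + 1)
          have i2 := ih w (by omega) a' (Bs r b + q' - L r (a' + 1)) (by omega) (by omega)
          rw [show Bs r (a' + 1 + 1) - L r (a' + 1) = Bs r (a' + 1) by omega] at i1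
          rw [show Bs r b + q' - L r (a' + 1) - w = Bs r b + q' - (q' + z) by omega,
            show Bs r (a' + 1) - w = Bs r (a' + 1 + 1) - (q' + z) by omega] at i2
          omega
        · -- y ≤ L a
          have i1 := ih z (by omega) a (Bs r b) (by omega) (by omega)
          have hBs := Bs_succ r a
          have e1 : tau (r + 1) (Bs r (a + 1) - z) = L r a + tau r (L r a - z) := by
            rw [show Bs r (a + 1) - z = Bs r a + (L r a - z) by omega]
            exact tau_rec' r a _ ha (by omega)
          have e2 : tau (r + 1) (Bs r (a + 1) - (q' + z)) = L r a + tau r (L r a - (q' + z)) := by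
            rw [show Bs r (a + 1) - (q' + z) = Bs r a + (L r a - (q' + z)) by omega]
            exact tau_rec' r a _ ha (by omega)
          have e3 := hS (L r a - (q' + z)) q'
          rw [show L r a - (q' + z) + q' = L r a - z by omega] at e3
          rw [tau_rec r b q' hq1 hq2, e2, show Bs r b + q' - (q' + z) = Bs r b - z by omega]
          rw [e1, tau_base r b hb] at i1
          omega
      · -- y ≤ q'
        have hBs := Bs_succ r a
        have e1 : tau (r + 1) (Bs r (a + 1)) = L r a + tau r (L r a) := by
          rw [Bs_succ]; exact tau_rec' r a _ ha le_rfl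
        have e2 : tau (r + 1) (Bs r (a + 1) - y) = L r a + tau r (L r a - y) := by
          rw [show Bs r (a + 1) - y = Bs r a + (L r a - y) by omega]
          exact tau_rec' r a _ ha (by omega)
        have e3 : tau (r + 1) (Bs r b + q' - y) ≤ L r b + tau r (q' - y) := by
          rw [show Bs r b + q' - y = Bs r b + (q' - y) by omega]
          exact tau_rec_le r b _ (by omega)
        have e4 := hM a q' y hqy (by omega)
        rw [e1, e2, tau_rec r b q' hq1 hq2]
        omega
  intro a q y hyq hq
  rw [L_succ_left] at hq ⊢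
  exact main y a q hyq hq

lemma stS_succ (r : ℕ) (hS : StS r) (hT : StT r) (hM : StM (r + 1)) : StS (r + 1) := by
  have main : ∀ y q, y ≤ q → tau (r + 1) q ≤ tau (r + 1) (q - y) + tau (r + 1) y := by
    intro y
    induction y using Nat.strong_induction_on with
    | _ y ih =>
      intro q hyq
      rcases Nat.eq_zero_or_pos y with hy | hy
      · subst hy; simp
      rcases Nat.lt_or_ge y q with hlt | hge
      swap
      · have : y = q := by omega
        subst this
        omega
      obtain ⟨c, y', hy1, hy2, hyc⟩ := exists_decomp r y hy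
      obtain ⟨b, q', hq1, hq2, hqb⟩ := exists_decomp r q (by omega)
      rcases Nat.lt_or_ge q' y with hqy | hqy
      swap
      · -- window in the layer
        have hT' := hT y
        have e1 : tau (r + 1) (q - y) = L r b + tau r (q' - y) := by
          rw [show q - y = Bs r b + (q' - y) by omega]
          rcases Nat.lt_or_ge y q' with h | h
          · exact tau_rec r b _ (by omega) (by omega)
          · have hb : 1 ≤ b := by
              by_contra hb
              have : b = 0 := by omega
              subst this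
              rw [Bs_zero] at hqb
              omega
            exact tau_rec' r b _ hb (by omega)
        have e2 := hS (q' - y) y
        rw [show q' - y + y = q' by omega] at e2
        have e3 : tau (r + 1) q = L r b + tau r q' := by rw [hqb]; exact tau_rec r b q' hq1 hq2
        omega
      have hcb : c ≤ b := by
        by_contra h
        have := Bs_mono r (by omega : b + 1 ≤ c)
        rw [Bs_succ] at this
        omega
      have e3 : tau (r + 1) q = L r b + tau r q' := by rw [hqb]; exact tau_rec r b q' hq1 hq2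
      have e4 : tau (r + 1) y = L r c + tau r y' := by rw [hyc]; exact tau_rec r c y' hy1 hy2
      have e5 := tau_base_le r c
      rcases Nat.lt_or_ge y' q' with hyq' | hyq'
      · -- y' < q'
        have e6 : tau (r + 1) (q - y') = L r b + tau r (q' - y') := by
          rw [show q - y' = Bs r b + (q' - y') by omega]
          exact tau_rec r b _ (by omega) (by omega)
        have e7 := hS (q' - y') y'
        rw [show q' - y' + y' = q' by omega] at e7
        have i1 := ih (Bs r c) (by omega) (q - y') (by omega)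
        rw [show q - y' - Bs r c = q - y by omega] at i1
        omega
      · -- q' ≤ y'
        rcases Nat.lt_or_ge c b with hcb' | hcb'
        swap
        · have : c = b := by omega
          subst this
          omega
        have hyM : y ≤ Bs r b := by
          have h1 := Bs_mono r (by omega : c + 1 ≤ b)
          rw [Bs_succ] at h1
          omega
        obtain ⟨b', rfl⟩ : ∃ k, b = k + 1 := ⟨b - 1, by omega⟩
        have m1 := hM b' y (y' - q') (by omega) (by rw [L_succ_left]; exact hyM)
        rw [L_succ_left, tau_full] at m1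
        have e8 : tau (r + 1) (y - (y' - q')) = L r c + tau r q' := by
          rw [show y - (y' - q') = Bs r c + q' by omega]
          exact tau_rec r c q' hq1 (by omega)
        have i2 := ih (Bs r c) (by omega) (Bs r (b' + 1) - (y' - q')) (by omega)
        rw [show Bs r (b' + 1) - (y' - q') - Bs r c = q - y by omega] at i2
        omega
  intro a b
  have := main b (a + b) (by omega)
  rwa [show a + b - b = a by omega] at this

theorem stS_stM : ∀ r, StS r ∧ StM r
  | 0 => ⟨fun a b => by simp [tau_zero_left], fun a q y _ _ => by simp [tau_zero_left]⟩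
  | (r + 1) => by
    obtain ⟨hS, hM⟩ := stS_stM r
    have hM' := stM_succ r hS hM
    exact ⟨stS_succ r hS (stT_of_stS r hS) hM', hM'⟩

theorem tau_subadd (r a b : ℕ) : tau r (a + b) ≤ tau r a + tau r b := (stS_stM r).1 a b

theorem tau_le_succ (r m : ℕ) : tau r m ≤ tau (r + 1) m := stT_of_stS r (stS_stM r).1 m

/-- slice size of the optimal set -/
def xs : ℕ → ℕ → ℕ
  | 0, _ => 0
  | (r + 1), m => if m = 0 then 0 else if layer r m = 0 then 1 else
      L r (layer r m - 1) + xs r (m - Bs r (layer r m))

lemma xs_rec (r c u : ℕ) (hc : 1 ≤ c) (h1 : 1 ≤ u) (h2 : u ≤ L r c) :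
    xs (r + 1) (Bs r c + u) = L r (c - 1) + xs r u := by
  rw [xs, if_neg (by omega), layer_eq r c u h1 h2, if_neg (by omega)]
  congr 2
  omega

lemma xs_one (r : ℕ) : xs (r + 1) 1 = 1 := by
  have h := layer_eq r 0 1 le_rfl (by rw [L_zero_right])
  rw [Bs_zero, zero_add] at h
  rw [xs, if_neg (by omega), if_pos h]

lemma decomp_zero (r m u : ℕ) (h1 : 1 ≤ u) (h2 : u ≤ L r 0) (h : m = Bs r 0 + u) : m = 1 := by
  rw [L_zero_right] at h2
  rw [Bs_zero] at h
  omega

lemma xs_le : ∀ (r m : ℕ), xs r m ≤ m
  | 0, m => by simp [xs]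
  | (r + 1), m => by
    rcases Nat.eq_zero_or_pos m with hm | hm
    · simp [xs, hm]
    obtain ⟨c, u, hu1, hu2, hcu⟩ := exists_decomp r m hm
    rcases Nat.eq_zero_or_pos c with hc | hc
    · subst hc
      rw [decomp_zero r m u hu1 hu2 hcu, xs_one]
    · rw [hcu, xs_rec r c u hc hu1 hu2]
      have h1 := xs_le r u
      have h2 : L r (c - 1) ≤ Bs r c := by
        obtain ⟨c', rfl⟩ : ∃ k, c = k + 1 := ⟨c - 1, by omega⟩
        rw [Bs_succ]
        simp
      omega

lemma xs_pos (r m : ℕ) (hm : 1 ≤ m) : 1 ≤ xs (r + 1) m := by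
  obtain ⟨c, u, hu1, hu2, hcu⟩ := exists_decomp r m hm
  rcases Nat.eq_zero_or_pos c with hc | hc
  · subst hc
    rw [decomp_zero r m u hu1 hu2 hcu, xs_one]
  · rw [hcu, xs_rec r c u hc hu1 hu2]
    have := L_pos r (c - 1)
    omega

/-- bound on the slice -/
lemma xs_bound : ∀ (s c u : ℕ), u ≤ L (s + 1) c → xs (s + 1) u ≤ L s c := by
  intro s
  induction s with
  | zero =>
    intro c u hu
    rcases Nat.eq_zero_or_pos u with h0 | h0
    · simp [xs, h0]
    obtain ⟨d, v, hv1, hv2, hdv⟩ := exists_decomp 0 u h0
    rcases Nat.eq_zero_or_pos d with hd | hd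
    · subst hd
      rw [decomp_zero 0 u v hv1 hv2 hdv, xs_one]
      exact L_pos _ _
    · rw [hdv, xs_rec 0 d v hd hv1 hv2, L_zero_left, L_zero_left]
      simp [xs]
  | succ s ih =>
    intro c u hu
    rcases Nat.eq_zero_or_pos u with h0 | h0
    · simp [xs, h0]
    obtain ⟨d, v, hv1, hv2, hdv⟩ := exists_decomp (s + 1) u h0
    rcases Nat.eq_zero_or_pos d with hd | hd
    · subst hd
      rw [decomp_zero (s + 1) u v hv1 hv2 hdv, xs_one]
      exact L_pos _ _
    · rw [hdv, xs_rec (s + 1) d v hd hv1 hv2]
      have h1 := ih d v hv2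
      have hdc : d ≤ c := by
        by_contra h
        have := Bs_mono (s + 1) (by omega : c + 1 ≤ d)
        rw [L_succ_left] at hu
        omega
      obtain ⟨d', rfl⟩ : ∃ k, d = k + 1 := ⟨d - 1, by omega⟩
      have h2 := L_succ_succ s d'
      have h3 := L_mono (s + 1) hdc
      simp only [Nat.add_sub_cancel]
      omega

/-- statement A -/
theorem stA : ∀ (r m x : ℕ), x < xs (r + 1) m →
    tau (r + 1) m ≤ tau r x + tau (r + 1) (m - x) := by
  intro r
  induction r with
  | zero =>
    intro m x hx
    rcases Nat.eq_zero_or_pos m with h0 | h0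
    · simp [xs, h0] at hx
    have h1 := xs_bound 0 m m (by
      rw [L_succ_left]; exact le_trans (Bs_ge 0 m) (Bs_mono 0 (by omega)))
    rw [L_zero_left] at h1
    have : x = 0 := by omega
    subst this
    simp [tau_zero_left]
  | succ s ih =>
    intro m x hx
    rcases Nat.eq_zero_or_pos m with h0 | h0
    · simp [xs, h0] at hx
    rcases Nat.eq_zero_or_pos x with hx0 | hx0
    · subst hx0
      rw [tau_zero_right]; simp
    obtain ⟨c, u, hu1, hu2, hcu⟩ := exists_decomp (s + 1) m h0
    rcases Nat.eq_zero_or_pos c with hc | hc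
    · subst hc
      rw [decomp_zero (s + 1) m u hu1 hu2 hcu, xs_one] at hx
      omega
    have hxs := xs_rec (s + 1) c u hc hu1 hu2
    rw [← hcu] at hxs
    have htm : tau (s + 1 + 1) m = L (s + 1) c + tau (s + 1) u := by
      rw [hcu]; exact tau_rec (s + 1) c u hu1 hu2
    obtain ⟨hS, hM⟩ := stS_stM (s + 1)
    rcases Nat.lt_or_ge u x with hux | hux
    · -- x > u
      have hxu := xs_le (s + 1) u
      obtain ⟨c', rfl⟩ : ∃ k, c = k + 1 := ⟨c - 1, by omega⟩
      simp only [Nat.add_sub_cancel] at hxs
      have hBs := Bs_succ (s + 1) c'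
      have hk : x - u < L (s + 1) c' := by omega
      have e1 : tau (s + 1 + 1) (m - x) =
          L (s + 1) c' + tau (s + 1) (L (s + 1) c' - (x - u)) := by
        rw [show m - x = Bs (s + 1) c' + (L (s + 1) c' - (x - u)) by omega]
        exact tau_rec (s + 1) c' _ (by omega) (by omega)
      have e2 := L_succ_eq (s + 1) c'
      rcases Nat.lt_or_ge (L (s + 1) c') x with hLx | hLx
      · obtain ⟨y, hy⟩ : ∃ y, x = L (s + 1) c' + y := ⟨x - L (s + 1) c', by omega⟩
        have hyx : y < xs (s + 1) u := by omega
        have hyL : y ≤ L s (c' + 1) := by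
          have := xs_bound s (c' + 1) u hu2
          omega
        have e3 : tau (s + 1) x = L s (c' + 1) + tau s y := by
          rw [hy, L_succ_left]
          exact tau_rec' s (c' + 1) y (by omega) hyL
        have e4 : tau (s + 1) (L (s + 1) c') = L s (c' + 1) := by
          rw [L_succ_left]; exact tau_full s c'
        have e5 := ih u y hyx
        rw [show L (s + 1) c' - (x - u) = u - y by omega] at e1
        omega
      · have e3 := hM c' x (x - u) (by omega) hLx
        rw [show x - (x - u) = u by omega] at e3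
        omega
    · -- x ≤ u
      have e1 : tau (s + 1 + 1) (m - x) = L (s + 1) c + tau (s + 1) (u - x) := by
        rw [show m - x = Bs (s + 1) c + (u - x) by omega]
        exact tau_rec' (s + 1) c _ hc (by omega)
      have e2 := hS (u - x) x
      rw [show u - x + x = u by omega] at e2
      omega

/-- statement B -/
theorem stB : ∀ (r m : ℕ), 1 ≤ m →
    tau (r + 1) m ≤ xs (r + 1) m + tau r (xs (r + 1) m) := by
  intro r
  induction r with
  | zero =>
    intro m hm
    obtain ⟨c, u, hu1, hu2, hcu⟩ := exists_decomp 0 m hm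
    have h1 := xs_pos 0 m hm
    have h2 : tau (0 + 1) m = 1 := by
      rw [hcu, tau_rec 0 c u hu1 hu2, L_zero_left, tau_zero_left]
    rw [h2]
    omega
  | succ s ih =>
    intro m hm
    obtain ⟨c, u, hu1, hu2, hcu⟩ := exists_decomp (s + 1) m hm
    have htm : tau (s + 1 + 1) m = L (s + 1) c + tau (s + 1) u := by
      rw [hcu]; exact tau_rec (s + 1) c u hu1 hu2
    rcases Nat.eq_zero_or_pos c with hc | hc
    · subst hc
      have hu : u = 1 := by rw [L_zero_right] at hu2; omega
      rw [htm, decomp_zero (s + 1) m u hu1 hu2 hcu, xs_one, L_zero_right, hu]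
    have hxs := xs_rec (s + 1) c u hc hu1 hu2
    rw [← hcu] at hxs
    obtain ⟨c', rfl⟩ : ∃ k, c = k + 1 := ⟨c - 1, by omega⟩
    simp only [Nat.add_sub_cancel] at hxs
    have hb := xs_bound s (c' + 1) u hu2
    have e3 : tau (s + 1) (xs (s + 1 + 1) m) = L s (c' + 1) + tau s (xs (s + 1) u) := by
      rw [hxs, L_succ_left]
      exact tau_rec' s (c' + 1) _ (by omega) hb
    have e5 := ih u hu1
    have e6 := L_succ_succ s c'
    rw [htm, e3, hxs]
    omega

/-- combined: for a slice of size `x`, either peeling or projecting is good -/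
theorem tau_AB (r m x : ℕ) (hm : 1 ≤ m) :
    tau (r + 1) m ≤ tau r x + tau (r + 1) (m - x) ∨ tau (r + 1) m ≤ x + tau r x := by
  rcases Nat.lt_or_ge x (xs (r + 1) m) with h | h
  · exact Or.inl (stA r m x h)
  · right
    have h1 := stB r m hm
    have h2 := tau_mono r h
    omega

end Pool.Agent.H35
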