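import Pool.Agent.H35.Ehr

namespace Pool.Agent.H35

open Module Finset Filter

section
variable {d : ℕ}

lemma exists_param {P : Finset (Fin d → ℤ)} {η : (Fin d → ℤ) → ℚ} (hgen : Generic P pt η)
    (L : Dual ℚ ((Fin d → ℚ) × ℚ)) (hL : IsVert P pt η L) :
    ∃ p : Fin (d + 1) → (Fin d → ℤ), Function.Injective p ∧
      (∀ v, v ∈ tight P pt η L ↔ ∃ k, p k = v) ∧ LinearIndependent ℚ (fun k => pt (p k)) := by
  classical
  set T := tight P pt η L with hT
  let b : Basis (T : Set (Fin d → ℤ)) ℚ ((Fin d → ℚ) × ℚ) := Basis.mk (hgen L) (by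
    rw [← hL.2]
    apply Submodule.span_mono
    rintro _ ⟨i, hi, rfl⟩
    exact ⟨⟨i, hi⟩, rfl⟩)
  have hcard : Fintype.card (T : Set (Fin d → ℤ)) = d + 1 := by
    rw [← finrank_eq_card_basis b]
    simp
  let e : Fin (d + 1) ≃ (T : Set (Fin d → ℤ)) := (Fintype.equivFinOfCardEq hcard).symm
  refine ⟨fun k => (e k : Fin d → ℤ), ?_, ?_, ?_⟩
  · intro a b h
    exact e.injective (Subtype.ext h)
  · intro v
    constructor
    · intro hv
      exact ⟨e.symm ⟨v, mem_coe.2 hv⟩, by simp⟩
    · rintro ⟨k, rfl⟩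
      exact mem_coe.1 (e k).2
  · exact (hgen L).comp e e.injective

lemma clear_denoms (T : Finset ℚ) : ∃ N : ℕ, 0 < N ∧ ∀ q ∈ T, ∃ z : ℤ, (N : ℚ) * q = z := by
  classical
  induction T using Finset.induction_on with
  | empty => exact ⟨1, one_pos, by simp⟩
  | insert q T hq ih =>
    obtain ⟨N, hN, h⟩ := ih
    refine ⟨N * q.den, Nat.mul_pos hN q.den_pos, fun r hr => ?_⟩
    rcases mem_insert.1 hr with rfl | hr
    · refine ⟨N * r.num, ?_⟩
      have : (r.den : ℚ) * r = r.num := by
        rw [mul_comm]; exact Rat.mul_den_eq_num r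
      push_cast
      rw [mul_assoc, this]
    · obtain ⟨z, hz⟩ := h r hr
      refine ⟨q.den * z, ?_⟩
      push_cast
      rw [← hz]; ring

lemma hat_decomp (v : Fin d → ℤ) :
    hat v 0 = ∑ i, (v i : ℚ) • hat (Pi.single i 1 : Fin d → ℤ) 0 := by
  ext i
  · simp only [Prod.fst_sum, Prod.smul_fst, Finset.sum_apply, Pi.smul_apply, hat, smul_eq_mul]
    rw [Finset.sum_eq_single i]
    · simp
    · intro j _ hj
      simp [hj.symm]
    · simp
  · simp [hat, Prod.snd_sum]

lemma exists_int_fun (L : Dual ℚ ((Fin d → ℚ) × ℚ)) (N : ℕ)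
    (h : ∀ i, ∃ z : ℤ, (N : ℚ) * L (hat (Pi.single i 1 : Fin d → ℤ) 0) = z) :
    ∃ s : (Fin d → ℤ) →+ ℤ, ∀ v, (s v : ℚ) = N * L (hat v 0) := by
  choose z hz using h
  refine ⟨{ toFun := fun v => ∑ i, v i * z i, map_zero' := by simp,
            map_add' := fun a b => by simp [add_mul, Finset.sum_add_distrib] }, fun v => ?_⟩
  change ((∑ i, v i * z i : ℤ) : ℚ) = _
  rw [hat_decomp, map_sum, Finset.mul_sum]
  push_cast
  refine Finset.sum_congr rfl fun i _ => ?_
  rw [map_smul, smul_eq_mul, ← hz i]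
  ring

lemma Gs_subset_Us {P F : Finset (Fin d → ℤ)} (hF : F ⊆ P) (t : ℕ) : Gs F F t ⊆ Us P t := by
  rintro x ⟨c, h1, _, h3⟩ φ hφ
  rw [h3, map_sum]
  apply Finset.sum_nonpos
  intro v hv
  rw [map_smul, smul_eq_mul]
  exact mul_nonpos_of_nonneg_of_nonpos (h1 v hv).le (hφ v (hF hv))

theorem geometry (S : Finset (Fin d → ℤ))
    (hS : AddSubgroup.closure (S : Set (Fin d → ℤ)) = ⊤) :
    ∃ (m : ℕ) (c : Cells (Fin d → ℤ) S d m), 0 < m ∧
      (∀ t, (Us (insert 0 S) t).Finite) ∧
      (∀ t, (Us (insert 0 S) t).ncard ≤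
        ∑ j, Nat.card ((Fin d → ℤ) ⧸ Lam (c.p j)) * L d t) ∧
      (∃ γ, HasLead d γ (fun t => ((Us (insert 0 S) t).ncard : ℤ))) ∧
      (∀ t, ∀ x ∈ Us (insert 0 S) t, ∃ c : (Fin d → ℤ) → ℚ, (∀ v, 0 ≤ c v) ∧
        hat x t = ∑ v ∈ insert 0 S, c v • pt v) := by
  classical
  set P : Finset (Fin d → ℤ) := insert 0 S with hP
  have hspan := span_pt S hS
  rw [← hP] at hspan
  obtain ⟨η, hgen⟩ := exists_generic P (pt : (Fin d → ℤ) → _)
  -- initial feasible functional
  obtain ⟨L0, hL0⟩ : ∃ L0 : Dual ℚ ((Fin d → ℚ) × ℚ), Feas P pt η L0 := by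
    refine ⟨-(∑ v ∈ P, |η v|) • LinearMap.snd ℚ (Fin d → ℚ) ℚ, fun v hv => ?_⟩
    have h1 : |η v| ≤ ∑ v ∈ P, |η v| :=
      Finset.single_le_sum (f := fun v => |η v|) (fun _ _ => abs_nonneg _) hv
    have h2 := neg_abs_le (η v)
    simp only [LinearMap.smul_apply, LinearMap.snd_apply, pt, hat, smul_eq_mul]
    push_cast
    linarith
  have hrep : ∀ t : ℕ, ∀ x ∈ Us P t, ∃ L, IsVert P pt η L ∧ ∃ c : (Fin d → ℤ) → ℚ,
      (∀ i ∈ tight P pt η L, 0 ≤ c i) ∧ hat x t = ∑ i ∈ tight P pt η L, c i • pt i :=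
    fun t x hx => exists_vert_rep hspan hgen L0 hL0 _ hx
  -- the finite set of vertices
  set VV : Finset (Dual ℚ ((Fin d → ℚ) × ℚ)) :=
    (finite_vert (P := P) (f := (pt : (Fin d → ℤ) → _)) (η := η)).toFinset with hVV
  have hmemVV : ∀ L, L ∈ VV ↔ IsVert P pt η L := by
    intro L
    rw [hVV, Set.Finite.mem_toFinset]
    rfl
  have hpar : ∀ L : Dual ℚ ((Fin d → ℚ) × ℚ), ∃ p : Fin (d + 1) → (Fin d → ℤ), IsVert P pt η L →
      Function.Injective p ∧
      (∀ v, v ∈ tight P pt η L ↔ ∃ k, p k = v) ∧ LinearIndependent ℚ (fun k => pt (p k)) := by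
    intro L
    by_cases hL : IsVert P pt η L
    · obtain ⟨p, hp⟩ := exists_param hgen L hL
      exact ⟨p, fun _ => hp⟩
    · exact ⟨0, fun h => absurd h hL⟩
  choose p hp using hpar
  obtain ⟨N, hN, hN2⟩ := clear_denoms (VV.biUnion (fun L => Finset.univ.image
    (fun i : Fin d => L (hat (Pi.single i 1 : Fin d → ℤ) 0))))
  have hint : ∀ L : Dual ℚ ((Fin d → ℚ) × ℚ), ∃ s : (Fin d → ℤ) →+ ℤ, IsVert P pt η L →
      ∀ v, (s v : ℚ) = N * L (hat v 0) := by
    intro L
    by_cases hL : IsVert P pt η L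
    · obtain ⟨s, hs⟩ := exists_int_fun L N (fun i => hN2 _ (by
        rw [mem_biUnion]
        exact ⟨L, (hmemVV L).2 hL, mem_image_of_mem _ (mem_univ i)⟩))
      exact ⟨s, fun _ => hs⟩
    · exact ⟨0, fun h => absurd h hL⟩
  choose s hs using hint
  let e : Fin VV.card ≃ VV := VV.equivFin.symm
  have hv : ∀ j, IsVert P pt η (e j : Dual ℚ ((Fin d → ℚ) × ℚ)) := fun j => (hmemVV _).1 (e j).2
  have htp : ∀ j k, p (e j) k ∈ tight P pt η (e j : Dual ℚ ((Fin d → ℚ) × ℚ)) := fun j k =>
    ((hp _ (hv j)).2.1 _).2 ⟨k, rfl⟩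
  have hptsub : ∀ (L : Dual ℚ ((Fin d → ℚ) × ℚ)) (a b : Fin d → ℤ),
      L (hat (a - b) 0) = L (pt a) - L (pt b) := by
    intro L a b
    have := hat_sub a b 1 1
    rw [sub_self] at this
    rw [this, map_sub]
    rfl
  -- comparison
  have hcmp : ∀ i j k l, 0 ≤ ((e i : Dual ℚ ((Fin d → ℚ) × ℚ)) - e j)
      (hat (p (e i) k - p (e j) l) 0) := by
    intro i j k l
    rw [hptsub]
    simp only [LinearMap.sub_apply]
    have h1 := mem_tight.1 (htp i k)
    have h2 := mem_tight.1 (htp j l)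
    have h3 := (hv j).1 _ h1.1
    have h4 := (hv i).1 _ h2.1
    rw [h1.2, h2.2]
    linarith
  let c : Cells (Fin d → ℤ) S d VV.card :=
    { s := fun j => s (e j)
      p := fun j => p (e j)
      hs := by
        intro i j hij hsij
        apply hij
        apply e.injective
        apply Subtype.ext
        have hN0 : (N : ℚ) ≠ 0 := by exact_mod_cast hN.ne'
        have h1 : ∀ v, (e i : Dual ℚ ((Fin d → ℚ) × ℚ)) (hat v 0) =
            (e j : Dual ℚ ((Fin d → ℚ) × ℚ)) (hat v 0) := by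
          intro v
          have h2 := hs _ (hv i) v
          have h3 := hs _ (hv j) v
          rw [hsij, h3] at h2
          exact (mul_left_cancel₀ hN0 h2).symm
        have hpt : ∀ (L : Dual ℚ ((Fin d → ℚ) × ℚ)) (v : Fin d → ℤ),
            L (pt v) = L (hat v 0) + L (hat 0 1) := by
          intro L v
          have := hat_add v 0 0 1
          rw [add_zero, zero_add] at this
          unfold pt
          rw [this, map_add]
        have h4 := mem_tight.1 (htp i 0)
        have h5 := mem_tight.1 (htp j 0)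
        have h6 := (hv j).1 _ h4.1
        have h7 := (hv i).1 _ h5.1
        rw [← h4.2, hpt, hpt, h1] at h6
        rw [← h5.2, hpt, hpt, h1] at h7
        apply LinearMap.ext_on hspan
        rintro _ ⟨v, _, rfl⟩
        rw [hpt, hpt, h1]
        linarith
      hp := by
        intro j k
        exact (mem_tight.1 (htp j k)).1
      hli := fun j => linInd_edges _ (hp _ (hv j)).2.2
      hord := by
        intro i j k l
        have h1 := hcmp i j k l
        have h2 : (((s (e i) - s (e j)) (p (e i) k - p (e j) l) : ℤ) : ℚ) =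
            N * (((e i : Dual ℚ ((Fin d → ℚ) × ℚ)) - e j)
              (hat (p (e i) k - p (e j) l) 0)) := by
          rw [AddMonoidHom.sub_apply, LinearMap.sub_apply]
          push_cast
          rw [hs _ (hv i), hs _ (hv j)]
          ring
        have h3 : (0 : ℚ) ≤ (((s (e i) - s (e j)) (p (e i) k - p (e j) l) : ℤ) : ℚ) := by
          rw [h2]; positivity
        exact_mod_cast h3
      hfin := fun j => finite_quot _ (linInd_edges _ (hp _ (hv j)).2.2) }
  have hQ : ∀ t x, x ∈ Us P t → ∃ j, x ∈ Qs (c.p j) t := by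
    intro t x hx
    obtain ⟨L, hL, cc, hcc, hxx⟩ := hrep t x hx
    refine ⟨e.symm ⟨L, (hmemVV L).2 hL⟩, fun k => cc (p L k), ?_, ?_⟩
    · intro k
      exact hcc _ (((hp _ hL).2.1 _).2 ⟨k, rfl⟩)
    · rw [hxx]
      have h1 : tight P pt η L = Finset.univ.image (p L) := by
        ext v
        rw [(hp _ hL).2.1]
        simp
      rw [h1, Finset.sum_image (fun a _ b _ h => (hp _ hL).1 h)]
      simp only [c, Equiv.apply_symm_apply]
  have hcount : ∀ j t, (Qs (c.p j) t).Finite ∧
      (Qs (c.p j) t).ncard ≤ Nat.card ((Fin d → ℤ) ⧸ Lam (c.p j)) * L d t :=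
    fun j t => count_simplex _ (hp _ (hv j)).2.2 t
  have hUsub : ∀ t, Us P t ⊆ ⋃ j ∈ (Finset.univ : Finset (Fin VV.card)), Qs (c.p j) t := by
    intro t x hx
    obtain ⟨j, hj⟩ := hQ t x hx
    simp only [Set.mem_iUnion]
    exact ⟨j, mem_univ j, hj⟩
  have hUQfin : ∀ t, (⋃ j ∈ (Finset.univ : Finset (Fin VV.card)), Qs (c.p j) t).Finite := by
    intro t
    apply Set.Finite.biUnion (Finset.finite_toSet _)
    intro j _
    exact (hcount j t).1
  have hfin : ∀ t, (Us P t).Finite := fun t => (hUQfin t).subset (hUsub t)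
  refine ⟨VV.card, c, ?_, hfin, ?_, ?_, ?_⟩
  · rw [card_pos]
    obtain ⟨L, hL, -⟩ := lifting hspan 0 (fun φ _ => by simp) L0 hL0
    exact ⟨L, (hmemVV L).2 hL⟩
  · intro t
    refine (Set.ncard_le_ncard (hUsub t) (hUQfin t)).trans ?_
    refine (Finset.set_ncard_biUnion_le _ _).trans ?_
    exact Finset.sum_le_sum fun j _ => (hcount j t).2
  · -- polynomiality
    let FF : Finset (Finset (Fin d → ℤ)) :=
      P.powerset.filter (fun F => ∃ L, IsVert P pt η L ∧ F ⊆ tight P pt η L)
    have hU : ∀ t, Us P t = ⋃ F ∈ (FF : Set (Finset (Fin d → ℤ))), Gs F F t := by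
      intro t
      ext x
      simp only [Set.mem_iUnion]
      constructor
      · intro hx
        obtain ⟨L, hL, cc, hcc, hxx⟩ := hrep t x hx
        refine ⟨(tight P pt η L).filter (fun v => 0 < cc v), ?_, cc, ?_, ?_, ?_⟩
        · rw [mem_coe, mem_filter, mem_powerset]
          exact ⟨(filter_subset _ _).trans (filter_subset _ _), L, hL, filter_subset _ _⟩
        · intro v hv
          exact (mem_filter.1 hv).2
        · intro v hv hv'
          exact absurd hv hv'
        · rw [hxx]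
          symm
          apply Finset.sum_filter_of_ne
          intro v hv hne
          refine lt_of_le_of_ne (hcc v hv) fun h => hne ?_
          rw [← h, zero_smul]
      · rintro ⟨F, hF, hx⟩
        rw [mem_coe, mem_filter, mem_powerset] at hF
        exact Gs_subset_Us hF.1 t hx
    have hdisj : ∀ t, (FF : Set (Finset (Fin d → ℤ))).PairwiseDisjoint (fun F => Gs F F t) := by
      intro t F hF F' hF' hne
      rw [Function.onFun, Set.disjoint_left]
      intro x hx hx'
      apply hne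
      rw [mem_coe, mem_filter, mem_powerset] at hF hF'
      obtain ⟨-, L, hL, hFL⟩ := hF
      obtain ⟨-, L', hL', hFL'⟩ := hF'
      obtain ⟨cc, h1, _, h3⟩ := hx
      obtain ⟨cc', h1', _, h3'⟩ := hx'
      exact carrier_unique hgen hL.1 hL'.1 hFL hFL' h1 h1' (h3.symm.trans h3')
    have hncard : ∀ t, ((Us P t).ncard : ℤ) = ∑ F ∈ FF, ((Gs F F t).ncard : ℤ) := by
      intro t
      rw [hU t, Set.Finite.ncard_biUnion (Finset.finite_toSet _) _ (hdisj t)]
      · rw [finsum_mem_coe_finset]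
        push_cast
        rfl
      · intro F hF
        rw [mem_coe, mem_filter, mem_powerset] at hF
        exact (hfin t).subset (Gs_subset_Us hF.1 t)
    have hlead : HasLead (d + 1) 0 (fun t => ∑ F ∈ FF, ((Gs F F t).ncard : ℤ)) := by
      apply hasLead_sum
      intro F hF
      rw [mem_filter, mem_powerset] at hF
      obtain ⟨hFP, L, hL, hFL⟩ := hF
      have h1 : LinearIndepOn ℚ pt (F : Set (Fin d → ℤ)) :=
        (hgen L).mono (by exact_mod_cast hFL)
      have h2 := hasLead_Gs F h1 (fun t => (hfin t).subset (Gs_subset_Us hFP t)) F (Subset.refl _)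
      apply h2.raise_le
      calc F.card ≤ (tight P pt η L).card := card_le_card hFL
        _ ≤ (Finset.univ.image (p L)).card := by
            apply card_le_card
            intro v hv
            obtain ⟨k, hk⟩ := ((hp _ hL).2.1 v).1 hv
            exact mem_image.2 ⟨k, mem_univ k, hk⟩
        _ ≤ d + 1 := card_image_le.trans (by simp)
    apply HasLead.lower
    refine hlead.congr (Eventually.of_forall fun t => ?_)
    rw [hncard t]
  · intro t x hx
    obtain ⟨L, hL, cc, hcc, hxx⟩ := hrep t x hx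
    refine ⟨fun v => if v ∈ tight P pt η L then cc v else 0, ?_, ?_⟩
    · intro v
      simp only
      split_ifs with h
      · exact hcc v h
      · exact le_refl _
    · rw [hxx]
      simp only [ite_smul, zero_smul]
      rw [← Finset.sum_filter, Finset.filter_mem_eq_inter]
      congr 1
      exact (Finset.inter_eq_right.2 (filter_subset _ _)).symm

end

end Pool.Agent.H35
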