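import Mathlib

namespace Pool.Agent.H35.Tw3

open Relation

/-- Condition on a triangle `u v w` with colours `a b c`, orientations of the three pairs and
the auxiliary directions of the three pairs. -/
def tri (a b c : Fin 3) (duv dvw duw tuv tvw tuw : Bool) : Bool :=
  if a = b then
    if b = c then false
    else
      let x := if c = a + 1 then tuv else !tuv
      !(x && dvw && !duw) && !(!x && !dvw && duw)
  else if b = c then
      let x := if a = b + 1 then tvw else !tvw
      !(duv && x && !duw) && !(!duv && !x && duw)
  else if a = c then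
      let x := if b = a + 1 then tuw else !tuw
      !(duv && dvw && !x) && !(!duv && !dvw && x)
  else true

theorem ext3 : ∀ (cp cq cr : Fin 3) (dpq dqr dpr tpq tqr tpr dpx dqx drx : Bool),
    tri cp cq cr dpq dqr dpr tpq tqr tpr = true →
    ∃ (cx : Fin 3) (tpx tqx trx : Bool),
      tri cp cq cx dpq dqx dpx tpq tqx tpx = true ∧
      tri cq cr cx dqr drx dqx tqr trx tqx = true ∧
      tri cp cr cx dpr drx dpx tpr trx tpx = true := by
  decide +kernel

theorem ext2 : ∀ (cp cq : Fin 3) (dpq tpq dpx dqx : Bool),
    ∃ (cx : Fin 3) (tpx tqx : Bool), tri cp cq cx dpq dqx dpx tpq tqx tpx = true := by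
  decide +kernel

/-- direction bit of a sorted pair in the channel of the colours `i j` -/
def bit (i j a b : Fin 3) (d t : Bool) : Bool :=
  if a = b then
    (if (if a = i then j else i) = a + 1 then t else !t)
  else d

theorem tri_no_cycle : ∀ (i j a b c : Fin 3) (duv dvw duw tuv tvw tuw : Bool), i ≠ j →
    (a = i ∨ a = j) → (b = i ∨ b = j) → (c = i ∨ c = j) →
    tri a b c duv dvw duw tuv tvw tuw = true →
    ¬ (bit i j a b duv tuv = true ∧ bit i j b c dvw tvw = true ∧ bit i j a c duw tuw = false) ∧
    ¬ (bit i j a b duv tuv = false ∧ bit i j b c dvw tvw = false ∧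
      bit i j a c duw tuw = true) := by
  decide +kernel

theorem tri_not_mono : ∀ (a : Fin 3) (duv dvw duw tuv tvw tuw : Bool),
    tri a a a duv dvw duw tuv tvw tuw = false := by
  decide +kernel

section acyclic
variable {V : Type*} (ord : V → ℕ) (hinj : Function.Injective ord) (E : V → V → Prop)

include hinj in
/-- A relation with the shortcut property over the last vertex has no closed walks. -/
theorem acyclic_of_shortcut (hasymm : ∀ u v, E u v → ¬ E v u)
    (hcut : ∀ x u v, ord u < ord x → ord v < ord x → E u x → E x v → E u v) :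
    ∀ x, ¬ TransGen E x x := by
  have hirr : ∀ u, ¬ E u u := fun u h => hasymm u u h h
  -- walks below n
  have key : ∀ n : ℕ, ∀ x, ¬ TransGen (fun u v => E u v ∧ ord u < n ∧ ord v < n) x x := by
    intro n
    induction n with
    | zero =>
      intro x h
      obtain ⟨y, hy, -⟩ := TransGen.head'_iff.1 h
      omega
    | succ n ih =>
      -- shortcut lemma
      have hshort : ∀ x y, TransGen (fun u v => E u v ∧ ord u < n + 1 ∧ ord v < n + 1) x y →
          ord x ≠ n → (ord y ≠ n → TransGen (fun u v => E u v ∧ ord u < n ∧ ord v < n) x y) ∧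
          (ord y = n → (∃ z, E z y ∧ ord z < n ∧
            (z = x ∨ TransGen (fun u v => E u v ∧ ord u < n ∧ ord v < n) x z))) := by
        intro x y h hx
        induction h with
        | single h =>
          obtain ⟨h1, h2, h3⟩ := h
          refine ⟨fun hy => TransGen.single ⟨h1, by omega, by omega⟩, fun hy => ?_⟩
          exact ⟨x, h1, by omega, Or.inl rfl⟩
        | tail h1 h2 ih2 =>
          rename_i b c
          obtain ⟨h3, h4, h5⟩ := h2
          by_cases hb : ord b = n
          · obtain ⟨z, hz1, hz2, hz3⟩ := ih2.2 hb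
            have hcn : ord c ≠ n := by
              intro hc
              have : b = c := hinj (by omega)
              rw [this] at h3
              exact hirr _ h3
            refine ⟨fun _ => ?_, fun hc => absurd hc hcn⟩
            have hzc : E z c := hcut b z c (by omega) (by omega) hz1 h3
            rcases hz3 with rfl | hz3
            · exact TransGen.single ⟨hzc, hz2, by omega⟩
            · exact hz3.tail ⟨hzc, hz2, by omega⟩
          · have h6 := ih2.1 hb
            refine ⟨fun hc => h6.tail ⟨h3, by omega, by omega⟩, fun hc => ?_⟩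
            exact ⟨b, h3, by omega, Or.inr h6⟩
      intro x h
      by_cases hx : ord x = n
      · obtain ⟨y, ⟨hy1, hy2, hy3⟩, hy4⟩ := TransGen.head'_iff.1 h
        have hyn : ord y ≠ n := by
          intro hy
          have : x = y := hinj (by omega)
          rw [← this] at hy1
          exact hirr _ hy1
        rcases reflTransGen_iff_eq_or_transGen.1 hy4 with h5 | h5
        · rw [h5] at hx; exact hyn hx
        · obtain ⟨z, hz1, hz2, hz3⟩ := (hshort y x h5 hyn).2 hx
          have hzy : E z y := hcut x z y (by omega) (by omega) hz1 hy1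
          rcases hz3 with rfl | hz3
          · exact hirr _ hzy
          · exact ih z (TransGen.head ⟨hzy, hz2, by omega⟩ hz3)
      · exact ih x ((hshort x x h hx).1 hx)
  intro x h
  -- a closed walk is bounded
  have hb : ∀ y, TransGen E x y → ∃ n, TransGen (fun u v => E u v ∧ ord u < n ∧ ord v < n) x y := by
    intro y hy
    induction hy with
    | single h =>
      rename_i b
      exact ⟨max (ord x) (ord b) + 1, TransGen.single ⟨h, by omega, by omega⟩⟩
    | tail h1 h2 ih =>
      rename_i b c
      obtain ⟨n, hn⟩ := ih
      refine ⟨max n (max (ord b) (ord c) + 1), ?_⟩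
      have hn' : TransGen (fun u v => E u v ∧ ord u < max n (max (ord b) (ord c) + 1) ∧
          ord v < max n (max (ord b) (ord c) + 1)) x b :=
        TransGen.mono (fun u v h => ⟨h.1, by omega, by omega⟩) _ _ hn
      exact hn'.tail ⟨h2, by omega, by omega⟩
  obtain ⟨n, hn⟩ := hb x h
  exact key n x hn

end acyclic

section main
variable {V : Type*}

theorem tw3 [Finite V] (D : V → V → Prop) (hD : ∀ u v, D u v → ¬ D v u) (H : SimpleGraph V)
    (hDH : ∀ u v, D u v → H.Adj u v) (ord : V → ℕ) (hinj : Function.Injective ord)
    (hpeo : ∀ v u w, H.Adj u v → H.Adj w v → ord u < ord v → ord w < ord v → u ≠ w → H.Adj u w)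
    (hcard : ∀ v, {u | H.Adj u v ∧ ord u < ord v}.ncard ≤ 3) :
    ∃ φ : V → Fin 3, (∀ x, ¬ TransGen (fun u v => D u v ∧ φ u = φ v) x x) ∧
      ∀ i j : Fin 3, i ≠ j → ∀ x,
        ¬ TransGen (fun u v => D u v ∧ ((φ u = i ∧ φ v = j) ∨ (φ u = j ∧ φ v = i))) x x := by
  classical
  have : Fintype V := Fintype.ofFinite V
  -- orientation of all edges of H
  let d : V → V → Bool := fun u v => decide (D u v ∨ (¬ D v u ∧ ord u < ord v))
  have hstep : ∀ n : ℕ, ∃ (φ : V → Fin 3) (τ : V → V → Bool), ∀ u v w, ord u < ord v →
      ord v < ord w → ord w < n → H.Adj u v → H.Adj v w → H.Adj u w →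
      tri (φ u) (φ v) (φ w) (d u v) (d v w) (d u w) (τ u v) (τ v w) (τ u w) = true := by
    intro n
    induction n with
    | zero => exact ⟨fun _ => 0, fun _ _ => true, fun u v w _ _ h => by omega⟩
    | succ n ih =>
      obtain ⟨φ, τ, hφ⟩ := ih
      by_cases hx : ∃ x, ord x = n
      swap
      · refine ⟨φ, τ, fun u v w h1 h2 h3 => hφ u v w h1 h2 ?_⟩
        rcases Nat.lt_succ_iff_lt_or_eq.1 h3 with h | h
        · exact h
        · exact absurd ⟨w, h⟩ hx
      obtain ⟨x, hx⟩ := hx
      set Q : Finset V := Finset.univ.filter (fun u => H.Adj u x ∧ ord u < ord x) with hQ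
      have hmemQ : ∀ u, u ∈ Q ↔ H.Adj u x ∧ ord u < ord x := by intro u; simp [hQ]
      have hQcard : Q.card ≤ 3 := by
        have h1 := hcard x
        have h2 : {u | H.Adj u x ∧ ord u < ord x} = (Q : Set V) := by
          ext u; simp [hQ]
        rw [h2, Set.ncard_coe_finset] at h1
        exact h1
      -- it suffices to find the colour of x
      suffices hsuff : ∃ (cx : Fin 3) (t : V → Bool), ∀ u ∈ Q, ∀ v ∈ Q, ord u < ord v →
          tri (φ u) (φ v) cx (d u v) (d v x) (d u x) (τ u v) (t v) (t u) = true by
        obtain ⟨cx, t, ht⟩ := hsuff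
        refine ⟨Function.update φ x cx, fun u v => if v = x then t u else τ u v, ?_⟩
        intro u v w h1 h2 h3 a1 a2 a3
        rcases Nat.lt_succ_iff_lt_or_eq.1 h3 with h | h
        · have hux : u ≠ x := by rintro rfl; omega
          have hvx : v ≠ x := by rintro rfl; omega
          have hwx : w ≠ x := by rintro rfl; omega
          simp only [Function.update_of_ne hux, Function.update_of_ne hvx,
            Function.update_of_ne hwx, if_neg hvx, if_neg hwx]
          exact hφ u v w h1 h2 h a1 a2 a3
        · have hwx : w = x := hinj (by omega)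
          subst hwx
          have hux : u ≠ w := by rintro rfl; omega
          have hvx : v ≠ w := by rintro rfl; omega
          simp only [Function.update_of_ne hux, Function.update_of_ne hvx,
            Function.update_self, if_neg hvx, if_true]
          exact ht u ((hmemQ u).2 ⟨a3, by omega⟩) v ((hmemQ v).2 ⟨a2, h2⟩) h1
      -- sorted list of the orders
      have hadj : ∀ u ∈ Q, ∀ v ∈ Q, u ≠ v → H.Adj u v := by
        intro u hu v hv huv
        rw [hmemQ] at hu hv
        exact hpeo x u v hu.1 hv.1 hu.2 hv.2 huv
      have hlt : ∀ u ∈ Q, ord u < n := by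
        intro u hu; rw [hmemQ] at hu; omega
      set s : Finset ℕ := Q.image ord with hs
      have hscard : s.card ≤ 3 := Finset.card_image_le.trans hQcard
      have hget : ∀ a ∈ s, ∃ p ∈ Q, ord p = a := fun a ha => by
        rw [hs, Finset.mem_image] at ha; exact ha
      have hin : ∀ u ∈ Q, ord u ∈ s := fun u hu => Finset.mem_image_of_mem _ hu
      have hlen : (s.sort (· ≤ ·)).length = s.card := Finset.length_sort _
      have hsorted : (s.sort (· ≤ ·)).Pairwise (· < ·) := (Finset.sortedLT_sort s).pairwise
      have hmem : ∀ a, a ∈ s.sort (· ≤ ·) ↔ a ∈ s := fun a => Finset.mem_sort _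
      rcases hl : s.sort (· ≤ ·) with _ | ⟨a, _ | ⟨b, _ | ⟨c, _ | ⟨e, l⟩⟩⟩⟩
      · -- no neighbours
        refine ⟨0, fun _ => true, fun u hu => ?_⟩
        have := (hmem _).2 (hin u hu)
        rw [hl] at this
        simp at this
      · refine ⟨0, fun _ => true, fun u hu v hv huv => ?_⟩
        have h1 := (hmem _).2 (hin u hu)
        have h2 := (hmem _).2 (hin v hv)
        rw [hl] at h1 h2
        simp only [List.mem_singleton] at h1 h2
        omega
      · rw [hl] at hsorted
        simp only [List.pairwise_cons, List.mem_cons, List.not_mem_nil, or_false,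
          forall_eq] at hsorted
        obtain ⟨p, hp, hpa⟩ := hget a ((hmem a).1 (by rw [hl]; simp))
        obtain ⟨q, hq, hqb⟩ := hget b ((hmem b).1 (by rw [hl]; simp))
        obtain ⟨cx, tpx, tqx, ht⟩ := ext2 (φ p) (φ q) (d p q) (τ p q) (d p x) (d q x)
        refine ⟨cx, fun u => if u = p then tpx else tqx, fun u hu v hv huv => ?_⟩
        have h1 := (hmem _).2 (hin u hu)
        have h2 := (hmem _).2 (hin v hv)
        rw [hl] at h1 h2
        simp only [List.mem_cons, List.not_mem_nil, or_false] at h1 h2
        have hup : u = p := hinj (by omega)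
        have hvq : v = q := hinj (by omega)
        subst hup; subst hvq
        have hne : v ≠ u := by rintro rfl; omega
        simp only [if_neg hne, if_true]
        exact ht
      · rw [hl] at hsorted
        simp only [List.pairwise_cons, List.mem_cons, List.not_mem_nil, or_false,
          forall_eq_or_imp, forall_eq] at hsorted
        obtain ⟨p, hp, hpa⟩ := hget a ((hmem a).1 (by rw [hl]; simp))
        obtain ⟨q, hq, hqb⟩ := hget b ((hmem b).1 (by rw [hl]; simp))
        obtain ⟨r, hr, hrc⟩ := hget c ((hmem c).1 (by rw [hl]; simp))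
        have hpq : p ≠ q := by rintro rfl; omega
        have hqr : q ≠ r := by rintro rfl; omega
        have hpr : p ≠ r := by rintro rfl; omega
        have h0 := hφ p q r (by omega) (by omega) (hlt r hr) (hadj p hp q hq hpq)
          (hadj q hq r hr hqr) (hadj p hp r hr hpr)
        obtain ⟨cx, tpx, tqx, trx, ht1, ht2, ht3⟩ := ext3 _ _ _ _ _ _ _ _ _ (d p x) (d q x)
          (d r x) h0
        refine ⟨cx, fun u => if u = p then tpx else if u = q then tqx else trx,
          fun u hu v hv huv => ?_⟩
        have h1 := (hmem _).2 (hin u hu)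
        have h2 := (hmem _).2 (hin v hv)
        rw [hl] at h1 h2
        simp only [List.mem_cons, List.not_mem_nil, or_false] at h1 h2
        have hcases : (u = p ∧ v = q) ∨ (u = p ∧ v = r) ∨ (u = q ∧ v = r) := by
          rcases h1 with h1 | h1 | h1 <;> rcases h2 with h2 | h2 | h2
          · omega
          · exact Or.inl ⟨hinj (by omega), hinj (by omega)⟩
          · exact Or.inr (Or.inl ⟨hinj (by omega), hinj (by omega)⟩)
          · omega
          · omega
          · exact Or.inr (Or.inr ⟨hinj (by omega), hinj (by omega)⟩)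
          · omega
          · omega
          · omega
        rcases hcases with ⟨rfl, rfl⟩ | ⟨rfl, rfl⟩ | ⟨rfl, rfl⟩
        · simp only [if_neg hpq.symm, if_true]; exact ht1
        · simp only [if_neg hpr.symm, if_neg hqr.symm, if_true]; exact ht3
        · simp only [if_neg hpq.symm, if_neg hqr.symm, if_neg hpr.symm, if_true]; exact ht2
      · exfalso
        rw [hl] at hlen
        simp only [List.length_cons] at hlen
        omega
  obtain ⟨φ, τ, hφ⟩ := hstep (Finset.univ.sup ord + 1)
  have hbound : ∀ u, ord u < Finset.univ.sup ord + 1 := fun u =>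
    Nat.lt_succ_of_le (Finset.le_sup (f := ord) (Finset.mem_univ u))
  have hd1 : ∀ u v, D u v → d u v = true := fun u v h => by simp [d, h]
  have hd2 : ∀ u v, D u v → d v u = false := fun u v h => by
    have := hD u v h
    simp [d, h, this]
  refine ⟨φ, ?_, ?_⟩
  · -- monochromatic
    apply acyclic_of_shortcut ord hinj
    · intro u v h h'
      exact hD u v h.1 h'.1
    · intro x u v hu hv h1 h2
      exfalso
      have huv : u ≠ v := by
        rintro rfl
        exact hD _ _ h1.1 h2.1
      have a1 := hDH _ _ h1.1
      have a2 := (hDH _ _ h2.1).symm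
      have a3 := hpeo x u v a1 a2 hu hv huv
      rcases lt_or_gt_of_ne (fun h => huv (hinj h) : ord u ≠ ord v) with h | h
      · have := hφ u v x h hv (hbound x) a3 a2 a1
        rw [h1.2, ← h2.2, tri_not_mono] at this
        exact absurd this (by simp)
      · have := hφ v u x h hu (hbound x) a3.symm a1 a2
        rw [h1.2, ← h2.2, tri_not_mono] at this
        exact absurd this (by simp)
  · intro i j hij
    -- direction of an edge of H in the channel
    let b : V → V → Bool := fun u v => bit i j (φ u) (φ v) (d u v) (τ u v)
    let E : V → V → Prop := fun u v => H.Adj u v ∧ (φ u = i ∨ φ u = j) ∧ (φ v = i ∨ φ v = j) ∧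
      ((ord u < ord v ∧ b u v = true) ∨ (ord v < ord u ∧ b v u = false))
    have hE : ∀ x, ¬ TransGen E x x := by
      apply acyclic_of_shortcut ord hinj
      · rintro u v ⟨-, -, -, h1⟩ ⟨-, -, -, h2⟩
        rcases h1 with ⟨h1, h1'⟩ | ⟨h1, h1'⟩ <;> rcases h2 with ⟨h2, h2'⟩ | ⟨h2, h2'⟩
        · omega
        · rw [h1'] at h2'; exact absurd h2' (by simp)
        · rw [h1'] at h2'; exact absurd h2' (by simp)
        · omega
      · rintro x u v hu hv ⟨a1, cu, cx, h1⟩ ⟨a2, -, cv, h2⟩
        have h1' : b u x = true := by
          rcases h1 with h1 | h1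
          · exact h1.2
          · omega
        have h2' : b v x = false := by
          rcases h2 with h2 | h2
          · omega
          · exact h2.2
        have huv : u ≠ v := by
          rintro rfl
          rw [h1'] at h2'; exact absurd h2' (by simp)
        have a3 := hpeo x u v a1 a2.symm hu hv huv
        refine ⟨a3, cu, cv, ?_⟩
        rcases lt_or_gt_of_ne (fun h => huv (hinj h) : ord u ≠ ord v) with h | h
        · left
          refine ⟨h, ?_⟩
          have h3 := hφ u v x h hv (hbound x) a3 a2.symm a1
          have h4 := tri_no_cycle i j _ _ _ _ _ _ _ _ _ hij cu cv cx h3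
          by_contra h5
          rw [Bool.not_eq_true] at h5
          exact h4.2 ⟨h5, h2', h1'⟩
        · right
          refine ⟨h, ?_⟩
          have h3 := hφ v u x h hu (hbound x) a3.symm a1 a2.symm
          have h4 := tri_no_cycle i j _ _ _ _ _ _ _ _ _ hij cv cu cx h3
          by_contra h5
          rw [Bool.not_eq_false] at h5
          exact h4.1 ⟨h5, h1', h2'⟩
    intro x hx
    refine hE x (TransGen.mono ?_ _ _ hx)
    rintro u v ⟨h1, h2⟩
    have hne : φ u ≠ φ v := by
      rcases h2 with ⟨h2, h3⟩ | ⟨h2, h3⟩ <;> rw [h2, h3]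
      · exact hij
      · exact hij.symm
    have huv : u ≠ v := by rintro rfl; exact hne rfl
    refine ⟨hDH _ _ h1, ?_, ?_, ?_⟩
    · rcases h2 with h2 | h2
      · exact Or.inl h2.1
      · exact Or.inr h2.1
    · rcases h2 with h2 | h2
      · exact Or.inr h2.2
      · exact Or.inl h2.2
    · rcases lt_or_gt_of_ne (fun h => huv (hinj h) : ord u ≠ ord v) with h | h
      · left
        refine ⟨h, ?_⟩
        simp only [b, bit, if_neg hne]
        exact hd1 u v h1
      · right
        refine ⟨h, ?_⟩
        simp only [b, bit, if_neg hne.symm]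
        exact hd2 u v h1

end main

end Pool.Agent.H35.Tw3
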